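import Pool.Agent.Lib.H3U.Def2

/-!
# Uniform amalgamation: connected sets and the definitions which use them

The definitions of `H3F/Def2.lean` with uniform instead of free amalgams.  The default values are an
instance argument.
-/

set_option autoImplicit false

namespace Pool.Agent.Lib.H3U

open Equiv
open Pool.Agent.Lib.H3F
open Pool.Agent.Lib.H3C (Cl FR Olig Sup pai pia)

/-- Default values for the signature `(R, ar)`. -/
class Dft (R : Type) (ar : R → Type) where
  /-- The default values. -/
  δ : Dfv R ar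

variable {R : Type} {ar : R → Type}

/-- `M` is homogeneous with uniform amalgamation for the given default values. -/
abbrev HU [Dft R ar] {V : Type} (M : Str R ar V) : Prop := HUA M (Dft.δ (R := R) (ar := ar))

/-- A numbering of the marked points. -/
class Nb (κ : Type) where
  /-- The number of the marked points. -/
  N : ℕ
  /-- The numbering. -/
  e : κ ≃ Fin N

variable {κ : Type} [Nb κ]

open Classical in
/-- The number of a point: the marked points outside of `E` come first, then the others in the
natural order. -/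
noncomputable def nm (E : Finset ℕ) (m : κ → ℕ) (x : ℕ) : ℕ :=
  if x ∈ E then Nb.N κ + x else if h : ∃ s, m s = x then (Nb.e h.choose : ℕ) else Nb.N κ + x

/-- On `E` and the marked points, `C` is the uniform amalgam of `E` and `P` with the marked points:
the tuples which are neither in `E` nor in `P` and the marked points have the default values. -/
def Con [Dft R ar] (E P : Finset ℕ) (m : κ → ℕ) (C : Str R ar ℕ) : Prop :=
  ∀ r (t : ar r → ℕ), (∀ i, t i ∈ E ∨ ∃ s, m s = t i) → (¬ ∀ i, t i ∈ E) →
    (¬ ∀ i, t i ∈ P ∨ ∃ s, m s = t i) → (C r t ↔ dv Dft.δ C (nm E m) r t)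

section Lo

variable [∀ r, Finite (ar r)] {d : ℕ} {V : Type} [Dft R ar]

/-- `N` does not change `E` if `E` has less than `s` marked points, or `s` marked points and is
connected to the others through a set `P` with less than `s + h` points. -/
def Gd (M : Str R ar V) (A : Str R ar κ) (e : LoD R ar d) (s h : ℕ)
    (N : (κ → ℕ) → Str R ar ℕ → Str R ar ℕ) : Prop :=
  ∀ (D E P : Finset ℕ) (m : κ → ℕ) (C : Str R ar ℕ), Adm M A D m C → P ⊆ E → E ⊆ D →
    (∀ u, m u ∈ E → m u ∈ P) → Con E P m C → Ke M e E C →
      (mk m E < s ∨ (mk m E = s ∧ P.card < s + h)) → EqS (E : Set ℕ) (N m C) C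

/-- The rule `mu` undoes `N` on sets `E` which are connected to the marked points through a copy of
`P₀`. -/
def GMu (M : Str R ar V) (G : Subgroup (Perm V)) (A : Str R ar κ) (e : LoD R ar d)
    (N : (κ → ℕ) → Str R ar ℕ → Str R ar ℕ) (j : ℕ) (m₀ : κ → ℕ) (C₀ : Str R ar ℕ)
    (P₀ : Finset ℕ) (mu : LoD R ar d) : Prop :=
  IsLo M G e j mu ∧ ∀ (D E P : Finset ℕ) (m : κ → ℕ) (C : Str R ar ℕ), Adm M A D m C →
    P ⊆ E → E ⊆ D → Iso m C P m₀ C₀ P₀ → (∀ u, m u ∈ E → m u ∈ P) → Con E P m C → Ke M e E C →
      EqS (E : Set ℕ) (lo mu (N m C) P) C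

open Classical in
/-- The rule at `P`. -/
noncomputable def Lam (M : Str R ar V) (G : Subgroup (Perm V)) (A : Str R ar κ)
    (e : LoD R ar d) (N : (κ → ℕ) → Str R ar ℕ → Str R ar ℕ) (s h : ℕ) (m : κ → ℕ)
    (C : Str R ar ℕ) (P : Finset ℕ) : LoD R ar d :=
  if mk m P = s ∧ P.card = s + h ∧ ∃ mu, GMu M G A e N (s + h) m C P mu then
    Classical.epsilon (GMu M G A e N (s + h) m C P)
  else idLo

/-- The next map: undo at all sets `P` with `s` marked points and `s + h` points. -/
noncomputable def nxt (M : Str R ar V) (G : Subgroup (Perm V)) (A : Str R ar κ)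
    (e : LoD R ar d) (N : (κ → ℕ) → Str R ar ℕ → Str R ar ℕ) (s h : ℕ) (m : κ → ℕ)
    (C : Str R ar ℕ) : Str R ar ℕ := fa (Lam M G A e N s h m C) (N m C)

end Lo

end Pool.Agent.Lib.H3U
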