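import Pool.Agent.Lib.H3F.B1
import Pool.Agent.Lib.H3U.Def3

/-! # B2: connected sets -/

set_option autoImplicit false

namespace Pool.Agent.Lib.H3U

open Pool.Agent.Lib.H3F

variable {R : Type} {ar : R → Type} {κ : Type} [Nb κ]

theorem nm_mem {E : Finset ℕ} {m : κ → ℕ} {x : ℕ} (h : x ∈ E) : nm E m x = Nb.N κ + x := by
  unfold nm
  rw [if_pos h]

/-- The numbers of the marked points outside of `E` and `E'` agree. -/
theorem nm_mark {E E' : Finset ℕ} {m m' : κ → ℕ} {x x' : ℕ} (h : x ∉ E) (h' : x' ∉ E')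
    (hs : ∃ s, m s = x) (he : ∀ s, m s = x ↔ m' s = x') : nm E m x = nm E' m' x' := by
  unfold nm
  have e1 : (fun s => m s = x) = fun s => m' s = x' := funext fun s => propext (he s)
  have hs' : ∃ s, m' s = x' := by
    obtain ⟨s, hs⟩ := hs
    exact ⟨s, (he s).1 hs⟩
  rw [if_neg h, if_neg h', dif_pos hs, dif_pos hs']
  have key : ∀ (p q : κ → Prop) (hp : ∃ s, p s) (hq : ∃ s, q s), p = q →
      (Nb.e hp.choose : ℕ) = Nb.e hq.choose := by
    intro p q hp hq hpq
    subst hpq
    rfl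
  exact key _ _ hs hs' e1

theorem nm_mark_lt {E : Finset ℕ} {m : κ → ℕ} {x : ℕ} (h : x ∉ E) (hs : ∃ s, m s = x) :
    nm E m x < Nb.N κ := by
  unfold nm
  rw [if_neg h, dif_pos hs]
  exact (Nb.e hs.choose).2

theorem nm_mark_spec {E : Finset ℕ} {m : κ → ℕ} {x : ℕ} (h : x ∉ E) (hs : ∃ s, m s = x) :
    ∃ s : κ, (Nb.e s : ℕ) = nm E m x ∧ m s = x := by
  unfold nm
  rw [if_neg h, dif_pos hs]
  exact ⟨hs.choose, rfl, hs.choose_spec⟩

/-- The numbering is injective on `E` and the marked points. -/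
theorem nm_inj (E : Finset ℕ) (m : κ → ℕ) :
    Set.InjOn (nm E m) ((E : Set ℕ) ∪ Set.range m) := by
  intro x hx y hy hxy
  by_cases h1 : x ∈ E
  · by_cases h2 : y ∈ E
    · rw [nm_mem h1, nm_mem h2] at hxy
      omega
    · have h3 := nm_mark_lt h2 (hy.resolve_left h2)
      rw [nm_mem h1] at hxy
      omega
  · have h3 := nm_mark_lt h1 (hx.resolve_left h1)
    by_cases h2 : y ∈ E
    · rw [nm_mem h2] at hxy
      omega
    · obtain ⟨s, hs1, hs2⟩ := nm_mark_spec h1 (hx.resolve_left h1)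
      obtain ⟨s', hs1', hs2'⟩ := nm_mark_spec h2 (hy.resolve_left h2)
      have h4 : s = s' := Nb.e.injective (Fin.ext (by omega))
      rw [← hs2, ← hs2', h4]

/-- **Comparison of the order patterns.**  `θ` maps the points of `E` increasingly into `E'`, and the
marked points outside of `E` to those outside of `E'`. -/
theorem nm_lt_iff {E E' : Finset ℕ} {m m' : κ → ℕ} {θ : ℕ → ℕ} {x y : ℕ}
    (hm : StrictMonoOn θ (E : Set ℕ)) (hx : x ∈ E ∨ ∃ s, m s = x) (hy : y ∈ E ∨ ∃ s, m s = y)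
    (hE : ∀ z, z = x ∨ z = y → (z ∈ E ↔ θ z ∈ E'))
    (hs : ∀ z, z = x ∨ z = y → z ∉ E → ∀ s, m s = z ↔ m' s = θ z) :
    nm E m x < nm E m y ↔ nm E' m' (θ x) < nm E' m' (θ y) := by
  have hex : ∀ z, z = x ∨ z = y → z ∉ E → (∃ s, m s = z) → ∃ s, m' s = θ z := by
    rintro z hz hzE ⟨s, h⟩
    exact ⟨s, (hs z hz hzE s).1 h⟩
  by_cases h1 : x ∈ E
  · have h1' := (hE x (Or.inl rfl)).1 h1
    by_cases h2 : y ∈ E
    · have h2' := (hE y (Or.inr rfl)).1 h2
      rw [nm_mem h1, nm_mem h2, nm_mem h1', nm_mem h2']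
      have := hm.lt_iff_lt (Finset.mem_coe.2 h1) (Finset.mem_coe.2 h2)
      omega
    · have h2' := fun h => h2 ((hE y (Or.inr rfl)).2 h)
      have h3 := nm_mark_lt h2 (hy.resolve_left h2)
      have h4 := nm_mark_lt h2' (hex y (Or.inr rfl) h2 (hy.resolve_left h2))
      rw [nm_mem h1, nm_mem h1']
      omega
  · have h1' := fun h => h1 ((hE x (Or.inl rfl)).2 h)
    have e1 : nm E m x = nm E' m' (θ x) :=
      nm_mark h1 h1' (hx.resolve_left h1) (hs x (Or.inl rfl) h1)
    have h3 := nm_mark_lt h1 (hx.resolve_left h1)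
    by_cases h2 : y ∈ E
    · have h2' := (hE y (Or.inr rfl)).1 h2
      rw [← e1, nm_mem h2, nm_mem h2']
      omega
    · have h2' := fun h => h2 ((hE y (Or.inr rfl)).2 h)
      have e2 : nm E m y = nm E' m' (θ y) :=
        nm_mark h2 h2' (hy.resolve_left h2) (hs y (Or.inr rfl) h2)
      rw [e1, e2]

/-- Default values of two structures agree if the order patterns and the 1-types agree. -/
theorem dv_congr {ι ι' : Type} (δ : Dfv R ar) {A : Str R ar ι} {B : Str R ar ι'} {p : ι → ℕ}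
    {q : ι' → ℕ} {r : R} {t : ar r → ι} {u : ar r → ι'}
    (h1 : ∀ i j, p (t i) < p (t j) ↔ q (u i) < q (u j))
    (h2 : ∀ i s, A s (fun _ => t i) ↔ B s (fun _ => u i)) : dv δ A p r t ↔ dv δ B q r u := by
  unfold dv
  have e1 : (fun i j => p (t i) < p (t j)) = fun i j => q (u i) < q (u j) := by
    funext i j
    exact propext (h1 i j)
  have e2 : (fun i => ty A (t i)) = fun i => ty B (u i) := by
    funext i s
    exact propext (h2 i s)
  rw [e1, e2]

variable [Dft R ar]

theorem Con_self (E : Finset ℕ) (m : κ → ℕ) (C : Str R ar ℕ) : Con E E m C := by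
  intro r t ht _ h
  exact absurd ht h

/-- A subset with the same marked points is connected through a smaller set. -/
theorem Con_sub {E P E' : Finset ℕ} {m : κ → ℕ} {C : Str R ar ℕ} (h : Con E P m C)
    (hE : E' ⊆ E) (h' : ∀ s, m s ∈ E → m s ∈ E') : Con E' (P ∩ E') m C := by
  intro r t ht hn1 hn2
  have hout : ∀ x, (x ∈ E' ∨ ∃ s, m s = x) → (x ∈ E' ↔ x ∈ E) := by
    intro x hx
    constructor
    · exact fun h => hE h
    · intro hxE
      rcases hx with hx | ⟨s, hs⟩
      · exact hx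
      · rw [← hs] at hxE ⊢
        exact h' s hxE
  rw [h r t (fun i => (ht i).imp (fun hi => hE hi) id)
    (fun h1 => hn1 fun i => (hout _ (ht i)).2 (h1 i))
    (fun h1 => hn2 fun i => by
      rcases ht i with h2 | h2
      · rcases h1 i with h3 | h3
        · exact Or.inl (Finset.mem_inter.2 ⟨h3, h2⟩)
        · exact Or.inr h3
      · exact Or.inr h2)]
  refine dv_congr _ (fun i j => ?_) (fun i s => Iff.rfl)
  have h1 := nm_lt_iff (E := E') (E' := E) (m := m) (m' := m) (θ := fun x => x)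
    (x := t i) (y := t j) (fun a _ b _ hab => hab) (ht i) (ht j)
    (fun z hz => by
      rcases hz with rfl | rfl
      · exact hout _ (ht i)
      · exact hout _ (ht j))
    (fun z _ _ s => Iff.rfl)
  exact h1.symm

theorem Con_trans {D P Q : Finset ℕ} {m : κ → ℕ} {C : Str R ar ℕ} (h : Con D P m C)
    (h' : Con P Q m C) (hP : P ⊆ D) (hm : ∀ u, m u ∈ D → m u ∈ P) : Con D Q m C := by
  intro r t ht hn1 hn2
  by_cases hP' : ∀ i, t i ∈ P ∨ ∃ s, m s = t i
  · rw [h' r t hP' (fun h1 => hn1 fun i => hP (h1 i)) hn2]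
    refine dv_congr _ (fun i j => ?_) (fun i s => Iff.rfl)
    have hout : ∀ x, (x ∈ P ∨ ∃ s, m s = x) → (x ∈ P ↔ x ∈ D) := by
      intro x hx
      constructor
      · exact fun h => hP h
      · intro hxE
        rcases hx with hx | ⟨s, hs⟩
        · exact hx
        · rw [← hs] at hxE ⊢
          exact hm s hxE
    exact nm_lt_iff (E := P) (E' := D) (m := m) (m' := m) (θ := fun x => x)
      (x := t i) (y := t j) (fun a _ b _ hab => hab) (hP' i) (hP' j)
      (fun z hz => by
        rcases hz with rfl | rfl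
        · exact hout _ (hP' i)
        · exact hout _ (hP' j))
      (fun z _ _ s => Iff.rfl)
  · exact h r t ht hn1 hP'

theorem Con_congr {E P : Finset ℕ} {m : κ → ℕ} {C C' : Str R ar ℕ}
    (h : EqS ((E : Set ℕ) ∪ Set.range m) C C') (hC : Con E P m C) : Con E P m C' := by
  intro r t ht hn1 hn2
  have hmem : ∀ i, t i ∈ (E : Set ℕ) ∪ Set.range m := fun i => by
    rcases ht i with h1 | ⟨s, hs⟩
    · exact Or.inl (Finset.mem_coe.2 h1)
    · exact Or.inr ⟨s, hs⟩
  rw [← h r t hmem, hC r t ht hn1 hn2]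
  exact dv_congr _ (fun i j => Iff.rfl) (fun i s => h s (fun _ => t i) (fun _ => hmem i))

/-- Transport along an isomorphism over the marked points. -/
theorem Con_iso {m m' : κ → ℕ} {C C' : Str R ar ℕ} {P P' Q : Finset ℕ}
    (h : Iso m C P m' C' P') (hQ : Q ⊆ P) (hm : ∀ u, m u ∈ P → m u ∈ Q) (hC : Con P Q m C) :
    ∃ Q' ⊆ P', Q'.card = Q.card ∧ (∀ u, m' u ∈ P' → m' u ∈ Q') ∧ Con P' Q' m' C' := by
  classical
  have hmem := fun s => Iso_mem h s
  obtain ⟨θ, hinj, hmono, himg, hmk, heq⟩ := h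
  have hQim : ∀ x ∈ Q, θ x ∈ Q.image θ := fun x hx => Finset.mem_image_of_mem θ hx
  refine ⟨Q.image θ, ?_, ?_, ?_, ?_⟩
  · rw [← himg]
    exact Finset.image_subset_image hQ
  · exact Finset.card_image_of_injOn fun x hx y hy hxy =>
      hinj (Or.inl (Finset.mem_coe.2 (hQ hx))) (Or.inl (Finset.mem_coe.2 (hQ hy))) hxy
  · intro u hu
    rw [← hmk u]
    exact hQim _ (hm u ((hmem u).2 hu))
  · intro r t' ht' hn1 hn2
    -- preimages
    have hpre : ∀ i, ∃ x, (x ∈ P ∨ ∃ s, m s = x) ∧ θ x = t' i := by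
      intro i
      rcases ht' i with h1 | ⟨s, hs⟩
      · rw [← himg] at h1
        obtain ⟨x, hx, hxi⟩ := Finset.mem_image.1 h1
        exact ⟨x, Or.inl hx, hxi⟩
      · exact ⟨m s, Or.inr ⟨s, rfl⟩, by rw [hmk, hs]⟩
    choose t ht htt using hpre
    have hset : ∀ i, t i ∈ (P : Set ℕ) ∪ Set.range m := fun i => (ht i).imp id id
    have e1 : t' = fun i => θ (t i) := funext fun i => (htt i).symm
    have hin : ∀ x, (x ∈ P ∨ ∃ s, m s = x) → (x ∈ P ↔ θ x ∈ P') := by
      intro x hx
      constructor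
      · intro h1
        rw [← himg]
        exact Finset.mem_image_of_mem θ h1
      · intro h1
        rcases hx with hx | ⟨s, hs⟩
        · exact hx
        · rw [← hs] at h1 ⊢
          rw [hmk] at h1
          exact (hmem s).2 h1
    have h1 := heq r t hset
    have h2 := hC r t ht (fun h3 => hn1 fun i => by
      rw [← htt i]
      exact (hin _ (ht i)).1 (h3 i)) (fun h3 => hn2 fun i => by
      rcases h3 i with h4 | ⟨s, hs⟩
      · left
        rw [← htt i]
        exact hQim _ h4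
      · right
        exact ⟨s, by rw [← htt i, ← hs, hmk]⟩)
    rw [e1]
    show cm θ C' r t ↔ _
    rw [← h1, h2]
    refine dv_congr _ (fun i j => ?_) (fun i s => heq s (fun _ => t i) (fun _ => hset i))
    refine nm_lt_iff (E := P) (E' := P') (m := m) (m' := m') (θ := θ) hmono (ht i) (ht j)
      (fun z hz => by
        rcases hz with rfl | rfl
        · exact hin _ (ht i)
        · exact hin _ (ht j))
      (fun z hz _ s => ?_)
    have hz' : z ∈ (P : Set ℕ) ∪ Set.range m := by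
      rcases hz with rfl | rfl
      · exact hset i
      · exact hset j
    constructor
    · intro h5
      rw [← h5, hmk]
    · intro h5
      rw [← hmk] at h5
      exact hinj (Or.inr ⟨s, rfl⟩) hz' h5

end Pool.Agent.Lib.H3U
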