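import Pool.Agent.Lib.H3F.N3
import Pool.Agent.Lib.H3U.B2

/-! # B3a: the rule of a natural map at a type over the marked points (a) -/

set_option autoImplicit false

namespace Pool.Agent.Lib.H3U

open Pool.Agent.Lib.H3F

variable {R : Type} {ar : R → Type} [∀ r, Finite (ar r)] {d : ℕ} {κ : Type} [Nb κ] [Dft R ar]

/-- The value of `N` at the tuple `t` when its range is glued uniformly to the marked points along
`P`, with the type of `(m₀, C₀, P₀)`. -/
def Val (N : (κ → ℕ) → Str R ar ℕ → Str R ar ℕ) (m₀ : κ → ℕ) (C₀ : Str R ar ℕ)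
    (P₀ : Finset ℕ) (P : Finset ℕ) (C : Str R ar ℕ) (r : R) (t : ar r → ℕ) : Prop :=
  ∃ (m : κ → ℕ) (C' : Str R ar ℕ), Iso m C' P m₀ C₀ P₀ ∧ P ⊆ rg t ∧
    (∀ u, m u ∈ rg t → m u ∈ P) ∧ Con (rg t) P m C' ∧ EqS ((rg t : Finset ℕ) : Set ℕ) C' C ∧
    N m C' r t

/-- **Uniqueness of the value.** (Proof of helper95 for free amalgams, adapted.) -/
theorem Val_iff (N : (κ → ℕ) → Str R ar ℕ → Str R ar ℕ) (hN : Ntr N) (m₀ : κ → ℕ)
    (C₀ : Str R ar ℕ) (P₀ : Finset ℕ) (m : κ → ℕ) (C : Str R ar ℕ) (P E : Finset ℕ) (r : R)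
    (t : ar r → ℕ) (h : Iso m C P m₀ C₀ P₀) (hP : P ⊆ E) (hm : ∀ u, m u ∈ E → m u ∈ P)
    (hC : Con E P m C) (ht : P ⊆ rg t) (hE : ∀ i, t i ∈ E) :
    Val N m₀ C₀ P₀ P C r t ↔ N m C r t := by
  have hrE : rg t ⊆ E := (rg_sub t E).2 hE
  have hmt : ∀ u, m u ∈ rg t → m u ∈ P := fun u hu => hm u (hrE hu)
  have hCt : Con (rg t) P m C := by
    have h1 := Con_sub hC hrE (fun s hs => ht (hm s hs))
    rwa [Finset.inter_eq_left.2 ht] at h1
  constructor
  · rintro ⟨m₁, C₁, hI, _, hm1, hCon, hEq, hNv⟩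
    have hI2 : Iso m₁ C₁ P m C P := Iso_trans hI (Iso_symm h)
    have hmem := Iso_mem hI2
    obtain ⟨θ₀, hinj, hmono, him, hms, hEq0⟩ := hI2
    have hid : ∀ x ∈ P, θ₀ x = x := by
      intro x hx
      have h1 := pos_image θ₀ P hmono x hx
      rw [him] at h1
      have h2 : θ₀ x ∈ P := by
        rw [← him]
        exact Finset.mem_image_of_mem θ₀ hx
      calc θ₀ x = nth P (pos P (θ₀ x)) := (nth_pos P _ h2).symm
        _ = nth P (pos P x) := by rw [h1]
        _ = x := nth_pos P x hx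
    obtain ⟨θ, hθ⟩ : ∃ θ : ℕ → ℕ, θ = fun x => if x ∈ rg t then x else θ₀ x := ⟨_, rfl⟩
    have hθ1 : ∀ x ∈ rg t, θ x = x := by
      intro x hx
      rw [hθ]
      exact if_pos hx
    have hθ2 : ∀ x, x ∉ rg t → θ x = θ₀ x := by
      intro x hx
      rw [hθ]
      exact if_neg hx
    have hθm : ∀ s, θ (m₁ s) = m s := by
      intro s
      by_cases hs : m₁ s ∈ rg t
      · rw [hθ1 _ hs, ← hid _ (hm1 s hs), hms s]
      · rw [hθ2 _ hs, hms s]
    have hback : ∀ s, m₁ s ∉ rg t → m s ∉ rg t := by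
      intro s hs hs2
      exact hs (ht ((hmem s).2 (hmt s hs2)))
    have hθP : ∀ x, x ∈ P ∨ (∃ s, m₁ s = x) → θ x = θ₀ x := by
      rintro x (hx | ⟨s, rfl⟩)
      · rw [hθ1 x (ht hx), hid x hx]
      · rw [hθm s, hms s]
    have hθinj : Set.InjOn θ (((rg t : Finset ℕ) : Set ℕ) ∪ Set.range m₁) := by
      intro x hx y hy hxy
      by_cases hx1 : x ∈ rg t
      · by_cases hy1 : y ∈ rg t
        · rwa [hθ1 x hx1, hθ1 y hy1] at hxy
        · rcases hy with hy | ⟨s, rfl⟩
          · exact absurd (Finset.mem_coe.1 hy) hy1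
          · exfalso
            rw [hθ1 x hx1, hθm s] at hxy
            exact hback s hy1 (by rw [← hxy]; exact hx1)
      · rcases hx with hx | ⟨s, rfl⟩
        · exact absurd (Finset.mem_coe.1 hx) hx1
        · by_cases hy1 : y ∈ rg t
          · exfalso
            rw [hθ1 y hy1, hθm s] at hxy
            exact hback s hx1 (by rw [hxy]; exact hy1)
          · rcases hy with hy | ⟨s', rfl⟩
            · exact absurd (Finset.mem_coe.1 hy) hy1
            · rw [hθ2 _ hx1, hθ2 _ hy1] at hxy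
              exact hinj (Or.inr ⟨s, rfl⟩) (Or.inr ⟨s', rfl⟩) hxy
    have hθmono : StrictMonoOn θ ((rg t : Finset ℕ) : Set ℕ) := by
      intro x hx y hy hxy
      rw [hθ1 x (Finset.mem_coe.1 hx), hθ1 y (Finset.mem_coe.1 hy)]
      exact hxy
    have hθEq : EqS (((rg t : Finset ℕ) : Set ℕ) ∪ Set.range m₁) C₁ (cm θ C) := by
      intro r' t' ht'
      have hin : (∀ i, t' i ∈ rg t) → (C₁ r' t' ↔ cm θ C r' t') := by
        intro h1
        have h2 : (fun i => θ (t' i)) = t' := by
          funext i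
          exact hθ1 _ (h1 i)
        show C₁ r' t' ↔ C r' (fun i => θ (t' i))
        rw [h2]
        exact hEq r' t' fun i => Finset.mem_coe.2 (h1 i)
      have hout : (∀ i, t' i ∈ P ∨ ∃ s, m₁ s = t' i) → (C₁ r' t' ↔ cm θ C r' t') := by
        intro h1
        have h2 : (fun i => θ (t' i)) = fun i => θ₀ (t' i) := by
          funext i
          exact hθP _ (h1 i)
        show C₁ r' t' ↔ C r' (fun i => θ (t' i))
        rw [h2]
        exact hEq0 r' t' fun i => (h1 i).imp (fun hz => Finset.mem_coe.2 hz) id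
      by_cases hA : ∀ i, t' i ∈ rg t
      · exact hin hA
      by_cases hB : ∀ i, t' i ∈ P ∨ ∃ s, m₁ s = t' i
      · exact hout hB
      have hθrg : ∀ x, (x ∈ rg t ∨ ∃ s, m₁ s = x) → (x ∈ rg t ↔ θ x ∈ rg t) := by
        intro x hx
        constructor
        · intro h2
          rw [hθ1 x h2]
          exact h2
        · intro h2
          by_contra h3
          rcases hx with h4 | ⟨s, hs⟩
          · exact h3 h4
          · rw [← hs] at h3
            apply hback s h3
            rw [← hs, hθm s] at h2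
            exact h2
      have h1 : ∀ i, t' i ∈ rg t ∨ ∃ s, m₁ s = t' i := fun i =>
        (ht' i).imp (fun hz => Finset.mem_coe.1 hz) id
      have h1' : ∀ i, θ (t' i) ∈ rg t ∨ ∃ s, m s = θ (t' i) := by
        intro i
        rcases h1 i with h2 | ⟨s, hs⟩
        · exact Or.inl ((hθrg _ (h1 i)).1 h2)
        · exact Or.inr ⟨s, by rw [← hs, hθm s]⟩
      have h2 := hCon r' t' h1 hA hB
      have h3 := hCt r' (fun i => θ (t' i)) h1'
        (fun h4 => hA fun i => (hθrg _ (h1 i)).2 (h4 i))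
        (fun h4 => hB fun i => by
          by_cases h5 : t' i ∈ rg t
          · refine Or.inl ?_
            have h6 := h4 i
            rw [hθ1 _ h5] at h6
            rcases h6 with h6 | ⟨s, hs⟩
            · exact h6
            · rw [← hs] at h5 ⊢
              exact hmt s h5
          · exact Or.inr ((h1 i).resolve_left h5))
      show C₁ r' t' ↔ C r' (fun i => θ (t' i))
      rw [h2, h3]
      have hty : ∀ i s, C₁ s (fun _ => t' i) ↔ C s (fun _ => θ (t' i)) := by
        intro i s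
        rcases h1 i with h4 | ⟨u, hu⟩
        · rw [hθ1 _ h4]
          exact hEq s (fun _ => t' i) fun _ => Finset.mem_coe.2 h4
        · rw [hθP _ (Or.inr ⟨u, hu⟩)]
          exact hEq0 s (fun _ => t' i) fun _ => Or.inr ⟨u, hu⟩
      refine dv_congr _ (fun i j => ?_) hty
      refine nm_lt_iff hθmono (h1 i) (h1 j) (fun z hz => ?_) (fun z hz _ s => ?_)
      · rcases hz with rfl | rfl
        · exact hθrg _ (h1 i)
        · exact hθrg _ (h1 j)
      · have hz' : z ∈ ((rg t : Finset ℕ) : Set ℕ) ∪ Set.range m₁ := by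
          rcases hz with rfl | rfl
          · exact ht' i
          · exact ht' j
        constructor
        · intro h5
          rw [← h5, hθm]
        · intro h5
          rw [← hθm] at h5
          exact hθinj (Or.inr ⟨s, rfl⟩) hz' h5
    have hres := hN θ (((rg t : Finset ℕ) : Set ℕ) ∪ Set.range m₁) ((rg t : Finset ℕ) : Set ℕ) m₁ C
      C₁ hθinj (fun s => Or.inr ⟨s, rfl⟩) Set.subset_union_left hθmono hθEq r t
      (fun i => Finset.mem_coe.2 ((mem_rg t _).2 ⟨i, rfl⟩))
    have h3 : (fun s => θ (m₁ s)) = m := by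
      funext s
      exact hθm s
    have h4 : (fun i => θ (t i)) = t := by
      funext i
      exact hθ1 _ ((mem_rg t _).2 ⟨i, rfl⟩)
    have h5 : N m₁ C₁ r t ↔ N (fun s => θ (m₁ s)) C r (fun i => θ (t i)) := hres
    rw [h3, h4] at h5
    exact h5.1 hNv
  · intro hNv
    exact ⟨m, C, h, ht, hmt, hCt, EqS.refl _ _, hNv⟩

end Pool.Agent.Lib.H3U
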