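import Pool.Agent.Lib.H3U.B3a

/-! # B3b: the rule of a natural map at a type over the marked points (b) -/

set_option autoImplicit false

namespace Pool.Agent.Lib.H3U

open Pool.Agent.Lib.H3F

variable {R : Type} {ar : R → Type} [∀ r, Finite (ar r)] {d : ℕ} {κ : Type} [Nb κ] [Dft R ar]

/-- One direction of the naturality of `Val`. -/
theorem Val_map (N : (κ → ℕ) → Str R ar ℕ → Str R ar ℕ) (hN : Ntr N) (m₀ : κ → ℕ)
    (C₀ : Str R ar ℕ) (P₀ : Finset ℕ) (f : ℕ → ℕ) (D S : Finset ℕ) (C C' : Str R ar ℕ)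
    (hf : StrictMonoOn f (D : Set ℕ)) (hS : S ⊆ D) (h : EqS (D : Set ℕ) C' (cm f C)) (r : R)
    (t : ar r → ℕ) (ht : ∀ i, t i ∈ D) (hV : Val N m₀ C₀ P₀ S C' r t) :
    Val N m₀ C₀ P₀ (S.image f) C r (fun i => f (t i)) := by
  classical
  obtain ⟨m, C₁, hI, hSt, hmt, hCon, hEq, hNv⟩ := hV
  have hrD : rg t ⊆ D := (rg_sub t D).2 ht
  -- the injective map
  obtain ⟨B, hB⟩ : ∃ B : ℕ, ∀ x ∈ D, f x < B := by
    refine ⟨(D.image f).sup id + 1, fun x hx => ?_⟩
    have h1 : id (f x) ≤ (D.image f).sup id := Finset.le_sup (Finset.mem_image_of_mem f hx)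
    exact Nat.lt_succ_of_le h1
  obtain ⟨g, hgD, hgN⟩ : ∃ g : ℕ → ℕ, (∀ x ∈ D, g x = f x) ∧ ∀ x, x ∉ D → g x = B + x :=
    ⟨fun x => if x ∈ D then f x else B + x, fun x hx => if_pos hx, fun x hx => if_neg hx⟩
  have hginj : Function.Injective g := by
    intro x y hxy
    by_cases h1 : x ∈ D
    · by_cases h2 : y ∈ D
      · rw [hgD x h1, hgD y h2] at hxy
        exact hf.injOn (Finset.mem_coe.2 h1) (Finset.mem_coe.2 h2) hxy
      · rw [hgD x h1, hgN y h2] at hxy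
        have := hB x h1
        omega
    · by_cases h2 : y ∈ D
      · rw [hgN x h1, hgD y h2] at hxy
        have := hB y h2
        omega
      · rw [hgN x h1, hgN y h2] at hxy
        omega
  have hgimg : ∀ T : Finset ℕ, T ⊆ D → T.image g = T.image f := fun T hT =>
    Finset.image_congr fun x hx => hgD x (hT (Finset.mem_coe.1 hx))
  have hgmono : ∀ T : Finset ℕ, T ⊆ D → StrictMonoOn g (T : Set ℕ) := by
    intro T hT x hx y hy hxy
    rw [hgD x (hT (Finset.mem_coe.1 hx)), hgD y (hT (Finset.mem_coe.1 hy))]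
    exact hf (Finset.mem_coe.2 (hT (Finset.mem_coe.1 hx)))
      (Finset.mem_coe.2 (hT (Finset.mem_coe.1 hy))) hxy
  -- the image structure
  obtain ⟨C₂, hC₂⟩ : ∃ C₂ : Str R ar ℕ, ∀ r (t₁ : ar r → ℕ),
      C₂ r (fun i => g (t₁ i)) ↔ C₁ r t₁ := by
    refine ⟨fun r t' => ∃ t₁ : ar r → ℕ, (∀ i, t' i = g (t₁ i)) ∧ C₁ r t₁, fun r t₁ => ?_⟩
    constructor
    · rintro ⟨t₂, h1, h2⟩
      have h3 : t₂ = t₁ := funext fun i => hginj (h1 i).symm
      rw [← h3]
      exact h2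
    · intro h1
      exact ⟨t₁, fun i => rfl, h1⟩
  have hgt : (fun i => g (t i)) = fun i => f (t i) := funext fun i => hgD _ (ht i)
  have hrg : rg (fun i => f (t i)) = (rg t).image g := by
    rw [rg_comp, hgimg _ hrD]
  have hIso2 : Iso m C₁ S (fun s => g (m s)) C₂ (S.image f) := by
    rw [← hgimg S hS]
    exact Iso_of_map g m C₂ C₁ S (hginj.injOn) (hgmono S hS) (fun r' t' _ => (hC₂ r' t').symm)
  refine ⟨fun s => g (m s), C₂, Iso_trans (Iso_symm hIso2) hI, ?_, ?_, ?_, ?_, ?_⟩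
  · rw [rg_comp]
    exact Finset.image_subset_image hSt
  · intro u hu
    rw [hrg] at hu
    obtain ⟨x, hx, hxu⟩ := Finset.mem_image.1 hu
    have h1 : x = m u := hginj hxu
    rw [h1] at hx
    rw [← hgimg S hS]
    exact Finset.mem_image_of_mem g (hmt u hx)
  · rw [hrg, ← hgimg S hS]
    intro r' t' ht' hn1 hn2
    have hpre : ∀ i, ∃ x, (x ∈ rg t ∨ ∃ s, m s = x) ∧ g x = t' i := by
      intro i
      rcases ht' i with h1 | ⟨s, hs⟩
      · obtain ⟨x, hx, hxi⟩ := Finset.mem_image.1 h1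
        exact ⟨x, Or.inl hx, hxi⟩
      · exact ⟨m s, Or.inr ⟨s, rfl⟩, hs⟩
    choose t₁ ht₁ htt using hpre
    have e1 : t' = fun i => g (t₁ i) := funext fun i => (htt i).symm
    have h2 := hCon r' t₁ ht₁ (fun h3 => hn1 fun i => by
      rw [← htt i]
      exact Finset.mem_image_of_mem g (h3 i)) (fun h3 => hn2 fun i => by
      rcases h3 i with h4 | ⟨s, hs⟩
      · left
        rw [← htt i]
        exact Finset.mem_image_of_mem g h4
      · right
        exact ⟨s, by rw [← htt i, ← hs]⟩)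
    rw [e1, hC₂, h2]
    refine dv_congr _ (fun i j => ?_) (fun i s => (hC₂ s (fun _ => t₁ i)).symm)
    exact nm_lt_iff (hgmono _ hrD) (ht₁ i) (ht₁ j)
      (fun z _ => ⟨fun h5 => Finset.mem_image_of_mem g h5, fun h5 => by
        obtain ⟨y, hy, hyz⟩ := Finset.mem_image.1 h5
        rw [← hginj hyz]
        exact hy⟩)
      (fun z _ _ s => ⟨fun h5 => by rw [h5], fun h5 => hginj h5⟩)
  · intro r' t' ht'
    have hpre : ∀ i, ∃ x, x ∈ rg t ∧ g x = t' i := by
      intro i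
      have h1 := Finset.mem_coe.1 (ht' i)
      rw [hrg] at h1
      obtain ⟨x, hx, hxi⟩ := Finset.mem_image.1 h1
      exact ⟨x, hx, hxi⟩
    choose t₁ ht₁ htt using hpre
    have e1 : t' = fun i => g (t₁ i) := funext fun i => (htt i).symm
    have e2 : (fun i => g (t₁ i)) = fun i => f (t₁ i) := funext fun i => hgD _ (hrD (ht₁ i))
    rw [e1, hC₂, hEq r' t₁ (fun i => Finset.mem_coe.2 (ht₁ i)), e2]
    exact h r' t₁ (fun i => Finset.mem_coe.2 (hrD (ht₁ i)))
  · have h1 := hN g Set.univ ((rg t : Finset ℕ) : Set ℕ) m C₂ C₁ hginj.injOn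
      (fun s => Set.mem_univ _) (Set.subset_univ _) (hgmono _ hrD)
      (fun r' t' _ => (hC₂ r' t').symm) r t
      (fun i => Finset.mem_coe.2 ((mem_rg t _).2 ⟨i, rfl⟩))
    have h2 : N m C₁ r t ↔ N (fun s => g (m s)) C₂ r (fun i => g (t i)) := h1
    rw [hgt] at h2
    exact h2.1 hNv

end Pool.Agent.Lib.H3U
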