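import Pool.Agent.Lib.H3F.B4a
import Pool.Agent.Lib.H3F.K1
import Pool.Agent.Lib.H3U.B2

/-! # B4: gluing uniformly to the marked points -/

set_option autoImplicit false

namespace Pool.Agent.Lib.H3U

open Pool.Agent.Lib.H3F

variable {R : Type} {ar : R → Type} {κ : Type} [Nb κ] {V : Type} {M : Str R ar V} [Dft R ar]

theorem ag_her {ι ι' : Type} (e : ι' → ι) (he : Function.Injective e) (A : Str R ar ι)
    (h : Ag M ι A) : Ag M ι' (cm e A) := by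
  obtain ⟨a, ha, h1⟩ := h
  refine ⟨fun x => a (e x), ha.comp he, ?_⟩
  rw [← h1]
  rfl

/-- Uniform amalgamation for structures on finite sets of natural numbers. -/
theorem K_glue [Nonempty V] (hM : HU M) (X Y : Finset ℕ) (p : ℕ → ℕ)
    (hp : Set.InjOn p ((X ∪ Y : Finset ℕ) : Set ℕ)) (C : Str R ar ℕ)
    (h : ∀ r (t : ar r → ℕ), (∀ i, t i ∈ X ∪ Y) → (¬ ∀ i, t i ∈ X) → (¬ ∀ i, t i ∈ Y) →
      (C r t ↔ dv Dft.δ C p r t))
    (hX : K M X C) (hY : K M Y C) : K M (X ∪ Y) C := by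
  rw [K_iff_Ag] at hX hY ⊢
  refine hM.ua {x : ℕ // x ∈ X ∪ Y} (fun u => p u.1) (cm Subtype.val C) {u | u.1 ∈ X}
    {u | u.1 ∈ Y} ?_ ?_ ?_ ?_ ?_
  · intro u v huv
    exact Subtype.ext (hp (Finset.mem_coe.2 u.2) (Finset.mem_coe.2 v.2) huv)
  · intro u
    exact Finset.mem_union.1 u.2
  · rintro r t ⟨i, hi⟩ ⟨j, hj⟩
    exact h r (fun i => (t i).1) (fun i => (t i).2) (fun h1 => hi (h1 i)) (fun h1 => hj (h1 j))
  · refine ag_her (fun u : ({u : {x : ℕ // x ∈ X ∪ Y} | u.1 ∈ X} : Set _) =>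
      (⟨u.1.1, u.2⟩ : {x : ℕ // x ∈ X})) ?_ (cm Subtype.val C) hX
    intro u v huv
    have h1 : u.1.1 = v.1.1 := congrArg (fun z : {x : ℕ // x ∈ X} => z.1) huv
    exact Subtype.ext (Subtype.ext h1)
  · refine ag_her (fun u : ({u : {x : ℕ // x ∈ X ∪ Y} | u.1 ∈ Y} : Set _) =>
      (⟨u.1.1, u.2⟩ : {x : ℕ // x ∈ Y})) ?_ (cm Subtype.val C) hY
    intro u v huv
    have h1 : u.1.1 = v.1.1 := congrArg (fun z : {x : ℕ // x ∈ Y} => z.1) huv
    exact Subtype.ext (Subtype.ext h1)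

/-- **Gluing a structure uniformly to the marked points.**  (From the proof for free amalgams.) -/
theorem glue_exists [Nonempty V] (hM : HU M) (A : Str R ar κ) (D₀ : Finset ℕ) (m₀ : κ → ℕ)
    (C₀ : Str R ar ℕ) (P₀ : Finset ℕ) (hA : Adm M A D₀ m₀ C₀) (hP₀ : P₀ ⊆ D₀) (D : Finset ℕ)
    (C : Str R ar ℕ) (P : Finset ℕ) (hK : K M D C) (hP : P ⊆ D) (hI : IsoS C P C₀ P₀) :
    ∃ (m : κ → ℕ) (C₁ : Str R ar ℕ) (D₁ : Finset ℕ), Adm M A D₁ m C₁ ∧ D ⊆ D₁ ∧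
      EqS (D : Set ℕ) C₁ C ∧ Iso m C₁ P m₀ C₀ P₀ ∧ (∀ u, m u ∈ D → m u ∈ P) ∧ Con D P m C₁ := by
  classical
  obtain ⟨θ, hθ, hθP, hθC⟩ := hI
  obtain ⟨T₀, hT₀⟩ : ∃ T₀ : Finset ℕ, ∀ x, x ∈ T₀ ↔ x ∈ D₀ ∧ (x ∈ P₀ ∨ ∃ s, m₀ s = x) :=
    ⟨D₀.filter (fun x => x ∈ P₀ ∨ ∃ s, m₀ s = x), fun x => Finset.mem_filter⟩
  have hT₀D : T₀ ⊆ D₀ := fun x hx => ((hT₀ x).1 hx).1
  have hPT : ∀ x ∈ P₀, x ∈ T₀ := fun x hx => (hT₀ x).2 ⟨hP₀ hx, Or.inl hx⟩
  have hmT : ∀ s, m₀ s ∈ T₀ := fun s => (hT₀ _).2 ⟨hA.mem s, Or.inr ⟨s, rfl⟩⟩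
  obtain ⟨B, hB⟩ : ∃ B : ℕ, ∀ x ∈ D, x < B :=
    ⟨D.sup id + 1, fun x hx => Nat.lt_succ_of_le (Finset.le_sup (f := id) hx)⟩
  have hex : ∀ x, ∃ y, (x ∈ P₀ → y ∈ P ∧ θ y = x) ∧ (x ∉ P₀ → y = B + x) := by
    intro x
    by_cases hx : x ∈ P₀
    · have h1 : x ∈ P.image θ := by
        rw [hθP]
        exact hx
      obtain ⟨y, hy, hyx⟩ := Finset.mem_image.1 h1
      exact ⟨y, fun _ => ⟨hy, hyx⟩, fun h => absurd hx h⟩
    · exact ⟨B + x, fun h => absurd h hx, fun _ => rfl⟩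
  choose q hq1 hq2 using hex
  have hqD : ∀ x, q x ∈ D → x ∈ P₀ := by
    intro x hx
    by_contra h
    have h1 := hB _ hx
    rw [hq2 x h] at h1
    exact absurd h1 (Nat.not_lt.2 (Nat.le_add_right B x))
  have hqinj : Function.Injective q := by
    intro x y hxy
    by_cases hx : x ∈ P₀
    · have hy : y ∈ P₀ := by
        apply hqD
        rw [← hxy]
        exact hP (hq1 x hx).1
      rw [← (hq1 x hx).2, ← (hq1 y hy).2, hxy]
    · have hy : y ∉ P₀ := by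
        intro hy
        apply hx
        apply hqD
        rw [hxy]
        exact hP (hq1 y hy).1
      have h1 : B + x = B + y := by
        rw [← hq2 x hx, ← hq2 y hy, hxy]
      exact Nat.add_left_cancel h1
  have hkey : ∀ (r : R) (t₀ : ar r → ℕ), (∀ i, t₀ i ∈ P₀) →
      (C r (fun i => q (t₀ i)) ↔ C₀ r t₀) := by
    intro r t₀ ht₀
    have h1 := hθC r (fun i => q (t₀ i)) (fun i => Finset.mem_coe.2 (hq1 _ (ht₀ i)).1)
    have h2 : (fun i => θ (q (t₀ i))) = t₀ := by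
      funext i
      exact (hq1 _ (ht₀ i)).2
    have h3 : C r (fun i => q (t₀ i)) ↔ C₀ r (fun i => θ (q (t₀ i))) := h1
    rw [h2] at h3
    exact h3
  obtain ⟨Cf, hCf⟩ : ∃ Cf : Str R ar ℕ, ∀ r (t : ar r → ℕ), Cf r t ↔
      (((∀ i, t i ∈ D) ∧ C r t) ∨
        ∃ t₀ : ar r → ℕ, (∀ i, t₀ i ∈ T₀) ∧ (∀ i, t i = q (t₀ i)) ∧ C₀ r t₀) :=
    ⟨fun r t => ((∀ i, t i ∈ D) ∧ C r t) ∨
        ∃ t₀ : ar r → ℕ, (∀ i, t₀ i ∈ T₀) ∧ (∀ i, t i = q (t₀ i)) ∧ C₀ r t₀,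
      fun r t => Iff.rfl⟩
  have F1 : EqS (D : Set ℕ) Cf C := by
    intro r t ht
    rw [hCf]
    constructor
    · rintro (⟨-, h⟩ | ⟨t₀, -, hq, h⟩)
      · exact h
      · have h1 : ∀ i, t₀ i ∈ P₀ := by
          intro i
          apply hqD
          rw [← hq i]
          exact Finset.mem_coe.1 (ht i)
        have h2 : t = fun i => q (t₀ i) := by
          funext i
          exact hq i
        rw [h2]
        exact (hkey r t₀ h1).2 h
    · intro h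
      exact Or.inl ⟨fun i => Finset.mem_coe.1 (ht i), h⟩
  have F2 : EqS (T₀ : Set ℕ) (cm q Cf) C₀ := by
    intro r t₀ ht₀
    show Cf r (fun i => q (t₀ i)) ↔ C₀ r t₀
    rw [hCf]
    constructor
    · rintro (⟨h1, h⟩ | ⟨t₁, -, hq, h⟩)
      · exact (hkey r t₀ (fun i => hqD _ (h1 i))).1 h
      · have h2 : t₀ = t₁ := by
          funext i
          exact hqinj (hq i)
        rw [h2]
        exact h
    · intro h
      exact Or.inr ⟨t₀, fun i => Finset.mem_coe.1 (ht₀ i), fun i => rfl, h⟩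
  obtain ⟨C₁, hpos, hneg⟩ : ∃ C₁ : Str R ar ℕ,
      (∀ r (t : ar r → ℕ), ((∀ i, t i ∈ D) ∨ ∀ i, t i ∈ T₀.image q) → (C₁ r t ↔ Cf r t)) ∧
      ∀ r (t : ar r → ℕ), ¬ ((∀ i, t i ∈ D) ∨ ∀ i, t i ∈ T₀.image q) →
        (C₁ r t ↔ dv Dft.δ Cf (nm D fun s => q (m₀ s)) r t) := by
    refine ⟨fun r t => if (∀ i, t i ∈ D) ∨ ∀ i, t i ∈ T₀.image q then Cf r t
      else dv Dft.δ Cf (nm D fun s => q (m₀ s)) r t, fun r t h => ?_, fun r t h => ?_⟩
    · show (if _ then _ else _) ↔ _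
      rw [if_pos h]
    · show (if _ then _ else _) ↔ _
      rw [if_neg h]
  have hty : ∀ x, (x ∈ D ∨ x ∈ T₀.image q) → ∀ s, Cf s (fun _ => x) ↔ C₁ s (fun _ => x) := by
    intro x hx s
    refine (hpos s (fun _ => x) ?_).symm
    rcases hx with hx | hx
    · exact Or.inl fun _ => hx
    · exact Or.inr fun _ => hx
  have hneg' : ∀ r (t : ar r → ℕ), (∀ i, t i ∈ D ∨ t i ∈ T₀.image q) →
      ¬ ((∀ i, t i ∈ D) ∨ ∀ i, t i ∈ T₀.image q) →
        (C₁ r t ↔ dv Dft.δ C₁ (nm D fun s => q (m₀ s)) r t) := by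
    intro r t ht h
    rw [hneg r t h]
    exact dv_congr _ (fun i j => Iff.rfl) (fun i s => hty (t i) (ht i) s)
  have E1 : EqS (D : Set ℕ) C₁ C := fun r t ht =>
    (hpos r t (Or.inl fun i => Finset.mem_coe.1 (ht i))).trans (F1 r t ht)
  have E2 : EqS (T₀ : Set ℕ) (cm q C₁) C₀ := fun r t ht =>
    (hpos r (fun i => q (t i)) (Or.inr fun i =>
      Finset.mem_image_of_mem q (Finset.mem_coe.1 (ht i)))).trans (F2 r t ht)
  have hTm : ∀ x, x ∈ T₀.image q → x ∈ P ∨ ∃ s, q (m₀ s) = x := by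
    intro x hx
    obtain ⟨y, hy, rfl⟩ := Finset.mem_image.1 hx
    rcases ((hT₀ y).1 hy).2 with h3 | ⟨s, hs⟩
    · exact Or.inl (hq1 _ h3).1
    · exact Or.inr ⟨s, by rw [hs]⟩
  have hPq : P₀.image q = P := by
    ext p
    rw [Finset.mem_image]
    constructor
    · rintro ⟨x, hx, rfl⟩
      exact (hq1 x hx).1
    · intro hp
      have h1 : θ p ∈ P₀ := by
        rw [← hθP]
        exact Finset.mem_image_of_mem θ hp
      refine ⟨θ p, h1, ?_⟩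
      have h2 := hq1 _ h1
      exact hθ.injOn (Finset.mem_coe.2 h2.1) (Finset.mem_coe.2 hp) h2.2
  refine ⟨fun s => q (m₀ s), C₁, D ∪ T₀.image q, ⟨?_, ?_, ?_, ?_⟩, Finset.subset_union_left, E1,
    ?_, ?_, ?_⟩
  · intro s s' h
    exact hA.inj (hqinj h)
  · intro s
    exact Finset.mem_union_right _ (Finset.mem_image_of_mem q (hmT s))
  · rw [← hA.str]
    funext r t
    apply propext
    exact E2 r (fun i => m₀ (t i)) (fun i => Finset.mem_coe.2 (hmT (t i)))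
  · refine K_glue hM D (T₀.image q) (nm D fun s => q (m₀ s)) ?_ C₁ ?_ (K_congr E1.symm hK)
      (K_cm_conv q hqinj.injOn (K_congr E2.symm (K_mono hT₀D hA.inK)))
    · refine (nm_inj D fun s => q (m₀ s)).mono ?_
      intro x hx
      rcases Finset.mem_union.1 (Finset.mem_coe.1 hx) with h1 | h1
      · exact Or.inl (Finset.mem_coe.2 h1)
      · rcases hTm x h1 with h2 | ⟨s, hs⟩
        · exact Or.inl (Finset.mem_coe.2 (hP h2))
        · exact Or.inr ⟨s, hs⟩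
    · intro r t ht hn1 hn2
      exact hneg' r t (fun i => Finset.mem_union.1 (ht i)) (fun h => h.elim hn1 hn2)
  · have h1 : StrictMonoOn q (P₀ : Set ℕ) := by
      intro x hx y hy hxy
      have h2 := hq1 x (Finset.mem_coe.1 hx)
      have h3 := hq1 y (Finset.mem_coe.1 hy)
      have h4 := hθ.lt_iff_lt (Finset.mem_coe.2 h2.1) (Finset.mem_coe.2 h3.1)
      rw [h2.2, h3.2] at h4
      exact h4.1 hxy
    have h2 : EqS ((P₀ : Set ℕ) ∪ Set.range m₀) C₀ (cm q C₁) := by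
      refine E2.symm.mono ?_
      rintro x (hx | ⟨s, rfl⟩)
      · exact Finset.mem_coe.2 (hPT x (Finset.mem_coe.1 hx))
      · exact Finset.mem_coe.2 (hmT s)
    have h3 := Iso_of_map q m₀ C₁ C₀ P₀ hqinj.injOn h1 h2
    rw [hPq] at h3
    exact Iso_symm h3
  · intro u hu
    exact (hq1 _ (hqD _ hu)).1
  · intro r t ht hn1 hn2
    have hcase : ∀ i, t i ∈ D ∨ t i ∈ T₀.image q := by
      intro i
      rcases ht i with h1 | ⟨s, hs⟩
      · exact Or.inl h1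
      · refine Or.inr ?_
        rw [← hs]
        exact Finset.mem_image_of_mem q (hmT s)
    refine hneg' r t hcase (fun h => h.elim hn1 fun h1 => hn2 fun i => ?_)
    exact hTm _ (h1 i)

end Pool.Agent.Lib.H3U
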