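import Pool.Agent.Lib.H3F.E1z
import Pool.Agent.Lib.H3F.E1a
import Pool.Agent.Lib.H3F.E1b
import Pool.Agent.Lib.H3U.K1c

/-! # E1: a minimal idempotent operation (c) -/

set_option autoImplicit false

namespace Pool.Agent.Lib.H3U

open Pool.Agent.Lib.H3F

open Equiv (Perm)

variable {R : Type} {ar : R → Type} [∀ r, Finite (ar r)] {d : ℕ} {V : Type} {M : Str R ar V}
  {G : Subgroup (Perm V)} {e : LoD R ar d}
variable [Dft R ar]

/-- **A minimal idempotent has the property `Star`.**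

Proof. Let `φ` be as in `Star`.  `lo_comp` gives `ψ` with `lo ψ C S = lo φ (lo e C S) S`.  `lo_idem` for `ψ` gives `m ≥ 1` and
`lo_iter` gives `χ` with `lo χ C S = F^[m] C`, `F B = lo ψ B S` (for `S = ∅`).  (a) For `K M D C`: `Rel M G D C (lo ψ C ∅)` and
`Ke M e D (lo ψ C ∅)`, since `lo e C ∅` is in `Ke` (`Ke_op`), `he`, and `φ` (`Rel_trans`).  By induction the same for all powers
`F^[n]`, `n ≥ 1`; so `IsOp M G χ`, and `χ` maps `K` into `Ke`.  (b) `Idm M χ` from `F^[m + m] = F^[m]`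
(`Function.iterate_add_apply`).  (c) `FS M χ ⊆ FS M e`: if `lo χ C ∅ = C` on `D` then `C` is in `Ke` by (a) and `Ke_congr`.  So
`FS M e ⊆ FS M χ` by `hmin`, hence `lo χ C ∅ = C` on `D` for all `C` in `Ke` (`fix_of_FS`).  (d) If `C`, `C'` are in `Ke` on `D` with
`lo φ C ∅ = lo φ C' ∅` on `D`: `lo ψ C ∅ = lo φ C ∅` on `D` as `lo e C ∅ = C` on `D` (`lo_congr`), the same for `C'`; with
`m = n + 1`, `F^[m] C = F^[n] (lo ψ C ∅)` (`Function.iterate_succ_apply`), so `lo χ C ∅ = lo χ C' ∅` on `D` (`lo_congr` iterated),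
i.e. `C = C'` on `D`. -/
theorem star_of_min [Finite R] (hd : ∀ r, Nat.card (ar r) ≤ d) (hM : HU M) (hG : Au M ≤ G)
    (he : IsOp M G e) (hi : Idm M e)
    (hmin : ∀ e' : LoD R ar d, IsOp M G e' → Idm M e' → FS M e' ⊆ FS M e → FS M e ⊆ FS M e') :
    Star M G e := by
  intro φ hφ D C C' hC hC' hE
  obtain ⟨ψ, hψ⟩ := lo_comp hd φ e
  obtain ⟨m, hm, hidem⟩ := lo_idem hd ψ
  obtain ⟨χ, hχ⟩ := lo_iter hd ψ m
  obtain ⟨n, rfl⟩ : ∃ n, m = n + 1 := ⟨m - 1, by omega⟩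
  have h1 : ∀ (D : Finset ℕ) (C : Str R ar ℕ), K M D C →
      Rel M G D C (lo ψ C ∅) ∧ Ke M e D (lo ψ C ∅) := by
    intro D C h
    have h2 := hφ D (lo e C ∅) (Ke_op he hi h)
    rw [hψ]
    exact ⟨Rel_trans hM hG (he D C h) h2.1, h2.2⟩
  have h3 : ∀ (n : ℕ) (D : Finset ℕ) (C : Str R ar ℕ), K M D C →
      Rel M G D C ((fun B => lo ψ B ∅)^[n + 1] C) ∧
        Ke M e D ((fun B => lo ψ B ∅)^[n + 1] C) := by
    intro n
    induction n with
    | zero => exact h1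
    | succ n ih =>
      intro D C h
      obtain ⟨h4, h5⟩ := ih D C h
      rw [Function.iterate_succ_apply' _ (n + 1)]
      have h6 := h1 D _ h5.1
      exact ⟨Rel_trans hM hG h4 h6.1, h6.2⟩
  have h4 : ∀ (D : Finset ℕ) (C : Str R ar ℕ), K M D C →
      Rel M G D C (lo χ C ∅) ∧ Ke M e D (lo χ C ∅) := by
    intro D C h
    rw [hχ]
    exact h3 n D C h
  have h5 : Idm M χ := by
    intro D C _ r t _
    rw [hχ (lo χ C ∅) ∅, hχ C ∅, ← Function.iterate_add_apply, hidem]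
  have h6 : FS M χ ⊆ FS M e := by
    intro p hp
    exact Ke_congr hp.2 (h4 _ _ hp.1).2
  have h7 := hmin χ (fun D C h => (h4 D C h).1) h5 h6
  have h8 : ∀ (C : Str R ar ℕ), Ke M e D C → EqS (D : Set ℕ) (lo χ C ∅) C := fun C hC =>
    fix_of_FS hd χ (fun p hp => (h7 hp).2) D C hC
  have h9 : ∀ (C : Str R ar ℕ), Ke M e D C → EqS (D : Set ℕ) (lo ψ C ∅) (lo φ C ∅) := by
    intro C hC
    rw [hψ]
    exact lo_congr φ D ∅ _ _ hC.2
  have h10 : EqS (D : Set ℕ) (lo ψ C ∅) (lo ψ C' ∅) :=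
    ((h9 C hC).trans hE).trans (h9 C' hC').symm
  have h11 : ∀ (n : ℕ) (B B' : Str R ar ℕ), EqS (D : Set ℕ) B B' →
      EqS (D : Set ℕ) ((fun B => lo ψ B ∅)^[n] B) ((fun B => lo ψ B ∅)^[n] B') := by
    intro n
    induction n with
    | zero => exact fun B B' h => h
    | succ n ih =>
      intro B B' h
      rw [Function.iterate_succ_apply', Function.iterate_succ_apply']
      exact lo_congr ψ D ∅ _ _ (ih B B' h)
  have h12 : EqS (D : Set ℕ) (lo χ C ∅) (lo χ C' ∅) := by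
    rw [hχ, hχ, Function.iterate_succ_apply, Function.iterate_succ_apply]
    exact h11 n _ _ h10
  exact ((h8 C hC).symm.trans h12).trans (h8 C' hC')

end Pool.Agent.Lib.H3U
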