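import Pool.Agent.Lib.H3F.K2
import Pool.Agent.Lib.H3F.N3
import Pool.Agent.Lib.H3F.N5
import Pool.Agent.Lib.H3F.E2a
import Pool.Agent.Lib.H3F.E2b
import Pool.Agent.Lib.H3F.E2c
import Pool.Agent.Lib.H3F.E2d
import Pool.Agent.Lib.H3U.E2d

/-! # E2: local operations are invertible (e) -/

set_option autoImplicit false

namespace Pool.Agent.Lib.H3U

open Pool.Agent.Lib.H3F

open Equiv (Perm)

variable {R : Type} {ar : R → Type} [∀ r, Finite (ar r)] {d : ℕ} {V : Type} {M : Str R ar V}
  {G : Subgroup (Perm V)} {e : LoD R ar d}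
variable [Dft R ar]

/-- **Local operations are invertible.**

Proof. `lo_period` gives `a`, `b ≥ 1` with `F^[a + b] C = F^[a] C`, `F B = lo lam B S`.  For `C` in `Ke` on `D`, `S ⊆ D`,
`S.card = j`: all `F^[n] C` are in `Ke` on `D` with `Rel M G D C (F^[n] C)` (induction, `Rel_trans`).  By `lo_injOn`, used `a` times,
`F^[b] C = C` on `D` (`F^[a] (F^[b] C) = F^[a] C` on `D`; induction on `a` with `Function.iterate_succ_apply'`).  Let `mu` be the
rule with `lo mu C S = F^[b - 1] C` (`lo_iter`).  Then `IsLo M G e j mu`, and `lo mu (lo lam C S) S = F^[b] C = C` on `D`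
(`Function.iterate_succ_apply`). -/
theorem lo_inv [Finite R] (hd : ∀ r, Nat.card (ar r) ≤ d) (hM : HU M) (hG : Au M ≤ G)
    (hst : Star M G e) (j : ℕ) (lam : LoD R ar d) (hl : IsLo M G e j lam) :
    ∃ mu : LoD R ar d, IsLo M G e j mu ∧ ∀ (D : Finset ℕ) (C : Str R ar ℕ) (S : Finset ℕ),
      Ke M e D C → S ⊆ D → S.card = j → EqS (D : Set ℕ) (lo mu (lo lam C S) S) C := by
  obtain ⟨a, b, hb, hp⟩ := lo_period hd lam
  obtain ⟨mu, hmu⟩ := lo_iter hd lam (b - 1)
  have key : ∀ (D : Finset ℕ) (C : Str R ar ℕ) (S : Finset ℕ), Ke M e D C → S ⊆ D → S.card = j →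
      ∀ n : ℕ, Rel M G D C ((fun B => lo lam B S)^[n] C) ∧
        Ke M e D ((fun B => lo lam B S)^[n] C) := by
    intro D C S hC hS hj n
    induction n with
    | zero => exact ⟨Rel_refl hC.1, hC⟩
    | succ n ih =>
      rw [Function.iterate_succ_apply']
      obtain ⟨h1, h2⟩ := hl D _ S ih.2 hS hj
      exact ⟨Rel_trans hM hG ih.1 h1, h2⟩
  have inj : ∀ (D : Finset ℕ) (S : Finset ℕ), S ⊆ D → S.card = j → ∀ (n : ℕ)
      (C C' : Str R ar ℕ), Ke M e D C → Ke M e D C' →
      EqS (D : Set ℕ) ((fun B => lo lam B S)^[n] C) ((fun B => lo lam B S)^[n] C') →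
      EqS (D : Set ℕ) C C' := by
    intro D S hS hj n
    induction n with
    | zero =>
      intro C C' _ _ h
      exact h
    | succ n ih =>
      intro C C' hC hC' h
      rw [Function.iterate_succ_apply', Function.iterate_succ_apply'] at h
      exact ih C C' hC hC' (lo_injOn hd hM hG hst j lam hl D _ _ S (key D C S hC hS hj n).2
        (key D C' S hC' hS hj n).2 hS hj h)
  refine ⟨mu, fun D C S hC hS hj => ?_, fun D C S hC hS hj => ?_⟩
  · rw [hmu]
    exact key D C S hC hS hj (b - 1)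
  · rw [hmu]
    have h1 : (fun B => lo lam B S)^[b - 1] (lo lam C S) = (fun B => lo lam B S)^[b] C := by
      have h2 : b = (b - 1) + 1 := by omega
      conv_rhs => rw [h2, Function.iterate_succ_apply]
    rw [h1]
    refine inj D S hS hj a _ _ (key D C S hC hS hj b).2 hC ?_
    rw [← Function.iterate_add_apply, hp]
    exact EqS.refl _ _

end Pool.Agent.Lib.H3U
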