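import Pool.Agent.Lib.H3F.B3
import Pool.Agent.Lib.H3F.B4
import Pool.Agent.Lib.H3F.K2
import Pool.Agent.Lib.H3F.E2
import Pool.Agent.Lib.H3U.B3d

/-! # B5: the undoing rules (a) -/

set_option autoImplicit false

namespace Pool.Agent.Lib.H3U

open Pool.Agent.Lib.H3F

open Equiv (Perm)

variable {R : Type} {ar : R → Type} [∀ r, Finite (ar r)] {d : ℕ} {κ : Type} [Nb κ] {V : Type}
  {M : Str R ar V} {G : Subgroup (Perm V)} {A : Str R ar κ} {e : LoD R ar d}
  {N : (κ → ℕ) → Str R ar ℕ → Str R ar ℕ} {s h : ℕ}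
variable [Dft R ar]

/-- **`N` acts on `E` as a local operation at `P`.**

Proof. Let `t` be a tuple in `E` and `U = rg t ⊆ E`.  If `P ⊆ U`: hypothesis `hl`.  If not `P ⊆ U`: `lo lam C P r t ↔ C r t`
(`lo_of_not`), and `N m C r t ↔ C r t` by `hg` (`Gd`) for `E := U`: if `mk m U < s` take `P := U` (`Con_self`); otherwise
`mk m U = s` (as `mk m U ≤ mk m E = mk m P = s`: all marks of `E` are in `P`; `mk_mono`), so all marked points of `E` are in `U`
(`mk_eq`); take `P := P ∩ U` (`Con_sub`), which has less than `P.card = s + h` elements. -/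
theorem N_eq_lo (hg : Gd M A e s h N) (lam : LoD R ar d) (D E P : Finset ℕ) (m : κ → ℕ)
    (C : Str R ar ℕ) (hA : Adm M A D m C) (hP : P ⊆ E) (hE : E ⊆ D)
    (hm : ∀ u, m u ∈ E → m u ∈ P) (hC : Con E P m C) (hK : Ke M e E C) (hs : mk m P = s)
    (hc : P.card = s + h)
    (hl : ∀ r (t : ar r → ℕ), P ⊆ rg t → (∀ i, t i ∈ E) → (lo lam C P r t ↔ N m C r t)) :
    EqS (E : Set ℕ) (N m C) (lo lam C P) := by
  intro r t ht
  have htE : ∀ i, t i ∈ E := fun i => Finset.mem_coe.1 (ht i)
  by_cases hPU : P ⊆ rg t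
  · exact (hl r t hPU htE).symm
  · have hUE : rg t ⊆ E := by
      intro x hx
      obtain ⟨i, hi⟩ := (mem_rg t x).1 hx
      rw [← hi]
      exact htE i
    have htU : ∀ i, t i ∈ ((rg t : Finset ℕ) : Set ℕ) := fun i =>
      Finset.mem_coe.2 ((mem_rg t (t i)).2 ⟨i, rfl⟩)
    have h1 : N m C r t ↔ C r t := by
      rcases Nat.lt_or_ge (mk m (rg t)) s with hlt | hge
      · exact hg D (rg t) (rg t) m C hA (Finset.Subset.refl _) (hUE.trans hE) (fun u hu => hu)
          (Con_self (rg t) m C) (Ke_mono hUE hK) (Or.inl hlt) r t htU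
      · have h2 : mk m E ≤ mk m P := by
          classical
          unfold mk
          refine Finset.card_le_card ?_
          intro x hx
          obtain ⟨hxE, u, hu⟩ := Finset.mem_filter.1 hx
          refine Finset.mem_filter.2 ⟨?_, u, hu⟩
          rw [← hu]
          apply hm
          rw [hu]
          exact hxE
        have h3 : mk m (rg t) ≤ mk m E := mk_mono m hUE
        have h4 : mk m (rg t) = s := by omega
        have h5 : mk m E ≤ mk m (rg t) := by omega
        have h6 : ∀ u, m u ∈ E → m u ∈ rg t := fun u hu => mk_eq m hUE h5 u hu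
        have h7 : (P ∩ rg t).card < s + h := by
          rw [← hc]
          refine Finset.card_lt_card ⟨Finset.inter_subset_left, fun hsub => hPU ?_⟩
          exact hsub.trans Finset.inter_subset_right
        exact hg D (rg t) (P ∩ rg t) m C hA Finset.inter_subset_right (hUE.trans hE)
          (fun u hu => Finset.mem_inter.2 ⟨hm u (hUE hu), hu⟩) (Con_sub hC hUE h6)
          (Ke_mono hUE hK) (Or.inr ⟨h4, h7⟩) r t htU
    exact h1.trans (lo_of_not lam C P r t hPU).symm

end Pool.Agent.Lib.H3U
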