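import Pool.Agent.Lib.H3F.B3
import Pool.Agent.Lib.H3F.B4
import Pool.Agent.Lib.H3F.K2
import Pool.Agent.Lib.H3F.E2
import Pool.Agent.Lib.H3F.B5a
import Pool.Agent.Lib.H3U.B5a

/-! # B5: the undoing rules (b) -/

set_option autoImplicit false

namespace Pool.Agent.Lib.H3U

open Pool.Agent.Lib.H3F

open Equiv (Perm)

variable {R : Type} {ar : R → Type} [∀ r, Finite (ar r)] {d : ℕ} {κ : Type} [Nb κ] {V : Type}
  {M : Str R ar V} {G : Subgroup (Perm V)} {A : Str R ar κ} {e : LoD R ar d}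
  {N : (κ → ℕ) → Str R ar ℕ → Str R ar ℕ} {s h : ℕ}
variable [Dft R ar]

/-- **The rule is a local operation of `G`.**

Proof. `lam` of `lam_exists` for the template.  Second claim: `N_eq_lo` with the first property of `lam`; `mk m P = s` and
`P.card = s + h` by `Iso_mk`, `Iso_card`.  First claim: let `Ke M e D C`, `S ⊆ D`, `S.card = s + h`.  If not `IsoS C S C₀ P₀` then
`lo lam C S = C` and `Rel_refl`.  Otherwise `glue_exists` gives `m`, `C₁`, `D₁`; the second claim for `E = D`, `P = S` (`Ke_congr`)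
gives `N m C₁ = lo lam C₁ S` on `D`, and `lo lam C₁ S = lo lam C S` on `D` (`lo_congr`).  `hi.rel` gives
`Rel M G D₁ C₁ (N m C₁)` and `Ke M e D₁ (N m C₁)`; restrict to `D` (`Rel_mono`, `Ke_mono`) and use `Rel_congr`, `Ke_congr`. -/
theorem tpl [Nonempty V] (hd : ∀ r, Nat.card (ar r) ≤ d) (hM : HU M) (hi : Inv M G A e N)
    (hg : Gd M A e s h N) (D₀ : Finset ℕ) (m₀ : κ → ℕ) (C₀ : Str R ar ℕ) (P₀ : Finset ℕ)
    (hA : Adm M A D₀ m₀ C₀) (hP₀ : P₀ ⊆ D₀) (hs : mk m₀ P₀ = s) (hc : P₀.card = s + h) :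
    ∃ lam : LoD R ar d, IsLo M G e (s + h) lam ∧
      ∀ (D E P : Finset ℕ) (m : κ → ℕ) (C : Str R ar ℕ), Adm M A D m C → P ⊆ E → E ⊆ D →
        Iso m C P m₀ C₀ P₀ → (∀ u, m u ∈ E → m u ∈ P) → Con E P m C → Ke M e E C →
          EqS (E : Set ℕ) (N m C) (lo lam C P) := by
  obtain ⟨lam, h1, h2⟩ := lam_exists hd N hi.ntr m₀ C₀ P₀
  have key : ∀ (D E P : Finset ℕ) (m : κ → ℕ) (C : Str R ar ℕ), Adm M A D m C → P ⊆ E → E ⊆ D →
      Iso m C P m₀ C₀ P₀ → (∀ u, m u ∈ E → m u ∈ P) → Con E P m C → Ke M e E C →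
        EqS (E : Set ℕ) (N m C) (lo lam C P) := by
    intro D E P m C hAd hP hE hI hm hC hK
    exact N_eq_lo hg lam D E P m C hAd hP hE hm hC hK ((Iso_mk hI).trans hs)
      ((Iso_card hI).trans hc) (fun r t ht htE => h1 m C P E r t hI hP hm hC ht htE)
  refine ⟨lam, ?_, key⟩
  intro D C S hK hS hj
  by_cases hIS : IsoS C S C₀ P₀
  · obtain ⟨m, C₁, D₁, hAd, hDD, hEq, hIso, hmm, hCon⟩ :=
      glue_exists hM A D₀ m₀ C₀ P₀ hA hP₀ D C S hK.1 hS hIS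
    have hK1 : Ke M e D C₁ := Ke_congr hEq.symm hK
    have h3 := key D₁ D S m C₁ hAd hS hDD hIso hmm hCon hK1
    have h4 : EqS (D : Set ℕ) (lo lam C₁ S) (lo lam C S) := lo_congr lam D S C₁ C hEq
    have h5 := h3.trans h4
    obtain ⟨hr, hk⟩ := hi.rel D₁ m C₁ hAd
    exact ⟨Rel_congr hEq h5 (Rel_mono hDD hr), Ke_congr h5 (Ke_mono hDD hk)⟩
  · rw [h2 C S hIS]
    exact ⟨Rel_refl hK.1, hK⟩

end Pool.Agent.Lib.H3U
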