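import Pool.Agent.Lib.H3F.B3
import Pool.Agent.Lib.H3F.B4
import Pool.Agent.Lib.H3F.K2
import Pool.Agent.Lib.H3F.E2
import Pool.Agent.Lib.H3F.B5a
import Pool.Agent.Lib.H3F.B5b
import Pool.Agent.Lib.H3U.B5b

/-! # B5: the undoing rules (c) -/

set_option autoImplicit false

namespace Pool.Agent.Lib.H3U

open Pool.Agent.Lib.H3F

open Equiv (Perm)

variable {R : Type} {ar : R → Type} [∀ r, Finite (ar r)] {d : ℕ} {κ : Type} [Nb κ] {V : Type}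
  {M : Str R ar V} {G : Subgroup (Perm V)} {A : Str R ar κ} {e : LoD R ar d}
  {N : (κ → ℕ) → Str R ar ℕ → Str R ar ℕ} {s h : ℕ}
variable [Dft R ar]

/-- **The undoing rule.**

Proof. `lam` of `tpl`, `mu` of `lo_inv` for `lam`.  For `E`, `P`, `m`, `C` as in `GMu`: `N m C = lo lam C P` on `E`, so
`lo mu (N m C) P = lo mu (lo lam C P) P = C` on `E` (`lo_congr`; `P.card = P₀.card` by `Iso_card`). -/
theorem mu_exists [Finite R] [Nonempty V] (hd : ∀ r, Nat.card (ar r) ≤ d) (hM : HU M)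
    (hG : Au M ≤ G) (hst : Star M G e) (hi : Inv M G A e N)
    (hg : Gd M A e s h N) (D₀ : Finset ℕ) (m₀ : κ → ℕ) (C₀ : Str R ar ℕ) (P₀ : Finset ℕ)
    (hA : Adm M A D₀ m₀ C₀) (hP₀ : P₀ ⊆ D₀) (hs : mk m₀ P₀ = s) (hc : P₀.card = s + h) :
    ∃ mu, GMu M G A e N (s + h) m₀ C₀ P₀ mu := by
  obtain ⟨lam, hl, hkey⟩ := tpl hd hM hi hg D₀ m₀ C₀ P₀ hA hP₀ hs hc
  obtain ⟨mu, hmu, hinv⟩ := lo_inv hd hM hG hst (s + h) lam hl
  refine ⟨mu, hmu, fun D E P m C hAd hP hE hI hm hC hK => ?_⟩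
  have h1 := hkey D E P m C hAd hP hE hI hm hC hK
  have h2 := lo_congr mu E P _ _ h1
  exact h2.trans (hinv E C P hK hP ((Iso_card hI).trans hc))

/-- Proof. `Iso_trans`, `Iso_symm` inside the definition of `GMu`. -/
theorem GMu_iso {j : ℕ} {m m' : κ → ℕ} {C C' : Str R ar ℕ} {P P' : Finset ℕ}
    (h : Iso m C P m' C' P') (mu : LoD R ar d) :
    GMu M G A e N j m C P mu ↔ GMu M G A e N j m' C' P' mu := by
  constructor
  · rintro ⟨h1, h2⟩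
    exact ⟨h1, fun D E Q m₁ C₁ hAd hQ hE hI hm hC hK =>
      h2 D E Q m₁ C₁ hAd hQ hE (Iso_trans hI (Iso_symm h)) hm hC hK⟩
  · rintro ⟨h1, h2⟩
    exact ⟨h1, fun D E Q m₁ C₁ hAd hQ hE hI hm hC hK =>
      h2 D E Q m₁ C₁ hAd hQ hE (Iso_trans hI h) hm hC hK⟩

end Pool.Agent.Lib.H3U
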