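import Pool.Agent.Lib.H3F.B5
import Pool.Agent.Lib.H3F.N5
import Pool.Agent.Lib.H3U.B5d

/-! # B6: the step of the main induction (a) -/

set_option autoImplicit false

namespace Pool.Agent.Lib.H3U

open Pool.Agent.Lib.H3F

open Equiv (Perm)

variable {R : Type} {ar : R → Type} [∀ r, Finite (ar r)] {d : ℕ} {κ : Type} [Nb κ] {V : Type}
  {M : Str R ar V} {G : Subgroup (Perm V)} {A : Str R ar κ} {e : LoD R ar d}
  {N : (κ → ℕ) → Str R ar ℕ → Str R ar ℕ} {s h : ℕ}
variable [Dft R ar]

/-- **The rule at `P` is natural.**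

Proof. `Iso_of_map`, so `mk`, `card` and the predicate `GMu` are the same for both sides (`Iso_mk`, `Iso_card`, `GMu_iso`;
`funext`, `propext` for the predicate under `Classical.epsilon`). -/
theorem Lam_nat (f : ℕ → ℕ) (m : κ → ℕ) (C C' : Str R ar ℕ) (P : Finset ℕ)
    (hf : Set.InjOn f ((P : Set ℕ) ∪ Set.range m)) (hm : StrictMonoOn f (P : Set ℕ))
    (h' : EqS ((P : Set ℕ) ∪ Set.range m) C' (cm f C)) :
    Lam M G A e N s h m C' P = Lam M G A e N s h (fun u => f (m u)) C (P.image f) := by
  have hI : Iso m C' P (fun u => f (m u)) C (P.image f) := Iso_of_map f m C C' P hf hm h'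
  have h1 : mk m P = mk (fun u => f (m u)) (P.image f) := Iso_mk hI
  have h2 : P.card = (P.image f).card := Iso_card hI
  have h3 : GMu M G A e N (s + h) m C' P
      = GMu M G A e N (s + h) (fun u => f (m u)) C (P.image f) :=
    funext fun mu => propext (GMu_iso hI mu)
  unfold Lam
  rw [h1, h2, h3]

/-- Proof. `if_neg`. -/
theorem Lam_of_not (m : κ → ℕ) (C : Str R ar ℕ) (P : Finset ℕ)
    (h' : ¬ (mk m P = s ∧ P.card = s + h)) : Lam M G A e N s h m C P = idLo := by
  unfold Lam
  exact if_neg fun hh => h' ⟨hh.1, hh.2.1⟩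

/-- **Every rule of the list is a local operation of `G`** (at the sets where it is used).

Proof. If the condition of `Lam` fails it is `idLo` (`IsLo_id`); otherwise `Classical.epsilon_spec` and the first component of
`GMu`, `P.card = s + h`. -/
theorem Lam_isLo (hd : ∀ r, Nat.card (ar r) ≤ d) (m : κ → ℕ) (C : Str R ar ℕ) (P : Finset ℕ) :
    IsLo M G e P.card (Lam M G A e N s h m C P) := by
  by_cases hc : (mk m P = s ∧ P.card = s + h ∧ ∃ mu, GMu M G A e N (s + h) m C P mu)
  · have h1 : Lam M G A e N s h m C P = Classical.epsilon (GMu M G A e N (s + h) m C P) := by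
      unfold Lam
      exact if_pos hc
    rw [h1, hc.2.1]
    exact (Classical.epsilon_spec hc.2.2).1
  · have h1 : Lam M G A e N s h m C P = idLo := by
      unfold Lam
      exact if_neg hc
    rw [h1]
    exact IsLo_id hd _

/-- Proof. `mu_exists` for the template `(m, C, P)` and `Classical.epsilon_spec`. -/
theorem Lam_spec [Finite R] [Nonempty V] (hd : ∀ r, Nat.card (ar r) ≤ d) (hM : HU M)
    (hG : Au M ≤ G) (hst : Star M G e) (hi : Inv M G A e N) (hg : Gd M A e s h N) (D : Finset ℕ)
    (m : κ → ℕ) (C : Str R ar ℕ) (P : Finset ℕ) (hA : Adm M A D m C) (hP : P ⊆ D)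
    (hs : mk m P = s) (hc : P.card = s + h) :
    GMu M G A e N (s + h) m C P (Lam M G A e N s h m C P) := by
  have hex := mu_exists hd hM hG hst hi hg D m C P hA hP hs hc
  have h1 : Lam M G A e N s h m C P = Classical.epsilon (GMu M G A e N (s + h) m C P) := by
    unfold Lam
    exact if_pos ⟨hs, hc, hex⟩
  rw [h1]
  exact Classical.epsilon_spec hex

end Pool.Agent.Lib.H3U
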