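import Pool.Agent.Lib.H3F.B5
import Pool.Agent.Lib.H3F.N5
import Pool.Agent.Lib.H3F.B6a
import Pool.Agent.Lib.H3U.B6a

/-! # B6: the step of the main induction (b) -/

set_option autoImplicit false

namespace Pool.Agent.Lib.H3U

open Pool.Agent.Lib.H3F

open Equiv (Perm)

variable {R : Type} {ar : R → Type} [∀ r, Finite (ar r)] {d : ℕ} {κ : Type} [Nb κ] {V : Type}
  {M : Str R ar V} {G : Subgroup (Perm V)} {A : Str R ar κ} {e : LoD R ar d}
  {N : (κ → ℕ) → Str R ar ℕ → Str R ar ℕ} {s h : ℕ}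
variable [Dft R ar]

/-- **The next map is natural.**

Proof. Let `f`, `D`, `U`, `m`, `C`, `C'` be as in `Ntr`, and `t` a tuple in `U`; let `E = rg t`.  `hN` gives
`N m C' = cm f (N (f ∘ m) C)` on `E`; for `P ⊆ E` the rules agree by `Lam_nat` (`P ∪ range m ⊆ D`).  So `fa_nat` on `E` at the
tuple `t`. -/
theorem nxt_ntr (hN : Ntr N) : Ntr (nxt M G A e N s h) := by
  intro f D U m C C' hf hm hU hfU hC r t ht
  have hEU : ((rg t : Finset ℕ) : Set ℕ) ⊆ U := by
    intro x hx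
    obtain ⟨i, rfl⟩ := (mem_rg t x).1 (Finset.mem_coe.1 hx)
    exact ht i
  have h1 : EqS ((rg t : Finset ℕ) : Set ℕ) (N m C') (cm f (N (fun s => f (m s)) C)) :=
    (hN f D U m C C' hf hm hU hfU hC).mono hEU
  have h2 : ∀ P ⊆ rg t, Lam M G A e N s h m C' P
      = Lam M G A e N s h (fun u => f (m u)) C (P.image f) := by
    intro P hP
    have hPU : (P : Set ℕ) ⊆ U := fun x hx => hEU (hP (Finset.mem_coe.1 hx))
    have hPD : (P : Set ℕ) ∪ Set.range m ⊆ D := by
      rintro x (hx | ⟨u, rfl⟩)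
      · exact hU (hPU hx)
      · exact hm u
    exact Lam_nat f m C C' P (hf.mono hPD) (hfU.mono hPU) (hC.mono hPD)
  have h3 := fa_nat (Lam M G A e N s h (fun u => f (m u)) C) (Lam M G A e N s h m C') f (rg t)
    (hfU.mono hEU) h2 (N (fun s => f (m s)) C) (N m C') h1
  exact h3 r t fun i => Finset.mem_coe.2 ((mem_rg t (t i)).2 ⟨i, rfl⟩)

end Pool.Agent.Lib.H3U
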