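import Pool.Agent.Lib.H3F.B5
import Pool.Agent.Lib.H3F.N5
import Pool.Agent.Lib.H3F.B6a
import Pool.Agent.Lib.H3F.B6b
import Pool.Agent.Lib.H3F.B6c
import Pool.Agent.Lib.H3U.B6c

/-! # B6: the step of the main induction (d) -/

set_option autoImplicit false

namespace Pool.Agent.Lib.H3U

open Pool.Agent.Lib.H3F

open Equiv (Perm)

variable {R : Type} {ar : R → Type} [∀ r, Finite (ar r)] {d : ℕ} {κ : Type} [Nb κ] {V : Type}
  {M : Str R ar V} {G : Subgroup (Perm V)} {A : Str R ar κ} {e : LoD R ar d}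
  {N : (κ → ℕ) → Str R ar ℕ → Str R ar ℕ} {s h : ℕ}
variable [Dft R ar]

/-- **The other factors are trivial.**

Proof. If the condition of `Lam` fails for `P'` then it is `idLo` (`Lam_of_not`, `lo_idLo`).  Otherwise `mk m P' = s`,
`P'.card = s + h`; as `mk m E = s`, all marked points of `E` are in `P'` (`mk_eq`).  `Q = P ∩ P'`: `Con P' Q m C` by `Con_sub`
(`P ∩ P'`), the marked points of `P'` are in `P`, and `Q.card < s + h`: `Q ⊆ P'` and `Q ⊆ P`; if `Q.card = s + h` then `Q = P'`, so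
`P' ⊆ P`, and `P.card ≤ s + h` gives `P' = P`, excluded by `hne`.  Apply `mu_triv` to the template `(m, C, P')`, `Lam_spec`, and to
`D := E`, `B`, `P := P'`. -/
theorem factor_triv [Finite R] [Nonempty V] (hd : ∀ r, Nat.card (ar r) ≤ d) (hM : HU M)
    (hG : Au M ≤ G) (hst : Star M G e) (hi : Inv M G A e N) (hg : Gd M A e s h N)
    (D E P : Finset ℕ) (m : κ → ℕ) (C : Str R ar ℕ) (hA : Adm M A D m C) (hP : P ⊆ E)
    (hE : E ⊆ D) (hm : ∀ u, m u ∈ E → m u ∈ P) (hC : Con E P m C) (hs : mk m E = s)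
    (hc : P.card ≤ s + h) (P' : Finset ℕ) (hP' : P' ⊆ E)
    (hne : P' ≠ P ∨ P.card < s + h) (B : Str R ar ℕ)
    (hB : Ke M e E B) (hBC : EqS (P' : Set ℕ) B C) :
    EqS (E : Set ℕ) (lo (Lam M G A e N s h m C P') B P') B := by
  classical
  by_cases hcond : mk m P' = s ∧ P'.card = s + h
  · obtain ⟨hs', hc'⟩ := hcond
    have hD : P' ⊆ D := hP'.trans hE
    have hmE : ∀ u, m u ∈ E → m u ∈ P' := fun u hu => mk_eq m hP' (by rw [hs, hs']) u hu
    have hCQ : Con P' (P ∩ P') m C := Con_sub hC hP' hmE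
    have hcard : (P ∩ P').card < s + h := by
      by_contra hcon
      have h1 : P' ⊆ P ∩ P' := by
        have h2 := Finset.eq_of_subset_of_card_le (Finset.inter_subset_right : P ∩ P' ⊆ P')
          (by omega)
        rw [h2]
      have h3 : P' ⊆ P := h1.trans Finset.inter_subset_left
      rcases hne with hne | hlt
      · exact hne (Finset.eq_of_subset_of_card_le h3 (by omega))
      · have := Finset.card_le_card h3
        omega
    exact mu_triv hM hg D m C P' (P ∩ P') hA hD hs' _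
      (Lam_spec hd hM hG hst hi hg D m C P' hA hD hs' hc') Finset.inter_subset_right
      (fun u hu => Finset.mem_inter.2 ⟨hm u (hP' hu), hu⟩) hCQ hcard E B P' hB hP'
      (IsoS_of_eqS hBC)
  · rw [Lam_of_not m C P' hcond]
    intro r t _
    exact lo_idLo hd B P' r t

end Pool.Agent.Lib.H3U
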