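import Pool.Agent.Lib.H3U.O4

/-! # O5: the Ramsey theorem for several structures at the same time -/

set_option autoImplicit false

namespace Pool.Agent.Lib.H3U

open Pool.Agent.Lib.H3F

variable {R : Type} {ar : R → Type}

/-- The Ramsey theorem for several structures `X` at the same time. -/
theorem ram_list_ord {Q : ∀ n : ℕ, Str R ar (Fin n) → Prop} (hQ : FACO Q) (r : ℕ)
    (l : List (Σ k : ℕ, Str R ar (Fin k))) : ∀ (n : ℕ) (C : Str R ar (Fin n)), Q n C →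
    ∃ (N : ℕ) (D : Str R ar (Fin N)), Q N D ∧
      ∀ χ : ∀ k : ℕ, (Fin k → Fin N) → Fin (r + 1), ∃ h : Fin n → Fin N, StrictMono h ∧
        cm h D = C ∧ ∀ p ∈ l, ∃ c, ∀ g : Fin p.1 → Fin n, StrictMono g → cm g C = p.2 →
          χ p.1 (fun i => h (g i)) = c := by
  induction l with
  | nil =>
    intro n C hC
    refine ⟨n, C, hC, fun χ => ⟨fun x => x, fun x y h => h, rfl, fun p hp => ?_⟩⟩
    simp at hp
  | cons p l ih =>
    intro n C hC
    obtain ⟨N₁, D₁, hD₁, harr⟩ := ram_ord hQ p.2 C hC r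
    obtain ⟨N, D, hD, hl⟩ := ih N₁ D₁ hD₁
    refine ⟨N, D, hD, fun χ => ?_⟩
    obtain ⟨h₁, hm₁, hc₁, hcol⟩ := hl χ
    obtain ⟨h₀, hm₀, hc₀, c, hc⟩ := harr (fun e => χ p.1 (fun i => h₁ (e i)))
    refine ⟨fun x => h₁ (h₀ x), hm₁.comp hm₀, ?_, fun q hq => ?_⟩
    · have h1 : cm (fun x => h₁ (h₀ x)) D = cm h₀ (cm h₁ D) := rfl
      rw [h1, hc₁, hc₀]
    · rcases List.mem_cons.1 hq with rfl | hq
      · exact ⟨c, hc⟩
      · obtain ⟨c', hc'⟩ := hcol q hq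
        refine ⟨c', fun g hg hgC => ?_⟩
        refine hc' (fun i => h₀ (g i)) (hm₀.comp hg) ?_
        have h1 : cm (fun i => h₀ (g i)) D₁ = cm g (cm h₀ D₁) := rfl
        rw [h1, hc₀, hgC]

/-- **The Ramsey theorem for all copies with at most `d` points.** -/
theorem ram_multi_ord {Q : ∀ n : ℕ, Str R ar (Fin n) → Prop} (hQ : FACO Q) (d r : ℕ) (n : ℕ)
    (C : Str R ar (Fin n)) (hC : Q n C) :
    ∃ (N : ℕ) (D : Str R ar (Fin N)), Q N D ∧
      ∀ χ : ∀ k : ℕ, (Fin k → Fin N) → Fin (r + 1), ∃ h : Fin n → Fin N, StrictMono h ∧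
        cm h D = C ∧ ∀ k ≤ d, ∀ g g' : Fin k → Fin n, StrictMono g → StrictMono g' →
          cm g C = cm g' C → χ k (fun i => h (g i)) = χ k (fun i => h (g' i)) := by
  classical
  obtain ⟨N, D, hD, h⟩ := ram_list_ord hQ r
    ((List.range (d + 1)).flatMap fun k =>
      (Finset.univ : Finset (Fin k → Fin n)).toList.map fun g =>
        (⟨k, cm g C⟩ : Σ k : ℕ, Str R ar (Fin k))) n C hC
  refine ⟨N, D, hD, fun χ => ?_⟩
  obtain ⟨h₁, hm, hc, hcol⟩ := h χ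
  refine ⟨h₁, hm, hc, fun k hk g g' hg hg' hgg => ?_⟩
  obtain ⟨c, hc'⟩ := hcol ⟨k, cm g C⟩ (by
    rw [List.mem_flatMap]
    refine ⟨k, List.mem_range.2 (by omega), ?_⟩
    rw [List.mem_map]
    exact ⟨g, Finset.mem_toList.2 (Finset.mem_univ g), rfl⟩)
  have h2 := hc' g hg rfl
  have h3 := hc' g' hg' hgg.symm
  exact h2.trans h3.symm

end Pool.Agent.Lib.H3U
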