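import Pool.Agent.Lib.H3U.M3
import Pool.Agent.Lib.H3U.O5

/-! # M4: the Ramsey theorem for structures over marked points -/

set_option autoImplicit false

namespace Pool.Agent.Lib.H3U

open Pool.Agent.Lib.H3F

variable {R : Type} {ar : R → Type} {δ : Dfv R ar} {V : Type} {M : Str R ar V}

/-- **Ramsey theorem over marked points.** -/
theorem ram_marks (hM : HUA M δ) {k : ℕ} (d r n : ℕ) (C : Str R ar (Fin n ⊕ Fin k))
    (hC : Ag M (Fin n ⊕ Fin k) C) :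
    ∃ (N : ℕ) (D : Str R ar (Fin N ⊕ Fin k)), Ag M (Fin N ⊕ Fin k) D ∧
      cm Sum.inr D = cm Sum.inr C ∧
      ∀ χ : ∀ l : ℕ, (Fin l → Fin N) → Fin (r + 1), ∃ h : Fin n → Fin N, StrictMono h ∧
        cm (Sum.map h id) D = C ∧ ∀ l ≤ d, ∀ g g' : Fin l → Fin n, StrictMono g →
          StrictMono g' → cm (Sum.map g id) C = cm (Sum.map g' id) C →
            χ l (fun i => h (g i)) = χ l (fun i => h (g' i)) := by
  have hB : Qm M δ (cm Sum.inr C) n (tr (fl δ C)) := by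
    unfold Qm
    rw [un_tr, fl_fl]
    exact ⟨hC, rfl⟩
  obtain ⟨N, D, hD, hram⟩ := ram_multi_ord (faco_qm hM (cm Sum.inr C)) d r n _ hB
  refine ⟨N, fl δ (un D), hD.1, hD.2, fun χ => ?_⟩
  obtain ⟨h, hm, hc, hcol⟩ := hram χ
  refine ⟨h, hm, ?_, fun l hl g g' hg hg' hgg => hcol l hl g g' hg hg' ?_⟩
  · rw [← fl_cm h hm, ← un_cm, hc, un_tr, fl_fl]
  · rw [← tr_cm, ← tr_cm, ← fl_cm g hg, ← fl_cm g' hg', hgg]

end Pool.Agent.Lib.H3U
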