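import Pool.Agent.Lib.H3F.C1a
import Pool.Agent.Lib.H3F.C1b
import Pool.Agent.Lib.H3U.M4
import Pool.Agent.Lib.H3U.Def3

/-! # C2: a permutation is canonical on some realisation -/

set_option autoImplicit false

namespace Pool.Agent.Lib.H3U

open Equiv (Perm)
open Pool.Agent.Lib.H3F

variable {R : Type} {ar : R → Type} [∀ r, Finite (ar r)] {κ : Type} [Nb κ] {V : Type}
  {M : Str R ar V} [Dft R ar]

/-- **Every finite ordered structure over the constants has a realisation on which `g` is
canonical.** -/
theorem can_one [Finite R] [Finite κ] (hM : HU M) (c : κ → V) (hc : Function.Injective c)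
    (g : Perm V) (d n : ℕ) (C : Str (Rc R ar κ) (arc R ar κ) (Fin n)) (hC : Qc M c (Fin n) C) :
    ∃ b : Fin n → V, Function.Injective b ∧ (∀ u s, b u ≠ c s) ∧
      enc (cm (Sum.elim b c) M) = C ∧
      ∀ k ≤ d, ∀ f f' : Fin k → Fin n, StrictMono f → StrictMono f' → cm f C = cm f' C →
        cm (Sum.elim (fun i => g (b (f i))) (fun s => g (c s))) M =
          cm (Sum.elim (fun i => g (b (f' i))) (fun s => g (c s))) M := by
  classical
  have hfin : ∀ k : ℕ, Finite (Str R ar (Fin k ⊕ κ)) := fun k => by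
    have : ∀ r : R, Finite ((ar r → Fin k ⊕ κ) → Prop) := fun r => inferInstance
    exact Pi.finite
  have hfs : Finite (Σ k : Fin (d + 1), Str R ar (Fin (k : ℕ) ⊕ κ)) := inferInstance
  obtain ⟨m, ⟨em⟩⟩ := Finite.exists_equiv_fin (Σ k : Fin (d + 1), Str R ar (Fin (k : ℕ) ⊕ κ))
  obtain ⟨b₀, hb₀inj, hb₀c, hb₀C⟩ := hC
  -- the constants, numbered
  obtain ⟨c', hc'⟩ : ∃ c' : Fin (Nb.N κ) → V, ∀ i, c' i = c (Nb.e.symm i) := ⟨_, fun i => rfl⟩
  have hc'inj : Function.Injective c' := by
    intro x y hxy
    rw [hc', hc'] at hxy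
    exact Nb.e.symm.injective (hc hxy)
  have hcc : ∀ s, c' (Nb.e s) = c s := by
    intro s
    rw [hc', Equiv.symm_apply_apply]
  have hAg : Ag M (Fin n ⊕ Fin (Nb.N κ)) (cm (Sum.elim b₀ c') M) := by
    refine ⟨Sum.elim b₀ c', ?_, rfl⟩
    rintro (x | x) (y | y) hxy
    · exact congrArg Sum.inl (hb₀inj hxy)
    · have h1 : b₀ x = c' y := hxy
      rw [hc'] at h1
      exact absurd h1 (hb₀c x _)
    · have h1 : c' x = b₀ y := hxy
      rw [hc'] at h1
      exact absurd h1.symm (hb₀c y _)
    · exact congrArg Sum.inr (hc'inj hxy)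
  obtain ⟨N, D, ⟨a, hainj, haD⟩, hDc, hram⟩ := ram_marks hM d m n _ hAg
  obtain ⟨σ, hσ, hσc⟩ := hM.hom (Fin (Nb.N κ)) (fun s => a (Sum.inr s)) c'
    (fun s s' h => Sum.inr_injective (hainj h)) hc'inj (by
      have h1 : cm (fun s => a (Sum.inr s)) M = cm Sum.inr (cm a M) := rfl
      rw [h1, haD, hDc]
      rfl)
  -- the realisation of `D` over the constants
  obtain ⟨b', hb'⟩ : ∃ b' : Fin N → V, ∀ i, b' i = σ (a (Sum.inl i)) := ⟨_, fun i => rfl⟩
  have hel : Sum.elim b' c' = fun z => σ (a z) := by
    funext z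
    rcases z with x | s
    · exact hb' x
    · exact (hσc s).symm
  have hb'D : cm (Sum.elim b' c') M = D := by
    rw [hel, ← haD]
    funext r t
    exact propext (hσ r (fun i => a (t i)))
  have hb'inj : Function.Injective b' := by
    intro x y hxy
    rw [hb', hb'] at hxy
    exact Sum.inl_injective (hainj (σ.injective hxy))
  have hb'c : ∀ u s, b' u ≠ c s := by
    intro u s h
    rw [hb', ← hcc s, ← hσc] at h
    have h1 := hainj (σ.injective h)
    exact absurd h1 (by simp)
  obtain ⟨h, hh, hcm, hcol⟩ := hram (fun k f =>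
    if hk : k ≤ d then
      (em ⟨⟨k, Nat.lt_succ_of_le hk⟩,
        cm (Sum.elim (fun i => g (b' (f i))) (fun s => g (c s))) M⟩).castSucc
    else 0)
  have hreal' : cm (Sum.elim (fun u => b' (h u)) c') M = cm (Sum.elim b₀ c') M := by
    rw [← hcm, ← hb'D]
    funext r t
    show M r (fun i => Sum.elim (fun u => b' (h u)) c' (t i)) =
      M r (fun i => Sum.elim b' c' (Sum.map h id (t i)))
    have h2 : (fun i => Sum.elim (fun u => b' (h u)) c' (t i)) =
        (fun i => Sum.elim b' c' (Sum.map h id (t i))) := by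
      funext i
      rcases t i with x | s
      · rfl
      · rfl
    rw [h2]
  have hback : ∀ (b : Fin n → V), cm (Sum.elim b c) M =
      cm (Sum.map id Nb.e) (cm (Sum.elim b c') M) := by
    intro b
    funext r t
    show M r (fun i => Sum.elim b c (t i)) = M r (fun i => Sum.elim b c' (Sum.map id Nb.e (t i)))
    have h2 : (fun i => Sum.elim b c (t i)) =
        (fun i => Sum.elim b c' (Sum.map id Nb.e (t i))) := by
      funext i
      rcases t i with x | s
      · rfl
      · exact (hcc s).symm
    rw [h2]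
  have hreal : cm (Sum.elim (fun u => b' (h u)) c) M = cm (Sum.elim b₀ c) M := by
    rw [hback, hreal', ← hback]
  refine ⟨fun u => b' (h u), fun u v huv => hh.injective (hb'inj huv), fun u s => hb'c (h u) s,
    ?_, ?_⟩
  · rw [hreal]
    exact hb₀C
  · intro k hk f f' hf hf' he
    have he0 : cm (Sum.map f id) (cm (Sum.elim b₀ c) M) =
        cm (Sum.map f' id) (cm (Sum.elim b₀ c) M) := by
      apply enc_inj
      rw [enc_cm, enc_cm, hb₀C]
      exact he
    have he' : cm (Sum.map f id) (cm (Sum.elim b₀ c') M) =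
        cm (Sum.map f' id) (cm (Sum.elim b₀ c') M) := by
      have key : ∀ q : Fin k → Fin n, cm (Sum.map q id) (cm (Sum.elim b₀ c') M) =
          cm (Sum.map id Nb.e.symm) (cm (Sum.map q id) (cm (Sum.elim b₀ c) M)) := by
        intro q
        funext r t
        show M r (fun i => Sum.elim b₀ c' (Sum.map q id (t i))) =
          M r (fun i => Sum.elim b₀ c (Sum.map q id (Sum.map id Nb.e.symm (t i))))
        have h2 : (fun i => Sum.elim b₀ c' (Sum.map q id (t i))) =
            (fun i => Sum.elim b₀ c (Sum.map q id (Sum.map id Nb.e.symm (t i)))) := by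
          funext i
          rcases t i with x | s
          · rfl
          · exact hc' s
        rw [h2]
      rw [key f, key f', he0]
    have h3 := hcol k hk f f' hf hf' he'
    simp only [dif_pos hk] at h3
    have h4 := em.injective (Fin.castSucc_injective _ h3)
    have h5 := (Sigma.mk.inj_iff.1 h4).2
    exact eq_of_heq h5

end Pool.Agent.Lib.H3U
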