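import Pool.Agent.Lib.H3F.C2
import Pool.Agent.Lib.H3F.C3
import Pool.Agent.Lib.H3F.B4
import Pool.Agent.Lib.H3F.C4a
import Pool.Agent.Lib.H3U.C4a

/-! # C4: canonical behaviour over marked points (b) -/

set_option autoImplicit false

namespace Pool.Agent.Lib.H3U

open Pool.Agent.Lib.H3F

open Equiv (Perm)

variable {R : Type} {ar : R → Type} [∀ r, Finite (ar r)] {κ : Type} [Nb κ] {V : Type} {M : Str R ar V}
variable [Dft R ar]

omit [∀ r, Finite (ar r)] in
/-- The position maps of the sets `W ⊆ U` in the structure on `U` and the marked points. -/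
private theorem pos_struct {U W : Finset ℕ} (hW : W ⊆ U) {k : ℕ} (f : Fin k → Fin U.card)
    (hk : k = W.card) (hf : ∀ i, ((f i : Fin U.card) : ℕ) = pos U (nth W i)) (m : κ → ℕ)
    (C : Str R ar ℕ) {d : ℕ} (hd : W.card ≤ d) (r : R) (v : ar r → Fin k ⊕ κ) :
    cm (Sum.map f id) (cm (Sum.elim (fun x : Fin U.card => nth U x) m) C) r v ↔
      nrc d m W C r (fun i => Sum.map (fun x : Fin k => (⟨x, by omega⟩ : Fin (d + 1))) id (v i)) := by
  have h1 : ∀ x : Fin k, nth U (f x) = nth W x := by
    intro x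
    have hx : (x : ℕ) < W.card := by
      have := x.2
      omega
    rw [hf x]
    exact nth_pos U (nth W x) (hW (nth_mem W x hx))
  have h2 : (fun i => Sum.elim (fun x : Fin U.card => nth U x) m (Sum.map f id (v i))) =
      fun i => Sum.elim (fun x : Fin (d + 1) => nth W x) m
        (Sum.map (fun x : Fin k => (⟨x, by omega⟩ : Fin (d + 1))) id (v i)) := by
    funext i
    rcases v i with x | x
    · exact h1 x
    · rfl
  show C r (fun i => Sum.elim (fun x : Fin U.card => nth U x) m (Sum.map f id (v i))) ↔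
    ((∀ i (x : Fin (d + 1)), Sum.map (fun x : Fin k => (⟨x, by omega⟩ : Fin (d + 1))) id (v i) =
      Sum.inl x → (x : ℕ) < W.card) ∧ C r (fun i => Sum.elim (fun x : Fin (d + 1) => nth W x) m
        (Sum.map (fun x : Fin k => (⟨x, by omega⟩ : Fin (d + 1))) id (v i))))
  rw [h2]
  constructor
  · intro h
    refine ⟨fun i x hx => ?_, h⟩
    rcases hv : v i with y | y
    · rw [hv] at hx
      have hx' : (⟨y, by omega⟩ : Fin (d + 1)) = x := Sum.inl_injective hx
      rw [← hx']
      show (y : ℕ) < W.card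
      have := y.2
      omega
    · rw [hv] at hx
      exact absurd hx (by intro h; exact Sum.inr_ne_inl h)
  · exact fun h => h.2

/-- **Every structure with marked points has a rule.**

Proof. Let `U` be the set of the unmarked points of `D`; `Qc_of_adm` and `can_one` for
`C₁ = enc (cm (Sum.elim (nth U) m) C)` give `b : Fin U.card → V`.  Let `a x = c s` if `x = m s` and
`a x = b ⟨pos U x, _⟩` if `x ∈ U` (arbitrary otherwise); then `a (nth U i) = b i`, `a` is injective on `D`, and
`C = cm a M` on `D` (by `enc_inj`: `cm (Sum.elim b c) M = cm (Sum.elim (nth U) m) C`, and every tuple in `D` is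
`Sum.elim (nth U) m ∘ t'`).  Define
`φ X r s := ∃ W ⊆ U, W.card ≤ d ∧ nrc d m W C = X ∧ (∀ x : ℕ, x < W.card ↔ ∃ i, ∃ y : Fin (d + 1), s i = inl y ∧ (y : ℕ) = x) ∧ M r (fun i => g (a (Sum.elim (fun x => nth W x) m (s i))))`.
Claim: for a tuple `t` in `D`, with `W₀ = um m t ⊆ U` and `s i = cod d m W₀ (t i)`: `φ (nrc d m W₀ C) r s ↔ M r (g ∘ a ∘ t)`.
`Sum.elim (nth W₀) m (s i) = t i` (`nth_pos`, the chosen mark), and the unmarked codes in `s` are exactly the numbers
`< W₀.card` (`card_rg`: `W₀.card ≤ d`).  So `←` is clear with `W = W₀`.  For `→`: let `W` be a witness; `W.card = W₀.card = k` (both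
are determined by `s`), and `nrc d m W C = nrc d m W₀ C` says that the maps `f i = ⟨pos U (nth W i), _⟩`, `f₀` (for `W₀`) of
`Fin k` into `Fin U.card`, strictly monotone, satisfy `cm f C₁ = cm f₀ C₁` (`enc_cm`, evaluate at code tuples with entries
`< k ≤ d`).  So by `can_one` the structures of `g` on them are equal, which gives the claim at `s`. -/
theorem rz_one [Finite R] [Finite κ] (hM : HU M) {d : ℕ} (hd : ∀ r, Nat.card (ar r) ≤ d)
    (c : κ → V) (hc : Function.Injective c) (g : Perm V) (D : Finset ℕ) (m : κ → ℕ)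
    (C : Str R ar ℕ) (hA : Adm M (cm c M) D m C) :
    ∃ φ : CnD R ar κ d, Rz M c g φ D m C := by
  classical
  obtain ⟨a₀, ha₀, -⟩ := hA.inK
  obtain ⟨U, hU⟩ : ∃ U : Finset ℕ, ∀ x, x ∈ U ↔ x ∈ D ∧ ¬ ∃ s, m s = x :=
    ⟨D.filter fun x => ¬ ∃ s, m s = x, fun x => Finset.mem_filter⟩
  have hQ := Qc_of_adm hM c hc D m C hA U hU
  obtain ⟨b, hb, hbc, hE, hcan⟩ := can_one hM c hc g d U.card _ hQ
  have hEC : cm (Sum.elim b c) M = cm (Sum.elim (fun x : Fin U.card => nth U x) m) C := enc_inj hE
  -- the realisation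
  obtain ⟨a, ham, haU⟩ : ∃ a : ℕ → V, (∀ s, a (m s) = c s) ∧
      ∀ x (hx : x ∈ U), a x = b ⟨pos U x, pos_lt U x hx⟩ := by
    refine ⟨fun x => if h : ∃ s, m s = x then c h.choose else
      if h' : x ∈ U then b ⟨pos U x, pos_lt U x h'⟩ else a₀ x, fun s => ?_, fun x hx => ?_⟩
    · have h : ∃ s', m s' = m s := ⟨s, rfl⟩
      show (if h : ∃ s', m s' = m s then c h.choose else _) = c s
      rw [dif_pos h, hA.inj h.choose_spec]
    · have h : ¬ ∃ s, m s = x := ((hU x).1 hx).2
      show (if h : ∃ s', m s' = x then c h.choose else _) = _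
      rw [dif_neg h, dif_pos hx]
  have hUm : ∀ x ∈ D, (∃ s, m s = x) ∨ x ∈ U := by
    intro x hx
    by_cases h : ∃ s, m s = x
    · exact Or.inl h
    · exact Or.inr ((hU x).2 ⟨hx, h⟩)
  have hai : Set.InjOn a (D : Set ℕ) := by
    intro x hx y hy hxy
    rcases hUm x (Finset.mem_coe.1 hx) with ⟨s, rfl⟩ | hx'
    · rcases hUm y (Finset.mem_coe.1 hy) with ⟨s', rfl⟩ | hy'
      · rw [ham, ham] at hxy
        rw [hc hxy]
      · rw [ham, haU y hy'] at hxy
        exact absurd hxy.symm (hbc _ _)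
    · rcases hUm y (Finset.mem_coe.1 hy) with ⟨s', rfl⟩ | hy'
      · rw [ham, haU x hx'] at hxy
        exact absurd hxy (hbc _ _)
      · rw [haU x hx', haU y hy'] at hxy
        have h1 : pos U x = pos U y := by
          have h2 := hb hxy
          exact Fin.mk.inj_iff.1 h2
        rw [← nth_pos U x hx', ← nth_pos U y hy', h1]
  have haC : EqS (D : Set ℕ) C (cm a M) := by
    intro r t ht
    have h1 : ∀ i, ∃ w : Fin U.card ⊕ κ, Sum.elim (fun x : Fin U.card => nth U x) m w = t i ∧
        Sum.elim b c w = a (t i) := by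
      intro i
      rcases hUm (t i) (Finset.mem_coe.1 (ht i)) with ⟨s, hs⟩ | hx
      · exact ⟨Sum.inr s, hs, by rw [← hs, ham]; rfl⟩
      · exact ⟨Sum.inl ⟨pos U (t i), pos_lt U (t i) hx⟩, nth_pos U (t i) hx, (haU (t i) hx).symm⟩
    choose w hw1 hw2 using h1
    have h2 : cm (Sum.elim b c) M r w ↔ cm (Sum.elim (fun x : Fin U.card => nth U x) m) C r w := by
      rw [hEC]
    have h3 : (fun i => Sum.elim (fun x : Fin U.card => nth U x) m (w i)) = t := funext hw1
    have h4 : (fun i => Sum.elim b c (w i)) = fun i => a (t i) := funext hw2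
    have h5 : M r (fun i => Sum.elim b c (w i)) ↔
      C r (fun i => Sum.elim (fun x : Fin U.card => nth U x) m (w i)) := h2
    rw [h3, h4] at h5
    exact h5.symm
  refine ⟨fun X r s => ∃ W : Finset ℕ, W ⊆ U ∧ W.card ≤ d ∧ nrc d m W C = X ∧
    (∀ x : ℕ, x < W.card ↔ ∃ i, ∃ y : Fin (d + 1), s i = Sum.inl y ∧ (y : ℕ) = x) ∧
    M r (fun i => g (a (Sum.elim (fun x : Fin (d + 1) => nth W x) m (s i)))), a, hai, ham, haC, ?_⟩
  intro r t ht
  -- the unmarked entries
  have hW₀U : um m t ⊆ U := by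
    intro x hx
    obtain ⟨⟨i, hi⟩, hx2⟩ := (mem_um m t x).1 hx
    exact (hU x).2 ⟨by rw [← hi]; exact Finset.mem_coe.1 (ht i), hx2⟩
  have hW₀d : (um m t).card ≤ d := by
    have h1 : um m t ⊆ rg t := by
      intro x hx
      exact (mem_rg t x).2 ((mem_um m t x).1 hx).1
    exact (Finset.card_le_card h1).trans ((card_rg t).trans (hd r))
  have hcodm : ∀ i, (∃ s, m s = t i) → ∃ s, cod d m (um m t) (t i) = Sum.inr s ∧ m s = t i := by
    intro i h
    refine ⟨h.choose, ?_, h.choose_spec⟩
    unfold cod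
    rw [dif_pos h]
  have hcodu : ∀ i, (¬ ∃ s, m s = t i) → cod d m (um m t) (t i) = Sum.inl (ps d (um m t) (t i)) := by
    intro i h
    unfold cod
    rw [dif_neg h]
  have hmemu : ∀ i, (¬ ∃ s, m s = t i) → t i ∈ um m t := fun i h =>
    (mem_um m t (t i)).2 ⟨⟨i, rfl⟩, h⟩
  have hs3 : ∀ i, Sum.elim (fun x : Fin (d + 1) => nth (um m t) x) m (cod d m (um m t) (t i)) =
      t i := by
    intro i
    by_cases h : ∃ s, m s = t i
    · obtain ⟨s, h1, h2⟩ := hcodm i h
      rw [h1]
      exact h2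
    · rw [hcodu i h]
      show nth (um m t) (ps d (um m t) (t i) : Fin (d + 1)) = t i
      rw [ps_val d (um m t) (t i) (hmemu i h) hW₀d]
      exact nth_pos _ _ (hmemu i h)
  have hs4 : ∀ x : ℕ, x < (um m t).card ↔
      ∃ i, ∃ y : Fin (d + 1), cod d m (um m t) (t i) = Sum.inl y ∧ (y : ℕ) = x := by
    intro x
    constructor
    · intro hx
      obtain ⟨⟨i, hi⟩, hn⟩ := (mem_um m t _).1 (nth_mem (um m t) x hx)
      have hn' : ¬ ∃ s, m s = t i := by
        rw [hi]
        exact hn
      refine ⟨i, ps d (um m t) (t i), hcodu i hn', ?_⟩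
      rw [ps_val d (um m t) (t i) (hmemu i hn') hW₀d, hi]
      exact pos_nth (um m t) x hx
    · rintro ⟨i, y, h1, h2⟩
      by_cases h : ∃ s, m s = t i
      · obtain ⟨s, h3, -⟩ := hcodm i h
        rw [h3] at h1
        exact absurd h1 (by intro h; exact Sum.inr_ne_inl h)
      · rw [hcodu i h] at h1
        have h4 : ps d (um m t) (t i) = y := Sum.inl_injective h1
        rw [← h2, ← h4, ps_val d (um m t) (t i) (hmemu i h) hW₀d]
        exact pos_lt _ _ (hmemu i h)
  show (∃ W : Finset ℕ, W ⊆ U ∧ W.card ≤ d ∧ nrc d m W C = nrc d m (um m t) C ∧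
    (∀ x : ℕ, x < W.card ↔
      ∃ i, ∃ y : Fin (d + 1), cod d m (um m t) (t i) = Sum.inl y ∧ (y : ℕ) = x) ∧
    M r (fun i => g (a (Sum.elim (fun x : Fin (d + 1) => nth W x) m
      (cod d m (um m t) (t i)))))) ↔ M r (fun i => g (a (t i)))
  constructor
  · rintro ⟨W, hWU, hWd, hWC, hWs, hWM⟩
    have hcard : W.card = (um m t).card := by
      have h1 : ∀ x : ℕ, x < W.card ↔ x < (um m t).card := fun x => (hWs x).trans (hs4 x).symm
      have h2 := (h1 W.card).not
      have h3 := (h1 (um m t).card).not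
      have h4 : ¬ W.card < (um m t).card := h2.1 (lt_irrefl _)
      have h5 : ¬ (um m t).card < W.card := h3.2 (lt_irrefl _)
      omega
    -- the two position maps
    have key : ∀ W' : Finset ℕ, W' ⊆ U → W'.card = W.card →
        ∃ f : Fin W.card → Fin U.card, (∀ i, ((f i : Fin U.card) : ℕ) = pos U (nth W' i)) ∧
          StrictMono f := by
      intro W' hW' hc'
      have hlt : ∀ i : Fin W.card, (i : ℕ) < W'.card := fun i => by
        have := i.2
        omega
      refine ⟨fun i => ⟨pos U (nth W' i), pos_lt U _ (hW' (nth_mem W' i (hlt i)))⟩,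
        fun i => rfl, fun i j hij => ?_⟩
      show pos U (nth W' i) < pos U (nth W' j)
      exact pos_lt_pos U _ _ (hW' (nth_mem W' i (hlt i))) (nth_lt W' i j hij (hlt j))
    obtain ⟨f, hf, hfm⟩ := key W hWU rfl
    obtain ⟨f₀, hf₀, hfm₀⟩ := key (um m t) hW₀U hcard.symm
    have hcm : cm f (enc (cm (Sum.elim (fun x : Fin U.card => nth U x) m) C)) =
        cm f₀ (enc (cm (Sum.elim (fun x : Fin U.card => nth U x) m) C)) := by
      rw [← enc_cm, ← enc_cm]
      refine congrArg enc ?_
      funext r' v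
      apply propext
      rw [pos_struct hWU f rfl hf m C hWd r' v, pos_struct hW₀U f₀ hcard hf₀ m C hW₀d r' v, hWC]
    have hg := hcan W.card hWd f f₀ hfm hfm₀ hcm
    -- the values of the position maps
    have hval : ∀ W' : Finset ℕ, W' ⊆ U → W'.card = W.card → ∀ f' : Fin W.card → Fin U.card,
        (∀ i, ((f' i : Fin U.card) : ℕ) = pos U (nth W' i)) → ∀ i, b (f' i) = a (nth W' i) := by
      intro W' hW' hc' f' hf' i
      have hlt : (i : ℕ) < W'.card := by
        have := i.2
        omega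
      have hmem := hW' (nth_mem W' i hlt)
      rw [haU _ hmem]
      exact congrArg b (Fin.ext (hf' i))
    obtain ⟨v, hv⟩ : ∃ v : ar r → Fin W.card ⊕ κ, ∀ i, cod d m (um m t) (t i) =
        Sum.map (fun x : Fin W.card => (⟨x, by omega⟩ : Fin (d + 1))) id (v i) := by
      have h1 : ∀ i, ∃ z : Fin W.card ⊕ κ, cod d m (um m t) (t i) =
          Sum.map (fun x : Fin W.card => (⟨x, by omega⟩ : Fin (d + 1))) id z := by
        intro i
        rcases hz : cod d m (um m t) (t i) with y | s
        · have hy : (y : ℕ) < W.card := (hWs y).2 ⟨i, y, hz, rfl⟩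
          exact ⟨Sum.inl ⟨y, hy⟩, rfl⟩
        · exact ⟨Sum.inr s, rfl⟩
      choose v hv using h1
      exact ⟨v, hv⟩
    have hgr : M r (fun i => Sum.elim (fun i => g (b (f i))) (fun s => g (c s)) (v i)) ↔
        M r (fun i => Sum.elim (fun i => g (b (f₀ i))) (fun s => g (c s)) (v i)) := by
      have h1 : cm (Sum.elim (fun i => g (b (f i))) (fun s => g (c s))) M r v ↔
        cm (Sum.elim (fun i => g (b (f₀ i))) (fun s => g (c s))) M r v := by rw [hg]
      exact h1
    have hvv : ∀ W' : Finset ℕ, W' ⊆ U → W'.card = W.card → ∀ f' : Fin W.card → Fin U.card,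
        (∀ i, ((f' i : Fin U.card) : ℕ) = pos U (nth W' i)) →
          (fun i => Sum.elim (fun i => g (b (f' i))) (fun s => g (c s)) (v i)) =
            fun i => g (a (Sum.elim (fun x : Fin (d + 1) => nth W' x) m
              (cod d m (um m t) (t i)))) := by
      intro W' hW' hc' f' hf'
      funext i
      rw [hv i]
      rcases v i with x | s
      · show g (b (f' x)) = g (a (nth W' x))
        rw [hval W' hW' hc' f' hf' x]
      · show g (c s) = g (a (m s))
        rw [ham]
    rw [hvv W hWU rfl f hf, hvv (um m t) hW₀U hcard.symm f₀ hf₀] at hgr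
    have h6 := hgr.1 hWM
    have h7 : (fun i => g (a (Sum.elim (fun x : Fin (d + 1) => nth (um m t) x) m
        (cod d m (um m t) (t i))))) = fun i => g (a (t i)) := by
      funext i
      rw [hs3 i]
    rw [h7] at h6
    exact h6
  · intro h
    refine ⟨um m t, hW₀U, hW₀d, rfl, hs4, ?_⟩
    have h7 : (fun i => g (a (Sum.elim (fun x : Fin (d + 1) => nth (um m t) x) m
        (cod d m (um m t) (t i))))) = fun i => g (a (t i)) := by
      funext i
      rw [hs3 i]
    rw [h7]
    exact h

end Pool.Agent.Lib.H3U
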