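import Pool.Agent.Lib.H3F.B6
import Pool.Agent.Lib.H3F.C4
import Pool.Agent.Lib.H3F.E1
import Pool.Agent.Lib.H3U.C4e

/-! # B7: a closed group is determined by its operations and local operations (a) -/

set_option autoImplicit false

namespace Pool.Agent.Lib.H3U

open Pool.Agent.Lib.H3F

open Equiv (Perm)

open Pool.Agent.Lib.H3C (Cl FR Olig Sup pai pia)

variable {R : Type} {ar : R → Type} [∀ r, Finite (ar r)] {d : ℕ} {V : Type}
  {M : Str R ar V} {G G' : Subgroup (Perm V)} {e : LoD R ar d}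
variable [Dft R ar]

/-- **The chain of maps.**

Proof. `Gd M A e 0 0 N₁` holds vacuously (`mk < 0`, `P.card < 0`).  Induction on `s`, inside on `h` up to `d + 1`: `step_gd`,
`nxt_inv`, `nxt_rel` (with `(hi.rel ..).2`) and `Rel_trans`; `gd_succ` for the next `s`.  (Prove for all `s`, `h`: there is `N` with
the three properties; induction on `s` with `h = 0`, then on `h`.) -/
theorem chain [Finite R] [Nonempty V] {κ : Type} [Nb κ] {A : Str R ar κ}
    (hd : ∀ r, Nat.card (ar r) ≤ d) (hM : HU M) (hG : Au M ≤ G) (hG' : Au M ≤ G')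
    (hst : Star M G e)
    (hGG : ∀ (j : ℕ) (lam : LoD R ar d), IsLo M G e j lam → IsLo M G' e j lam)
    (N₁ : (κ → ℕ) → Str R ar ℕ → Str R ar ℕ) (hi : Inv M G A e N₁) (s : ℕ) :
    ∃ N : (κ → ℕ) → Str R ar ℕ → Str R ar ℕ, Inv M G A e N ∧ Gd M A e s 0 N ∧
      ∀ (D : Finset ℕ) (m : κ → ℕ) (C : Str R ar ℕ), Adm M A D m C →
        Rel M G' D (N₁ m C) (N m C) := by
  have hstep : ∀ s h : ℕ, (∃ N : (κ → ℕ) → Str R ar ℕ → Str R ar ℕ, Inv M G A e N ∧
      Gd M A e s 0 N ∧ ∀ (D : Finset ℕ) (m : κ → ℕ) (C : Str R ar ℕ), Adm M A D m C →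
        Rel M G' D (N₁ m C) (N m C)) →
      ∃ N : (κ → ℕ) → Str R ar ℕ → Str R ar ℕ, Inv M G A e N ∧
      Gd M A e s h N ∧ ∀ (D : Finset ℕ) (m : κ → ℕ) (C : Str R ar ℕ), Adm M A D m C →
        Rel M G' D (N₁ m C) (N m C) := by
    intro s h h0
    induction h with
    | zero => exact h0
    | succ h ih =>
      obtain ⟨N, hi1, hg1, hr1⟩ := ih
      refine ⟨nxt M G A e N s h, nxt_inv hd hM hG hi1, step_gd hd hM hG hst hi1 hg1, ?_⟩
      intro D m C hA
      exact Rel_trans hM hG' (hr1 D m C hA) (nxt_rel hd hM hG' hGG D m C (hi1.rel D m C hA).2).1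
  induction s with
  | zero =>
    refine ⟨N₁, hi, ?_, ?_⟩
    · intro D E P m C _ _ _ _ _ _ hh
      rcases hh with hh | ⟨_, hh⟩
      · exact absurd hh (Nat.not_lt_zero _)
      · exact absurd hh (Nat.not_lt_zero _)
    · intro D m C hA
      exact Rel_refl (hi.rel D m C hA).2.1
  | succ s ih =>
    obtain ⟨N, hi1, hg1, hr1⟩ := hstep s (d + 1) ih
    exact ⟨N, hi1, gd_succ hd hg1, hr1⟩

end Pool.Agent.Lib.H3U
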