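import Pool.Agent.Lib.H3F.B6
import Pool.Agent.Lib.H3F.C4
import Pool.Agent.Lib.H3F.E1
import Pool.Agent.Lib.H3F.B7a
import Pool.Agent.Lib.H3F.B7b
import Pool.Agent.Lib.H3U.B7b

/-! # B7: a closed group is determined by its operations and local operations (c) -/

set_option autoImplicit false

namespace Pool.Agent.Lib.H3U

open Pool.Agent.Lib.H3F

open Equiv (Perm)

open Pool.Agent.Lib.H3C (Cl FR Olig Sup pai pia)

variable {R : Type} {ar : R → Type} [∀ r, Finite (ar r)] {d : ℕ} {V : Type}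
  {M : Str R ar V} {G G' : Subgroup (Perm V)} {e : LoD R ar d}
variable [Dft R ar]

/-- **Two structures related by `G` are related by `G'`.**

Proof. `exists_star` gives `e`.  `C ~ lo e C ∅` and `C' ~ lo e C' ∅` for `G` and for `G'` (`hops`), `K M D C` and `K M D C'` by
`Rel_left`, `Rel_right`; `Ke_op`; `Rel_trans`, `Rel_symm`, `rel_of_Ke`.  For `d < j` the hypothesis `hGG` of `rel_of_Ke` is
`IsLo_big`. -/
theorem rel_of_rel [Finite R] [Nonempty V] (hd : ∀ r, Nat.card (ar r) ≤ d) (hM : HU M)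
    (hG : Au M ≤ G) (hG' : Au M ≤ G')
    (hops : ∀ φ : LoD R ar d, IsOp M G φ → IsOp M G' φ)
    (hlo : ∀ (e : LoD R ar d) (j : ℕ) (lam : LoD R ar d), j ≤ d → IsLo M G e j lam →
      IsLo M G' e j lam)
    (D : Finset ℕ) (C C' : Str R ar ℕ) (h : Rel M G D C C') : Rel M G' D C C' := by
  obtain ⟨e, he, hi, hst⟩ := exists_star (d := d) hd hM hG
  have hK : K M D C := Rel_left h
  have hK' : K M D C' := Rel_right h
  have hGG : ∀ (j : ℕ) (lam : LoD R ar d), IsLo M G e j lam → IsLo M G' e j lam := by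
    intro j lam hl
    rcases le_or_gt j d with hj | hj
    · exact hlo e j lam hj hl
    · exact IsLo_big hd j hj lam
  have h1 : Rel M G D (lo e C ∅) (lo e C' ∅) :=
    Rel_trans hM hG (Rel_trans hM hG (Rel_symm (he D C hK)) h) (he D C' hK')
  have h2 := rel_of_Ke hd hM hG hG' he hi hst hGG D (lo e C ∅) (lo e C' ∅)
    (Ke_op he hi hK) (Ke_op he hi hK') h1
  have he' := hops e he
  exact Rel_trans hM hG' (Rel_trans hM hG' (he' D C hK) h2) (Rel_symm (he' D C' hK'))

end Pool.Agent.Lib.H3U
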