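import Pool.Agent.Lib.H3U.Defs
import Pool.Agent.Lib.H3F.Def2

/-!
# Uniform amalgamation: definitions
-/

set_option autoImplicit false

namespace Pool.Agent.Lib.H3U

open Equiv
open Pool.Agent.Lib.H3F
open Pool.Agent.Lib.H3C (Cl FR Olig Sup pai pia)

variable {R : Type} {ar : R → Type}

/-- Default values: they depend on the symbol, on the order pattern of the tuple and on the 1-types
of its entries. -/
abbrev Dfv (R : Type) (ar : R → Type) : Type :=
  ∀ r : R, (ar r → ar r → Prop) → (ar r → R → Prop) → Prop

/-- The 1-type of a point. -/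
def ty {ι : Type} (A : Str R ar ι) (x : ι) : R → Prop := fun s => A s (fun _ => x)

/-- The default value of the tuple `t`, where the points are ordered by the numbering `p`. -/
def dv {ι : Type} (δ : Dfv R ar) (A : Str R ar ι) (p : ι → ℕ) (r : R) (t : ar r → ι) : Prop :=
  δ r (fun i j => p (t i) < p (t j)) (fun i => ty A (t i))

/-- `M` is homogeneous and its age has uniform amalgamation with the default values `δ`: if `A` is
the union of `X` and `Y`, and all tuples which meet the complements of `X` and of `Y` have the
default values (for some linear order), then `A` embeds in `M` as soon as `X` and `Y` do. -/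
structure HUA {V : Type} (M : Str R ar V) (δ : Dfv R ar) : Prop where
  hom : ∀ (ι : Type) [Finite ι] (a b : ι → V), Function.Injective a → Function.Injective b →
    cm a M = cm b M → ∃ σ ∈ Au M, ∀ u, σ (a u) = b u
  ua : ∀ (ι : Type) [Finite ι] (p : ι → ℕ) (A : Str R ar ι) (X Y : Set ι), Function.Injective p →
    (∀ x, x ∈ X ∨ x ∈ Y) →
    (∀ r (t : ar r → ι), (∃ i, t i ∉ X) → (∃ i, t i ∉ Y) → (A r t ↔ dv δ A p r t)) →
    Ag M X (cm Subtype.val A) → Ag M Y (cm Subtype.val A) → Ag M ι A

/-! ## Structures over marked points -/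

/-- The symbols of the language over `k` marked points: some arguments are marked points. -/
def Rm (ar : R → Type) (k : ℕ) : Type := Σ r : R, (ar r → Option (Fin k))

/-- The arities of the language over `k` marked points. -/
def arm (ar : R → Type) (k : ℕ) (s : Rm ar k) : Type := {i : ar s.1 // s.2 i = none}

/-- The tuple with the marked points inserted. -/
def cmb {k : ℕ} {ι : Type} (s : Rm ar k) (t : arm ar k s → ι) (i : ar s.1) : ι ⊕ Fin k :=
  if h : s.2 i = none then Sum.inl (t ⟨i, h⟩)
  else Sum.inr ((s.2 i).get (Option.isSome_iff_ne_none.2 h))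

/-- The structure over the marked points. -/
def tr {k : ℕ} {ι : Type} (C : Str R ar (ι ⊕ Fin k)) : Str (Rm ar k) (arm ar k) ι :=
  fun s t => C s.1 (cmb s t)

/-- The marked points of a tuple. -/
def mp {k : ℕ} {ι κ : Type} (t : κ → ι ⊕ Fin k) : κ → Option (Fin k) := fun i => (t i).getRight?

/-- The other points of a tuple. -/
theorem mp_left {k : ℕ} {ι κ : Type} (t : κ → ι ⊕ Fin k) (i : κ) (h : mp t i = none) :
    (t i).isLeft := by
  unfold mp at h
  rcases hx : t i with x | s
  · rfl
  · rw [hx] at h
    exact absurd h (by simp)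

/-- The structure given by its structure over the marked points. -/
def un {k : ℕ} {ι : Type} (B : Str (Rm ar k) (arm ar k) ι) : Str R ar (ι ⊕ Fin k) :=
  fun r t => B ⟨r, mp t⟩ (fun i => (t i.1).getLeft (mp_left t i.1 i.2))

/-- The numbering of the points: first the marked points, then the others. -/
def num {n k : ℕ} : Fin n ⊕ Fin k → ℕ
  | Sum.inl x => k + x
  | Sum.inr s => s

/-- The tuple `t` has two different points which are not marked. -/
def Two {ι κ : Type} {k : ℕ} (t : κ → ι ⊕ Fin k) : Prop :=
  ∃ i j x y, t i = Sum.inl x ∧ t j = Sum.inl y ∧ x ≠ y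

/-- Exchange the default values and `False`. -/
def fl {n k : ℕ} (δ : Dfv R ar) (C : Str R ar (Fin n ⊕ Fin k)) : Str R ar (Fin n ⊕ Fin k) :=
  fun r t => Xor (C r t) (Two t ∧ dv δ C num r t)

end Pool.Agent.Lib.H3U
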