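import Pool.Agent.Lib.H3F.Defs

/-!
# Ordered free amalgamation classes: definitions

Definitions for `Pool/Agent/Lib/H3U`: the Ramsey theorem for classes of ordered structures which are
closed under free amalgamation with arbitrary orders (the constraints may mention the order).
-/

set_option autoImplicit false

namespace Pool.Agent.Lib.H3U

open Pool.Agent.Lib.H3F

variable {R : Type} {ar : R → Type}

/-- `Q` is a class of ordered structures (on the sets `Fin n`) closed under ordered substructures
and free amalgamation (with any order). -/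
structure FACO (Q : ∀ n : ℕ, Str R ar (Fin n) → Prop) : Prop where
  her : ∀ (n m : ℕ) (e : Fin m → Fin n) (A : Str R ar (Fin n)), StrictMono e → Q n A →
    Q m (cm e A)
  am : ∀ (n : ℕ) (A : Str R ar (Fin n)) (X Y : Set (Fin n)), (∀ x, x ∈ X ∨ x ∈ Y) →
    (∀ r t, A r t → (∀ i, t i ∈ X) ∨ (∀ i, t i ∈ Y)) →
    (∀ (m : ℕ) (e : Fin m → Fin n), StrictMono e → (∀ i, e i ∈ X) → Q m (cm e A)) →
    (∀ (m : ℕ) (e : Fin m → Fin n), StrictMono e → (∀ i, e i ∈ Y) → Q m (cm e A)) → Q n A

/-- The arities of the signature with `N` colours (unary symbols) added. -/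
def arN (ar : R → Type) (N : ℕ) : R ⊕ Fin N → Type
  | Sum.inl r => ar r
  | Sum.inr _ => Unit

/-- The structure `A` with the colouring `c` added. -/
def plus {N : ℕ} {ι : Type} (A : Str R ar ι) (c : ι → Fin N) : Str (R ⊕ Fin N) (arN ar N) ι
  | Sum.inl r, t => A r t
  | Sum.inr b, t => c (t ()) = b

/-- The structure without the colours. -/
def red {N : ℕ} {ι : Type} (A : Str (R ⊕ Fin N) (arN ar N) ι) : Str R ar ι :=
  fun r t => A (Sum.inl r) t

/-- The class of coloured structures belonging to a class `Q` of ordered structures: a subset with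
different colours, ordered by the colours, is in `Q`. -/
def QN (Q : ∀ n : ℕ, Str R ar (Fin n) → Prop) (N : ℕ) (ι : Type)
    (A : Str (R ⊕ Fin N) (arN ar N) ι) : Prop :=
  ∀ (n : ℕ) (g : Fin n → ι) (c : Fin n → Fin N), StrictMono c →
    (∀ i b, A (Sum.inr b) (fun _ => g i) ↔ c i = b) → Q n (cm g (red A))

end Pool.Agent.Lib.H3U
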