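import Pool.Agent.Lib.H3U.Def2

/-! # M1: structures over marked points -/

set_option autoImplicit false

namespace Pool.Agent.Lib.H3U

open Pool.Agent.Lib.H3F

variable {R : Type} {ar : R → Type}

theorem cmb_none {k : ℕ} {ι : Type} (s : Rm ar k) (t : arm ar k s → ι) (i : ar s.1)
    (h : s.2 i = none) : cmb s t i = Sum.inl (t ⟨i, h⟩) := dif_pos h

theorem cmb_some {k : ℕ} {ι : Type} (s : Rm ar k) (t : arm ar k s → ι) (i : ar s.1) (c : Fin k)
    (h : s.2 i = some c) : cmb s t i = Sum.inr c := by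
  have h1 : s.2 i ≠ none := by rw [h]; simp
  unfold cmb
  rw [dif_neg h1]
  congr 1
  simp only [h, Option.get_some]

theorem un_tr {k : ℕ} {ι : Type} (C : Str R ar (ι ⊕ Fin k)) : un (tr C) = C := by
  funext r t
  show C r (cmb (⟨r, mp t⟩ : Rm ar k) _) = C r t
  congr 1
  funext i
  rcases hx : t i with x | s
  · rw [cmb_none (⟨r, mp t⟩ : Rm ar k) _ i (by
      show mp t i = none
      unfold mp
      rw [hx]
      rfl)]
    simp only [hx, Sum.getLeft_inl]
  · rw [cmb_some (⟨r, mp t⟩ : Rm ar k) _ i s (by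
      show mp t i = some s
      unfold mp
      rw [hx]
      rfl)]

theorem mp_cmb {k : ℕ} {ι : Type} (s : Rm ar k) (t : arm ar k s → ι) : mp (cmb s t) = s.2 := by
  funext i
  rcases hx : s.2 i with _ | c
  · unfold mp
    rw [cmb_none s t i hx]
    rfl
  · unfold mp
    rw [cmb_some s t i c hx]
    rfl

theorem tr_un {k : ℕ} {ι : Type} (B : Str (Rm ar k) (arm ar k) ι) : tr (un B) = B := by
  funext s t
  obtain ⟨r, φ⟩ := s
  have key : ∀ (ψ : ar r → Option (Fin k)) (hψ : ψ = φ)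
      (u : {i : ar r // ψ i = none} → ι), (∀ i (h : φ i = none), u ⟨i, by rw [hψ]; exact h⟩ =
        t ⟨i, h⟩) → B ⟨r, ψ⟩ u = B ⟨r, φ⟩ t := by
    intro ψ hψ u hu
    subst hψ
    have : u = t := funext fun i => hu i.1 i.2
    rw [this]
  refine key (mp (cmb (⟨r, φ⟩ : Rm ar k) t)) (mp_cmb (⟨r, φ⟩ : Rm ar k) t) _ (fun i h => ?_)
  have h1 := cmb_none (⟨r, φ⟩ : Rm ar k) t i h
  simp only [h1, Sum.getLeft_inl]

/-- The structure over the marked points and increasing maps. -/
theorem tr_cm {k : ℕ} {ι κ : Type} (C : Str R ar (ι ⊕ Fin k)) (e : κ → ι) :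
    tr (cm (Sum.map e id) C) = cm e (tr C) := by
  funext s t
  show C s.1 (fun i => Sum.map e id (cmb s t i)) = C s.1 (cmb s (fun i => e (t i)))
  congr 1
  funext i
  rcases hx : s.2 i with _ | c
  · rw [cmb_none s t i hx, cmb_none s _ i hx]
    rfl
  · rw [cmb_some s t i c hx, cmb_some s _ i c hx]
    rfl

theorem un_cm {k : ℕ} {ι κ : Type} (B : Str (Rm ar k) (arm ar k) ι) (e : κ → ι) :
    un (cm e B) = cm (Sum.map e id) (un B) := by
  have h := tr_cm (un B) e
  rw [tr_un] at h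
  rw [← h, un_tr]

/-- A relation tuple of `un B` whose unmarked points are given. -/
theorem un_mem {k : ℕ} {ι : Type} (B : Str (Rm ar k) (arm ar k) ι) (X : Set ι) (r : R)
    (t : ar r → ι ⊕ Fin k)
    (h : ∀ i : {i : ar r // mp t i = none}, (t i.1).getLeft (mp_left t i.1 i.2) ∈ X) :
    ∀ i x, t i = Sum.inl x → x ∈ X := by
  intro i x hx
  have h1 := h ⟨i, by
    unfold mp
    rw [hx]
    rfl⟩
  simp only [hx, Sum.getLeft_inl] at h1
  exact h1

end Pool.Agent.Lib.H3U
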