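import Pool.Agent.Lib.H3U.M1

/-! # M2: exchanging the default values and `False` -/

set_option autoImplicit false

namespace Pool.Agent.Lib.H3U

open Pool.Agent.Lib.H3F

variable {R : Type} {ar : R → Type} {δ : Dfv R ar}

theorem ty_fl {n k : ℕ} (C : Str R ar (Fin n ⊕ Fin k)) (x : Fin n ⊕ Fin k) :
    ty (fl δ C) x = ty C x := by
  funext s
  show Xor (C s (fun _ => x)) (Two (fun _ => x) ∧ _) = C s (fun _ => x)
  have h : ¬ Two (fun _ : ar s => x) := by
    rintro ⟨i, j, y, z, h1, h2, h3⟩
    rw [h1] at h2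
    exact h3 (Sum.inl_injective h2)
  apply propext
  constructor
  · rintro (⟨h1, -⟩ | ⟨⟨h1, -⟩, -⟩)
    · exact h1
    · exact absurd h1 h
  · intro h1
    exact Or.inl ⟨h1, fun h2 => h h2.1⟩

theorem dv_fl {n k : ℕ} (C : Str R ar (Fin n ⊕ Fin k)) (r : R) (t : ar r → Fin n ⊕ Fin k) :
    dv δ (fl δ C) num r t ↔ dv δ C num r t := by
  unfold dv
  have h : (fun i => ty (fl δ C) (t i)) = fun i => ty C (t i) := funext fun i => ty_fl C (t i)
  rw [h]

theorem fl_fl {n k : ℕ} (C : Str R ar (Fin n ⊕ Fin k)) : fl δ (fl δ C) = C := by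
  funext r t
  apply propext
  show Xor (Xor (C r t) (Two t ∧ dv δ C num r t)) (Two t ∧ dv δ (fl δ C) num r t) ↔ C r t
  rw [dv_fl]
  by_cases h1 : C r t
  · by_cases h2 : Two t ∧ dv δ C num r t
    · simp [Xor, h1, h2]
    · simp [Xor, h1, h2]
  · by_cases h2 : Two t ∧ dv δ C num r t
    · simp [Xor, h1, h2]
    · simp [Xor, h1, h2]

theorem num_inj {n k : ℕ} : Function.Injective (num : Fin n ⊕ Fin k → ℕ) := by
  rintro (x | x) (y | y) h
  · have h1 : k + (x : ℕ) = k + y := h
    have h2 : x = y := Fin.ext (by omega)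
    rw [h2]
  · have h1 : k + (x : ℕ) = y := h
    have := y.2
    omega
  · have h1 : (x : ℕ) = k + y := h
    have := x.2
    omega
  · have h1 : (x : ℕ) = y := h
    rw [Fin.ext h1]

theorem num_map {n m k : ℕ} (e : Fin m → Fin n) (he : StrictMono e) (x y : Fin m ⊕ Fin k) :
    num (Sum.map e id x) < num (Sum.map e id y) ↔ num x < num y := by
  rcases x with x | x <;> rcases y with y | y
  · show k + (e x : ℕ) < k + (e y : ℕ) ↔ k + (x : ℕ) < k + y
    have := he.lt_iff_lt (a := x) (b := y)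
    rw [Fin.lt_def, Fin.lt_def] at this
    omega
  · show k + (e x : ℕ) < (y : ℕ) ↔ k + (x : ℕ) < y
    have := y.2
    omega
  · show (x : ℕ) < k + (e y : ℕ) ↔ (x : ℕ) < k + y
    have := x.2
    omega
  · exact Iff.rfl

theorem two_map {ι ι' κ : Type} {k : ℕ} (e : ι → ι') (he : Function.Injective e)
    (t : κ → ι ⊕ Fin k) : Two (fun i => Sum.map e id (t i)) ↔ Two t := by
  constructor
  · rintro ⟨i, j, x, y, h1, h2, h3⟩
    dsimp only at h1 h2
    rcases hi : t i with a | a
    · rcases hj : t j with b | b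
      · refine ⟨i, j, a, b, hi, hj, fun h => h3 ?_⟩
        rw [hi] at h1
        rw [hj] at h2
        have e1 : Sum.inl (e a) = (Sum.inl x : ι' ⊕ Fin k) := h1
        have e2 : Sum.inl (e b) = (Sum.inl y : ι' ⊕ Fin k) := h2
        rw [← Sum.inl_injective e1, ← Sum.inl_injective e2, h]
      · rw [hj] at h2
        exact absurd h2 (by simp)
    · rw [hi] at h1
      exact absurd h1 (by simp)
  · rintro ⟨i, j, x, y, h1, h2, h3⟩
    exact ⟨i, j, e x, e y, by simp only [h1]; rfl, by simp only [h2]; rfl, fun h => h3 (he h)⟩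

theorem fl_cm {n m k : ℕ} (e : Fin m → Fin n) (he : StrictMono e)
    (C : Str R ar (Fin n ⊕ Fin k)) :
    fl δ (cm (Sum.map e id) C) = cm (Sum.map e id) (fl δ C) := by
  funext r t
  show Xor (C r (fun i => Sum.map e id (t i))) (Two t ∧ dv δ (cm (Sum.map e id) C) num r t) =
    Xor (C r (fun i => Sum.map e id (t i)))
      (Two (fun i => Sum.map e id (t i)) ∧ dv δ C num r (fun i => Sum.map e id (t i)))
  have h1 := propext (two_map (k := k) e he.injective t)
  have h2 : dv δ (cm (Sum.map e id) C) num r t =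
      dv δ C num r (fun i => Sum.map e id (t i)) := by
    unfold dv
    have h3 : (fun i j => num (t i) < num (t j)) =
        fun i j => num (Sum.map e id (t i)) < num (Sum.map e id (t j)) := by
      funext i j
      exact propext (num_map e he (t i) (t j)).symm
    rw [h3]
    rfl
  rw [h1, h2]

end Pool.Agent.Lib.H3U
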