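import Pool.Agent.Lib.H3U.M2

/-! # M3: the class of structures over marked points -/

set_option autoImplicit false

namespace Pool.Agent.Lib.H3U

open Pool.Agent.Lib.H3F

variable {R : Type} {ar : R → Type} {δ : Dfv R ar} {V : Type} {M : Str R ar V}

/-- The class of the ordered structures over marked points with the structure `A₀`, with default
values replaced by `False`. -/
def Qm (M : Str R ar V) (δ : Dfv R ar) {k : ℕ} (A₀ : Str R ar (Fin k)) (n : ℕ)
    (B : Str (Rm ar k) (arm ar k) (Fin n)) : Prop :=
  Ag M (Fin n ⊕ Fin k) (fl δ (un B)) ∧ cm Sum.inr (fl δ (un B)) = A₀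

theorem ag_cm {ι κ : Type} (e : κ → ι) (he : Function.Injective e) (A : Str R ar ι)
    (h : Ag M ι A) : Ag M κ (cm e A) := by
  obtain ⟨a, ha, h1⟩ := h
  refine ⟨fun x => a (e x), ha.comp he, ?_⟩
  rw [← h1]
  rfl

/-- **The class over the marked points has free amalgamation.** -/
theorem faco_qm (hM : HUA M δ) {k : ℕ} (A₀ : Str R ar (Fin k)) : FACO (Qm M δ A₀) := by
  constructor
  · rintro n m e B he ⟨h1, h2⟩
    unfold Qm
    rw [un_cm, fl_cm e he]
    refine ⟨ag_cm _ ?_ _ h1, ?_⟩
    · exact Sum.map_injective.2 ⟨he.injective, Function.injective_id⟩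
    · rw [← h2]
      rfl
  · intro n B X Y hXY hcr hX hY
    -- enumerations of subsets
    have henum : ∀ Z : Set (Fin n), ∃ (m : ℕ) (e : Fin m → Fin n), StrictMono e ∧
        ∀ x, x ∈ Z ↔ ∃ i, e i = x := by
      intro Z
      classical
      refine ⟨(Finset.univ.filter (· ∈ Z)).card, (Finset.univ.filter (· ∈ Z)).orderEmbOfFin rfl,
        (Finset.orderEmbOfFin _ rfl).strictMono, fun x => ?_⟩
      have h1 : Set.range ((Finset.univ.filter (· ∈ Z)).orderEmbOfFin rfl) =
          ((Finset.univ.filter (· ∈ Z) : Finset (Fin n)) : Set (Fin n)) :=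
        Finset.range_orderEmbOfFin _ _
      constructor
      · intro hx
        have h2 : x ∈ ((Finset.univ.filter (· ∈ Z) : Finset (Fin n)) : Set (Fin n)) := by
          simp [hx]
        rw [← h1] at h2
        exact h2
      · intro hx
        have h2 : x ∈ Set.range ((Finset.univ.filter (· ∈ Z)).orderEmbOfFin rfl) := hx
        rw [h1] at h2
        simpa using h2
    have hside : ∀ Z : Set (Fin n), (∀ (m : ℕ) (e : Fin m → Fin n), StrictMono e →
        (∀ i, e i ∈ Z) → Qm M δ A₀ m (cm e B)) →
        Ag M {z : Fin n ⊕ Fin k | ∀ x, z = Sum.inl x → x ∈ Z}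
          (cm Subtype.val (fl δ (un B))) ∧ cm Sum.inr (fl δ (un B)) = A₀ := by
      intro Z hZ
      obtain ⟨m, e, he, hmem⟩ := henum Z
      obtain ⟨h1, h2⟩ := hZ m e he (fun i => (hmem _).2 ⟨i, rfl⟩)
      rw [un_cm, fl_cm e he] at h1 h2
      refine ⟨?_, ?_⟩
      · have hpre : ∀ z : {z : Fin n ⊕ Fin k | ∀ x, z = Sum.inl x → x ∈ Z},
            ∃ y : Fin m ⊕ Fin k, Sum.map e id y = z.1 := by
          rintro ⟨(x | s), hz⟩
          · obtain ⟨i, hi⟩ := (hmem x).1 (hz x rfl)
            exact ⟨Sum.inl i, congrArg Sum.inl hi⟩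
          · exact ⟨Sum.inr s, rfl⟩
        choose g hg using hpre
        have h3 := ag_cm g (fun z z' hzz => by
          apply Subtype.ext
          rw [← hg z, ← hg z', hzz]) _ h1
        have h4 : cm g (cm (Sum.map e id) (fl δ (un B))) =
            cm Subtype.val (fl δ (un B)) := by
          funext r t
          show fl δ (un B) r (fun i => Sum.map e id (g (t i))) = fl δ (un B) r (fun i => (t i).1)
          have h5 : (fun i => Sum.map e id (g (t i))) = fun i => (t i).1 :=
            funext fun i => hg (t i)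
          rw [h5]
        rw [h4] at h3
        exact h3
      · rw [← h2]
        rfl
    obtain ⟨hX1, hX2⟩ := hside X hX
    obtain ⟨hY1, -⟩ := hside Y hY
    refine ⟨hM.ua (Fin n ⊕ Fin k) num (fl δ (un B)) _ _ num_inj ?_ ?_ hX1 hY1, hX2⟩
    · rintro (x | s)
      · rcases hXY x with h | h
        · left
          intro y hy
          rw [← Sum.inl_injective hy]
          exact h
        · right
          intro y hy
          rw [← Sum.inl_injective hy]
          exact h
      · left
        intro y hy
        exact absurd hy (by simp)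
    · rintro r t ⟨i, hi⟩ ⟨j, hj⟩
      rw [Set.mem_ofPred_eq, not_forall] at hi hj
      obtain ⟨x, hx⟩ := hi
      obtain ⟨y, hy⟩ := hj
      rw [Classical.not_imp] at hx hy
      have hne : x ≠ y := by
        rintro rfl
        rcases hXY x with h | h
        · exact hx.2 h
        · exact hy.2 h
      have htwo : Two t := ⟨i, j, x, y, hx.1, hy.1, hne⟩
      have hB : ¬ un B r t := by
        intro hB
        rcases hcr _ _ hB with h | h
        · exact hx.2 (un_mem B X r t h i x hx.1)
        · exact hy.2 (un_mem B Y r t h j y hy.1)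
      rw [dv_fl]
      show Xor (un B r t) (Two t ∧ dv δ (un B) num r t) ↔ dv δ (un B) num r t
      simp [Xor, hB, htwo]

end Pool.Agent.Lib.H3U
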