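import Pool.Agent.Lib.H3U.Defs

/-! # O1: irreducible subsets determine membership in an ordered class -/

set_option autoImplicit false

namespace Pool.Agent.Lib.H3U

open Pool.Agent.Lib.H3F

variable {R : Type} {ar : R → Type}

/-- If all irreducible ordered substructures of `A` are in `Q` then so is `A`. -/
theorem irr_ord {Q : ∀ n : ℕ, Str R ar (Fin n) → Prop} (hQ : FACO Q) (n : ℕ) :
    ∀ (A : Str R ar (Fin n)), (∀ (m : ℕ) (e : Fin m → Fin n), StrictMono e →
      Irr A (Set.range e) → Q m (cm e A)) → Q n A := by
  induction n using Nat.strong_induction_on with
  | _ n ih =>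
    intro A h
    by_cases hU : Irr A Set.univ
    · have h1 := h n (fun x => x) (fun x y hxy => hxy) (by
        have : Set.range (fun x : Fin n => x) = Set.univ := Set.eq_univ_of_forall fun x => ⟨x, rfl⟩
        rw [this]
        exact hU)
      exact h1
    · unfold Irr at hU
      push Not at hU
      obtain ⟨x, -, y, -, hxy, hn⟩ := hU
      have key : ∀ z : Fin n, ∀ (m : ℕ) (e : Fin m → Fin n), StrictMono e → (∀ i, e i ≠ z) →
          Q m (cm e A) := by
        intro z m e he hz
        have hlt : m < n := by
          have hle : m ≤ n := by
            have := Fintype.card_le_of_injective e he.injective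
            simpa using this
          rcases Nat.lt_or_eq_of_le hle with h1 | h1
          · exact h1
          · exfalso
            subst h1
            have hs : Function.Surjective e := Finite.surjective_of_injective he.injective
            obtain ⟨i, hi⟩ := hs z
            exact hz i hi
        refine ih m hlt (cm e A) fun l e' he' hI => ?_
        have h2 := h l (fun i => e (e' i)) (he.comp he') ?_
        · exact h2
        · rintro _ ⟨i, rfl⟩ _ ⟨j, rfl⟩ hij
          obtain ⟨r, t, ht, htF, ⟨i1, hi1⟩, ⟨j1, hj1⟩⟩ := hI (e' i) ⟨i, rfl⟩ (e' j) ⟨j, rfl⟩
            (fun h0 => hij (by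
              show e (e' i) = e (e' j)
              rw [h0]))
          refine ⟨r, fun k => e (t k), ht, fun k => ?_, ⟨i1, by
            show e (t i1) = e (e' i)
            rw [hi1]⟩, ⟨j1, by
            show e (t j1) = e (e' j)
            rw [hj1]⟩⟩
          obtain ⟨a, ha⟩ := htF k
          exact ⟨a, by
            show e (e' a) = e (t k)
            rw [ha]⟩
      refine hQ.am n A {z | z ≠ x} {z | z ≠ y} (fun z => ?_) (fun r t ht => ?_)
        (fun m e he hz => key x m e he hz) (fun m e he hz => key y m e he hz)
      · by_cases h1 : z = x
        · right
          rw [h1]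
          exact hxy
        · left
          exact h1
      · by_cases h1 : ∃ i, t i = x
        · right
          intro j hj
          exact hn r t ht (fun i => trivial) h1 j hj
        · left
          intro i hi
          exact h1 ⟨i, hi⟩

end Pool.Agent.Lib.H3U
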