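import Pool.Agent.Lib.H3U.O1

/-! # O2: coloured structures -/

set_option autoImplicit false

namespace Pool.Agent.Lib.H3U

open Pool.Agent.Lib.H3F

variable {R : Type} {ar : R → Type}

/-- The coloured class is a free amalgamation class. -/
theorem fac_qc {Q : ∀ n : ℕ, Str R ar (Fin n) → Prop} (hQ : FACO Q) (N : ℕ) : FAC (QN Q N) := by
  constructor
  · intro ι κ e A _ hA n g c hc h
    exact hA n (fun i => e (g i)) c hc h
  · intro ι _ A X Y hXY hcr hX hY n g c hc h
    refine hQ.am n (cm g (red A)) {i | g i ∈ X} {i | g i ∈ Y} (fun i => hXY (g i))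
      (fun r t ht => ?_) (fun m e he hm => ?_) (fun m e he hm => ?_)
    · rcases hcr (Sum.inl r) (fun i => g (t i)) ht with h1 | h1
      · exact Or.inl h1
      · exact Or.inr h1
    · exact hX m (fun i => ⟨g (e i), hm i⟩) (fun i => c (e i)) (fun i j hij => hc (he hij))
        (fun i b => h (e i) b)
    · exact hY m (fun i => ⟨g (e i), hm i⟩) (fun i => c (e i)) (fun i j hij => hc (he hij))
        (fun i b => h (e i) b)

theorem cm_plus {N : ℕ} {ι κ : Type} (A : Str R ar ι) (c : ι → Fin N) (e : κ → ι) :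
    cm e (plus A c) = plus (cm e A) (fun x => c (e x)) := by
  funext r t
  rcases r with r | b
  · rfl
  · rfl

theorem red_plus {N : ℕ} {ι : Type} (A : Str R ar ι) (c : ι → Fin N) : red (plus A c) = A := rfl

theorem red_cm {N : ℕ} {ι κ : Type} (A : Str (R ⊕ Fin N) (arN ar N) ι) (e : κ → ι) :
    red (cm e A) = cm e (red A) := rfl

/-- Irreducible sets do not see the colours. -/
theorem irr_red {N : ℕ} {ι : Type} (A : Str (R ⊕ Fin N) (arN ar N) ι) (F : Set ι) :
    Irr A F ↔ Irr (red A) F := by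
  constructor
  · intro h x hx y hy hxy
    obtain ⟨r, t, ht, htF, ⟨i, hi⟩, ⟨j, hj⟩⟩ := h x hx y hy hxy
    rcases r with r | b
    · exact ⟨r, t, ht, htF, ⟨i, hi⟩, ⟨j, hj⟩⟩
    · exfalso
      cases i
      cases j
      exact hxy (hi.symm.trans hj)
  · intro h x hx y hy hxy
    obtain ⟨r, t, ht, htF, hi, hj⟩ := h x hx y hy hxy
    exact ⟨Sum.inl r, t, ht, htF, hi, hj⟩

theorem he_plus {N : ℕ} {ι : Type} {P : Str R ar ι} {π : ι → Fin N} {D : Str R ar (Fin N)}
    (h : HE P π D) : HE (plus P π) π (plus D (fun b => b)) := by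
  intro F hF
  obtain ⟨h1, h2⟩ := h F ((irr_red _ _).1 hF)
  refine ⟨h1, fun r t ht => ?_⟩
  rcases r with r | b
  · exact h2 r t ht
  · exact Iff.rfl

theorem he_red {N : ℕ} {ι : Type} {A : Str (R ⊕ Fin N) (arN ar N) ι} {π : ι → Fin N}
    {D : Str R ar (Fin N)} (h : HE A π (plus D (fun b => b))) : HE (red A) π D := by
  intro F hF
  obtain ⟨h1, h2⟩ := h F ((irr_red _ _).2 hF)
  exact ⟨h1, fun r t ht => h2 (Sum.inl r) t ht⟩

theorem plus_red {N : ℕ} {ι : Type} {A : Str (R ⊕ Fin N) (arN ar N) ι} {π : ι → Fin N}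
    {D : Str R ar (Fin N)} (h : HE A π (plus D (fun b => b))) : plus (red A) π = A := by
  funext r t
  rcases r with r | b
  · rfl
  · obtain ⟨-, h2⟩ := h {t ()} (fun x hx y hy hxy => absurd (hx.trans hy.symm) hxy)
    have h3 := h2 (Sum.inr b) t (fun i => by
      cases i
      exact rfl)
    exact propext h3.symm

end Pool.Agent.Lib.H3U
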