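import Pool.Agent.Lib.H3F.R11
import Pool.Agent.Lib.H3U.O2

/-! # O3: from systems to ordered structures, with a monotone projection -/

set_option autoImplicit false

namespace Pool.Agent.Lib.H3U

open Pool.Agent.Lib.H3F

variable {R : Type} {ar : R → Type}

/-- `fin_step` of H3F with the additional information that the projection is monotone. -/
theorem fin_step_mono {n k N r : ℕ} (X : Str R ar (Fin k)) (C : Str R ar (Fin n))
    (I : ∀ α : Type, Str R ar α → (α → Fin N) → Prop)
    (H : (Fin n → Fin N) → Prop) (Hf : (Fin k → Fin N) → Prop)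
    (hI : ∀ (α α' : Type) (σ : α' ≃ α) (P : Str R ar α) (π : α → Fin N), I α P π →
      I α' (cm σ P) (fun x => π (σ x)))
    (hH : ∀ h, H h → StrictMono h)
    (hHf : ∀ (h : Fin n → Fin N) (g : Fin k → Fin n), H h → StrictMono g → cm g C = X →
      Hf (fun i => h (g i)))
    (hb : ∀ χ : (Fin k → Fin N) → Fin (r + 1), ∃ h, H h ∧ ∃ c, ∀ g : Fin k → Fin n,
      StrictMono g → cm g C = X → χ (fun i => h (g i)) = c)
    (h0 : I (Ini H) (iniS H C) (inip H))
    (hs : ∀ (α : Type) [Finite α] (P : Str R ar α) (π : α → Fin N) (f : Fin k → Fin N),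
      Hf f → I α P π →
      ∃ (α' : Type) (_ : Finite α') (P' : Str R ar α') (π' : α' → Fin N), I α' P' π' ∧
        Stp P π P' π' f X r) :
    ∃ (N' : ℕ) (D : Str R ar (Fin N')) (π' : Fin N' → Fin N), I (Fin N') D π' ∧
      (∀ x y, x < y → π' x ≤ π' y) ∧ Arr X C D r := by
  classical
  have hfin : Finite (Ini H) := finite_ini
  obtain ⟨α', hα', P', π', hI', hcol⟩ := iter_step X r Hf I hs
    (Set.toFinite {f : Fin k → Fin N | Hf f}).toFinset.toList (fun f hf => by
      have h1 := Finset.mem_toList.1 hf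
      exact (Set.Finite.mem_toFinset _).1 h1) (Ini H) (iniS H C) (inip H) h0
  obtain ⟨N', σ, hσ⟩ := ord_exists α' π'
  refine ⟨N', cm σ P', fun x => π' (σ x), hI _ _ σ P' π' hI', fun x y hxy => ?_, fun χ => ?_⟩
  · by_contra hlt
    exact absurd (hσ y x (not_le.1 hlt)) (not_lt.2 hxy.le)
  · obtain ⟨ψ, hψi, hψπ, hψc, hψ⟩ := hcol (fun e => χ (fun p => σ.symm (e p)))
    have hc : ∀ f : Fin k → Fin N, ∃ c : Fin (r + 1), Hf f → ∀ e : Fin k → Ini H,
        (∀ p, inip H (e p) = f p) → cm e (iniS H C) = X →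
          χ (fun p => σ.symm (ψ (e p))) = c := by
      intro f
      by_cases hf : Hf f
      · obtain ⟨c, hc⟩ := hψ f (Finset.mem_toList.2 ((Set.Finite.mem_toFinset _).2 hf))
        exact ⟨c, fun _ => hc⟩
      · exact ⟨0, fun h => absurd h hf⟩
    choose c hc using hc
    obtain ⟨h, hh, c₀, hc₀⟩ := hb c
    obtain ⟨pt, hp1, hp2⟩ : ∃ pt : Fin n → Ini H, (∀ x, inip H (pt x) = h x) ∧
        cm pt (iniS H C) = C := ⟨fun x => ((⟨h, hh⟩ : {h : Fin n → Fin N // H h}), x),
          fun x => rfl, cm_ini C (⟨h, hh⟩ : {h : Fin n → Fin N // H h})⟩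
    refine ⟨fun x => σ.symm (ψ (pt x)), ?_, ?_, c₀, ?_⟩
    · intro x y hxy
      apply hσ
      show π' (σ (σ.symm (ψ (pt x)))) < π' (σ (σ.symm (ψ (pt y))))
      rw [Equiv.apply_symm_apply, Equiv.apply_symm_apply, hψπ, hψπ, hp1, hp1]
      exact hH h hh hxy
    · have e1 : cm (fun x => σ.symm (ψ (pt x))) (cm σ P') = cm pt (cm ψ P') := by
        funext q t
        show P' q (fun i => σ (σ.symm (ψ (pt (t i))))) = P' q (fun i => ψ (pt (t i)))
        simp only [Equiv.apply_symm_apply]
      rw [e1, hψc]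
      exact hp2
    · intro g hg hX
      rw [← hc₀ g hg hX]
      have h1 := hc (fun i => h (g i)) (hHf h g hh hg hX) (fun p => pt (g p))
        (fun p => hp1 (g p)) (by
          have h2 : cm (fun p => pt (g p)) (iniS H C) = cm g (cm pt (iniS H C)) := rfl
          rw [h2, hp2]
          exact hX)
      exact h1

end Pool.Agent.Lib.H3U
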