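import Pool.Agent.Lib.H3F.R12a
import Pool.Agent.Lib.H3U.O3

/-! # O4: the Ramsey theorem for ordered free amalgamation classes -/

set_option autoImplicit false

namespace Pool.Agent.Lib.H3U

open Pool.Agent.Lib.H3F

variable {R : Type} {ar : R → Type}

/-- The first system, coloured by the base, is in the coloured class. -/
theorem qc_ini {Q : ∀ n : ℕ, Str R ar (Fin n) → Prop} (hQ : FACO Q) {n N : ℕ}
    {H : (Fin n → Fin N) → Prop} (hH : ∀ h, H h → StrictMono h) (C : Str R ar (Fin n))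
    (hC : Q n C) (hne : ∃ h, H h) : QN Q N (Ini H) (plus (iniS H C) (inip H)) := by
  intro m g c hc hgc
  have hg : ∀ i, inip H (g i) = c i := fun i => (hgc i (inip H (g i))).1 rfl |>.symm
  have h0 : red (plus (iniS H C) (inip H)) = iniS H C := rfl
  rw [h0]
  refine irr_ord hQ m _ fun l e he hI => ?_
  have hcopy : ∃ h : {h : Fin n → Fin N // H h}, ∀ i, ∃ x, g (e i) = (h, x) := by
    by_cases hl : Nonempty (Fin l)
    · obtain ⟨a⟩ := hl
      refine ⟨(g (e a)).1, fun i => ?_⟩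
      by_cases hia : e i = e a
      · exact ⟨(g (e a)).2, by rw [hia]; rfl⟩
      · obtain ⟨r, t, ht, htF, ⟨i1, hi1⟩, ⟨j1, hj1⟩⟩ := hI (e i) ⟨i, rfl⟩ (e a) ⟨a, rfl⟩ hia
        obtain ⟨h, t1, ht1, -⟩ := ht
        have e1 : g (t i1) = (h, t1 i1) := ht1 i1
        have e2 : g (t j1) = (h, t1 j1) := ht1 j1
        rw [hi1] at e1
        rw [hj1] at e2
        exact ⟨t1 i1, by rw [e1, e2]⟩
    · obtain ⟨h, hh⟩ := hne
      exact ⟨⟨h, hh⟩, fun i => absurd ⟨i⟩ hl⟩
  obtain ⟨h, hcopy⟩ := hcopy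
  choose s hs using hcopy
  have e3 : cm e (cm g (iniS H C)) = cm s C := by
    have h1 : cm e (cm g (iniS H C)) = cm s (cm (fun x => ((h, x) : Ini H)) (iniS H C)) := by
      funext r t
      show iniS H C r (fun i => g (e (t i))) = iniS H C r (fun i => ((h, s (t i)) : Ini H))
      have h2 : (fun i => g (e (t i))) = fun i => ((h, s (t i)) : Ini H) :=
        funext fun i => hs (t i)
      rw [h2]
    rw [h1, cm_ini C h]
  rw [e3]
  refine hQ.her n l s C (fun i j hij => ?_) hC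
  have h4 : ∀ i, h.1 (s i) = c (e i) := by
    intro i
    rw [← hg (e i), hs i]
    rfl
  have h5 : h.1 (s i) < h.1 (s j) := by
    rw [h4, h4]
    exact hc (he hij)
  exact (hH h.1 h.2).lt_iff_lt.1 h5

/-- **Ramsey theorem for ordered free amalgamation classes.** -/
theorem ram_ord {Q : ∀ n : ℕ, Str R ar (Fin n) → Prop} (hQ : FACO Q) {k n : ℕ}
    (X : Str R ar (Fin k)) (C : Str R ar (Fin n)) (hC : Q n C) (r : ℕ) :
    ∃ (N : ℕ) (D : Str R ar (Fin N)), Q N D ∧ Arr X C D r := by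
  by_cases hX : ∃ g : Fin k → Fin n, StrictMono g ∧ cm g C = X
  swap
  · refine ⟨n, C, hC, fun χ => ⟨fun x => x, fun x y h => h, rfl, 0, fun g hg hgX => ?_⟩⟩
    exact absurd ⟨g, hg, hgX⟩ hX
  obtain ⟨g₀, hg₀, hg₀X⟩ := hX
  have hQX : Q k X := by
    rw [← hg₀X]
    exact hQ.her n k g₀ C hg₀ hC
  obtain ⟨N, D₀, hD₀⟩ := ram_all X C r
  have hne : ∃ h : Fin n → Fin N, StrictMono h ∧ cm h D₀ = C := by
    obtain ⟨h, h1, h2, -⟩ := hD₀ (fun _ => 0)
    exact ⟨h, h1, h2⟩
  have hplus : ∀ f : Fin k → Fin N, cm f D₀ = X →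
      cm f (plus D₀ (fun b => b)) = plus X f := by
    intro f hf
    rw [cm_plus, hf]
  obtain ⟨N', D, π', ⟨hI1, hI2⟩, hmono, harr⟩ := fin_step_mono (r := r) X C
    (fun α P π => QN Q N α (plus P π) ∧ HE P π D₀)
    (fun h => StrictMono h ∧ cm h D₀ = C) (fun f => StrictMono f ∧ cm f D₀ = X)
    (fun α α' σ P π h => by
      refine ⟨?_, fun F hF => ?_⟩
      · intro m g c hc hgc
        exact h.1 m (fun i => σ (g i)) c hc hgc
      · have h1 : Irr P (σ '' F) := by
          rintro _ ⟨x, hx, rfl⟩ _ ⟨y, hy, rfl⟩ hxy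
          obtain ⟨r, t, ht, htF, ⟨i, hi⟩, ⟨j, hj⟩⟩ := hF x hx y hy (fun h0 => hxy (by rw [h0]))
          exact ⟨r, fun i => σ (t i), ht, fun i => ⟨t i, htF i, rfl⟩, ⟨i, congrArg σ hi⟩,
            ⟨j, congrArg σ hj⟩⟩
        obtain ⟨h2, h3⟩ := h.2 _ h1
        refine ⟨fun x hx y hy hxy => ?_, fun r t ht => ?_⟩
        · exact σ.injective (h2 ⟨x, hx, rfl⟩ ⟨y, hy, rfl⟩ hxy)
        · exact h3 r (fun i => σ (t i)) (fun i => ⟨t i, ht i, rfl⟩))
    (fun h hh => hh.1)
    (fun h g hh hg hgX => ⟨hh.1.comp hg, by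
      have h1 : cm (fun i => h (g i)) D₀ = cm g (cm h D₀) := rfl
      rw [h1, hh.2, hgX]⟩)
    (fun χ => by
      obtain ⟨h, h1, h2, c, hc⟩ := hD₀ χ
      exact ⟨h, ⟨h1, h2⟩, c, hc⟩)
    ⟨qc_ini hQ (fun h hh => hh.1) C hC hne, he_ini C D₀
      (fun h hh => ⟨hh.1.injective, hh.2⟩) hne⟩
    (fun α _ P π f hf hI => by
      obtain ⟨J, hJn, hJf, hstp⟩ := step_exists (plus P π) π f hf.1.injective (plus X f) r
      have hhe := he_pts (J := J) hf.1.injective (he_plus hI.2) (hplus f hf.2)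
      have hpr := plus_red hhe
      have hQp : QN Q N (Fin k) (plus X f) := by
        intro m g c hc hgc
        have hgm : StrictMono g := by
          intro i j hij
          have e1 : ∀ i, f (g i) = c i := fun i => (hgc i (f (g i))).1 rfl |>.symm
          have h5 : f (g i) < f (g j) := by
            rw [e1, e1]
            exact hc hij
          exact hf.1.lt_iff_lt.1 h5
        exact hQ.her k m g X hgm hQX
      have hq := q_pts (J := J) (fac_qc hQ N) hf.1.injective (he_plus hI.2) (hplus f hf.2) hQp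
        hI.1
      refine ⟨Pts (plus P π) π f (plus X f) J, finite_pts, red (ptsS (plus P π) π f (plus X f) J),
        ptsp (plus P π) π f (plus X f) J, ⟨?_, he_red hhe⟩, fun χ => ?_⟩
      · rw [hpr]
        exact hq
      · obtain ⟨ψ, h1, h2, h3, c, hc⟩ := hstp χ
        refine ⟨ψ, h1, h2, ?_, c, fun e he heX => hc e he ?_⟩
        · have h4 := congrArg red h3
          exact h4
        · rw [cm_plus, heX]
          congr 1
          funext p
          exact he p)
  refine ⟨N', D, ?_, harr⟩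
  refine irr_ord hQ N' D fun m e he hI => ?_
  obtain ⟨h1, -⟩ := hI2 _ hI
  refine hI1 m e (fun i => π' (e i)) (fun i j hij => ?_) (fun i b => Iff.rfl)
  refine lt_of_le_of_ne (hmono _ _ (he hij)) fun h0 => ?_
  have := h1 ⟨i, rfl⟩ ⟨j, rfl⟩ h0
  exact absurd (he.injective this) hij.ne

end Pool.Agent.Lib.H3U
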