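import Pool.Agent.Lib.H3F.T2b
import Pool.Agent.Lib.H3U.B4

/-! # T2: uniform amalgamation for relational structures, with named points -/

set_option autoImplicit false

namespace Pool.Agent.Lib.H3U

open Equiv (Perm)
open Function FirstOrder Language
open Pool.Agent.Lib.H3F
open Pool.Agent.Lib.H3C (Cl FR Olig Sup pai pia autP)
open Pool.Agent.Lib.H3R (colR BigC rare_fixed rare_finite ultra_ext)

/-- Default values for a language: they depend on the relation symbol, on the order pattern of the
tuple and on the 1-types of its entries. -/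
abbrev DfL (L : Language.{0, 0}) : Type :=
  ∀ n, L.Relations n → (Fin n → Fin n → Prop) → (Fin n → Set (Σ n, L.Relations n)) → Prop

/-- The uniform amalgamation property of the age, with named points. -/
def UAL (L : Language.{0, 0}) (M : Type) [L.Structure M] (δ : DfL L) : Prop :=
  ∀ (A : Type) [L.Structure A] [LinearOrder A] (X Y : L.Substructure A), Finite A →
    (∀ a, a ∈ X ∨ a ∈ Y) →
    (∀ (n : ℕ) (r : L.Relations n) (t : Fin n → A), (¬ ∀ i, t i ∈ X) → (¬ ∀ i, t i ∈ Y) →
      (Structure.RelMap r t ↔ δ n r (fun i j => t i < t j) (fun i => colR L (t i)))) →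
    (∀ a, (a ∉ X ∨ a ∉ Y) → BigC L M (colR L a)) →
    Nonempty (X ↪[L] M) → Nonempty (Y ↪[L] M) → Nonempty (A ↪[L] M)

section

variable (L : Language.{0, 0}) {M : Type} [L.Structure M] (num : Rare L M → ℕ)

/-- The order pattern with named points (first the named points). -/
def patB {n : ℕ} (p : Fin n → Option (Rare L M)) (lt : {i // p i = none} → {i // p i = none} → Prop)
    (i j : Fin n) : Prop :=
  if h : p i = none then (if h' : p j = none then lt ⟨i, h⟩ ⟨j, h'⟩ else False)
  else (if h' : p j = none then True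
    else num ((p i).get (Option.isSome_iff_ne_none.2 h)) <
      num ((p j).get (Option.isSome_iff_ne_none.2 h')))

/-- The 1-types with named points. -/
def colB {n : ℕ} (p : Fin n → Option (Rare L M))
    (c : {i // p i = none} → Rc (R0 L) (ar0 L) (Rare L M) → Prop) (i : Fin n) :
    Set (Σ n, L.Relations n) :=
  if h : p i = none then {s | c ⟨i, h⟩ ⟨s, fun _ => none⟩}
  else colR L ((p i).get (Option.isSome_iff_ne_none.2 h)).1

/-- The default values over the named points. -/
def dfB (δ : DfL L) : Dfv (Rc (R0 L) (ar0 L) (Rare L M)) (arc (R0 L) (ar0 L) (Rare L M)) :=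
  fun q lt c => δ q.1.1 q.1.2 (patB L num q.2 lt) (colB L q.2 c)

theorem patB_nn {n : ℕ} (p : Fin n → Option (Rare L M))
    (lt : {i // p i = none} → {i // p i = none} → Prop) (i j : Fin n) (h : p i = none)
    (h' : p j = none) : patB L num p lt i j ↔ lt ⟨i, h⟩ ⟨j, h'⟩ := by
  unfold patB
  rw [dif_pos h, dif_pos h']

theorem patB_ns {n : ℕ} (p : Fin n → Option (Rare L M))
    (lt : {i // p i = none} → {i // p i = none} → Prop) (i j : Fin n) (h : p i = none)
    (s : Rare L M) (h' : p j = some s) : ¬ patB L num p lt i j := by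
  unfold patB
  have h2 : ¬ p j = none := by rw [h']; simp
  rw [dif_pos h, dif_neg h2]
  exact id

theorem patB_sn {n : ℕ} (p : Fin n → Option (Rare L M))
    (lt : {i // p i = none} → {i // p i = none} → Prop) (i j : Fin n) (s : Rare L M)
    (h : p i = some s) (h' : p j = none) : patB L num p lt i j := by
  unfold patB
  have h2 : ¬ p i = none := by rw [h]; simp
  rw [dif_neg h2, dif_pos h']
  trivial

theorem patB_ss {n : ℕ} (p : Fin n → Option (Rare L M))
    (lt : {i // p i = none} → {i // p i = none} → Prop) (i j : Fin n) (s s' : Rare L M)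
    (h : p i = some s) (h' : p j = some s') : patB L num p lt i j ↔ num s < num s' := by
  unfold patB
  have h1 : ¬ p i = none := by rw [h]; simp
  have h2 : ¬ p j = none := by rw [h']; simp
  rw [dif_neg h1, dif_neg h2]
  simp only [h, h', Option.get_some]

theorem colB_n {n : ℕ} (p : Fin n → Option (Rare L M))
    (c : {i // p i = none} → Rc (R0 L) (ar0 L) (Rare L M) → Prop) (i : Fin n)
    (h : p i = none) : colB L p c i = {s | c ⟨i, h⟩ ⟨s, fun _ => none⟩} := by
  unfold colB
  rw [dif_pos h]

theorem colB_s {n : ℕ} (p : Fin n → Option (Rare L M))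
    (c : {i // p i = none} → Rc (R0 L) (ar0 L) (Rare L M) → Prop) (i : Fin n) (s : Rare L M)
    (h : p i = some s) : colB L p c i = colR L s.1 := by
  unfold colB
  have h1 : ¬ p i = none := by rw [h]; simp
  rw [dif_neg h1]
  simp only [h, Option.get_some]

end

/-- The structure given by `C`. -/
abbrev T2_str (L : Language.{0, 0}) (hL : L.IsRelational) {ι κ : Type}
    (C : Str (R0 L) (ar0 L) (ι ⊕ κ)) : L.Structure (ι ⊕ κ) where
  funMap := fun {n} f _ => ((hL n).false f).elim
  RelMap := fun {n} r t => C ⟨n, r⟩ t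

/-- The points over `X` and the named points. -/
def T2_sub (L : Language.{0, 0}) (hL : L.IsRelational) {ι κ : Type}
    (C : Str (R0 L) (ar0 L) (ι ⊕ κ)) (X : Set ι) :
    @Language.Substructure L (ι ⊕ κ) (T2_str L hL C) :=
  letI := T2_str L hL C
  { carrier := {z | Sum.elim (fun x => x ∈ X) (fun _ => True) z}
    fun_mem := fun {n} f => ((hL n).false f).elim }

theorem T2_inj (L : Language.{0, 0}) {M : Type} [L.Structure M] {ι : Type}
    (a : ι → Big L M) (ha : Injective a) : Injective (toM L a) := by
  intro z w h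
  rcases z with x | s <;> rcases w with y | s'
  · have h1 : (a x).1 = (a y).1 := h
    rw [ha (Subtype.ext h1)]
  · have h1 : (a x).1 = s'.1 := h
    exact absurd (h1 ▸ (a x).2) s'.2
  · have h1 : s.1 = (a y).1 := h
    exact absurd (h1.symm ▸ (a y).2) s.2
  · have h1 : s.1 = s'.1 := h
    rw [Subtype.ext h1]

theorem T2_emb (L : Language.{0, 0}) (hL : L.IsRelational) {M : Type} [L.Structure M]
    {ι : Type} (C : Str (R0 L) (ar0 L) (ι ⊕ Rare L M)) (X : Set ι) (a : X → Big L M)
    (ha : Injective a) (h : cm (toM L a) (strL L M) = cm (Sum.map Subtype.val id) C) :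
    letI := T2_str L hL C
    Nonempty (T2_sub L hL C X ↪[L] M) := by
  let _ := T2_str L hL C
  have hj : ∀ z : T2_sub L hL C X, ∃ w : X ⊕ Rare L M, Sum.map Subtype.val id w = z.1 := by
    rintro ⟨z, hz⟩
    rcases z with x | s
    · exact ⟨Sum.inl ⟨x, hz⟩, rfl⟩
    · exact ⟨Sum.inr s, rfl⟩
  choose j hj using hj
  refine ⟨⟨⟨fun z => toM L a (j z), ?_⟩, ?_, ?_⟩⟩
  · intro z w hzw
    have h1 := T2_inj L a ha hzw
    apply Subtype.ext
    rw [← hj z, ← hj w, h1]
  · intro n f
    exact ((hL n).false f).elim
  · intro n r t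
    have h1 : strL L M ⟨n, r⟩ (fun i => toM L a (j (t i))) =
        C ⟨n, r⟩ (fun i => Sum.map Subtype.val id (j (t i))) :=
      congrFun (congrFun h ⟨n, r⟩) (fun i => j (t i))
    have h2 : (fun i => Sum.map Subtype.val id (j (t i))) = fun i => (t i).1 :=
      funext fun i => hj (t i)
    rw [h2] at h1
    exact iff_of_eq h1

/-- **Uniform amalgamation of the structure over the named points.**  (After the proof for free
amalgamation in `H3F/T2bb`.) -/
theorem ua_strB (L : Language.{0, 0}) {M : Type} [L.Structure M] (hL : L.IsRelational)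
    (hfin : Finite (Σ n, L.Relations n)) (hu : L.IsUltrahomogeneous M) (δ : DfL L)
    (hage : UAL L M δ) {RN : ℕ} (num : Rare L M ≃ Fin RN) :
    HUA (strB L M) (dfB L (fun s => (num s : ℕ)) δ) := by
  refine ⟨fun ι _ a b ha hb hab => hom_strB L hL hfin hu ι a b ha hb hab, ?_⟩
  intro ι _ p A X Y hp hXY ht hX hY
  obtain ⟨C, hC⟩ := enc_surj A
  have key : ∀ Z : Set ι, Ag (strB L M) Z (cm Subtype.val A) → ∃ a : Z → Big L M,
      Injective a ∧ cm (toM L a) (strL L M) = cm (Sum.map Subtype.val id) C := by
    intro Z hZ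
    obtain ⟨a, ha, hZ⟩ := hZ
    refine ⟨a, ha, enc_inj ?_⟩
    rw [← cm_strB, hZ, ← hC, enc_cm]
  obtain ⟨aX, haX, hX⟩ := key X hX
  obtain ⟨aY, haY, hY⟩ := key Y hY
  have hcol : ∀ (Z : Set ι) (a : Z → Big L M),
      cm (toM L a) (strL L M) = cm (Sum.map Subtype.val id) C → ∀ u ∈ Z,
      BigC L M {r : R0 L | C r (fun _ => Sum.inl u)} := by
    intro Z a h u hu
    have h1 : {r : R0 L | C r (fun _ => Sum.inl u)} = colR L (a ⟨u, hu⟩).1 := by
      ext r
      exact (iff_of_eq (congrFun (congrFun h r) (fun _ => Sum.inl ⟨u, hu⟩))).symm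
    rw [h1]
    exact (a ⟨u, hu⟩).2
  have hb : ∀ u, BigC L M {r : R0 L | C r (fun _ => Sum.inl u)} := by
    intro u
    rcases hXY u with hu | hu
    · exact hcol X aX hX u hu
    · exact hcol Y aY hY u hu
  have hr : ∀ (s : Rare L M) (r : R0 L),
      C r (fun _ => Sum.inr s) ↔ strL L M r (fun _ => s.1) := fun s r =>
    (iff_of_eq (congrFun (congrFun hX r) (fun _ => Sum.inr s))).symm
  let _ := T2_str L hL C
  have hrare : Finite (Rare L M) := (rare_finite L hfin).to_subtype
  have hfi : Finite (ι ⊕ Rare L M) := inferInstance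
  -- the linear order
  obtain ⟨ord, hordl, hordr⟩ : ∃ ord : ι ⊕ Rare L M → ℕ, (∀ x, ord (Sum.inl x) = RN + p x) ∧
      ∀ s, ord (Sum.inr s) = (num s : ℕ) :=
    ⟨Sum.elim (fun x => RN + p x) (fun s => (num s : ℕ)), fun x => rfl, fun s => rfl⟩
  have hordinj : Injective ord := by
    rintro (x | s) (y | s') h
    · rw [hordl, hordl] at h
      exact congrArg Sum.inl (hp (by omega))
    · rw [hordl, hordr] at h
      have := (num s').2
      omega
    · rw [hordr, hordl] at h
      have := (num s).2
      omega
    · rw [hordr, hordr] at h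
      exact congrArg Sum.inr (num.injective (Fin.ext h))
  let _ : LinearOrder (ι ⊕ Rare L M) := LinearOrder.lift' ord hordinj
  have hlt : ∀ z w : ι ⊕ Rare L M, z < w ↔ ord z < ord w := fun z w => Iff.rfl
  have hcolz : ∀ z : ι ⊕ Rare L M, colR L z = {r : R0 L | C r (fun _ => z)} := fun z => rfl
  obtain ⟨e⟩ := hage (ι ⊕ Rare L M) (T2_sub L hL C X) (T2_sub L hL C Y) hfi (by
      intro a
      rcases a with x | s
      · rcases hXY x with h | h
        · exact Or.inl h
        · exact Or.inr h
      · exact Or.inl trivial) (by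
      intro n r t hn1 hn2
      obtain ⟨q, t', hq⟩ := ent_surj (R := R0 L) (ar := ar0 L) ⟨n, r⟩ t
      have hin : ∀ i (h : q i = none), t i = Sum.inl (t' ⟨i, h⟩) := by
        intro i h
        rw [← hq]
        exact ent_none (⟨⟨n, r⟩, q⟩ : Rc (R0 L) (ar0 L) (Rare L M)) t' i h
      have his : ∀ i s, q i = some s → t i = Sum.inr s := by
        intro i s h
        rw [← hq]
        exact ent_some (⟨⟨n, r⟩, q⟩ : Rc (R0 L) (ar0 L) (Rare L M)) t' i s h
      have h3 : ∀ Z : Set ι, (∀ i, t' i ∈ Z) → ∀ i, t i ∈ T2_sub L hL C Z := by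
        intro Z hZ i
        rcases h : q i with _ | s
        · rw [hin i h]
          exact hZ ⟨i, h⟩
        · rw [his i s h]
          exact trivial
      have h4 := ht ⟨⟨n, r⟩, q⟩ t' (by
        by_contra h5
        push Not at h5
        exact hn1 (h3 X h5)) (by
        by_contra h5
        push Not at h5
        exact hn2 (h3 Y h5))
      have h5 : Structure.RelMap r t ↔ A ⟨⟨n, r⟩, q⟩ t' := by
        rw [← hC]
        show C ⟨n, r⟩ t ↔ C ⟨n, r⟩ (ent (⟨⟨n, r⟩, q⟩ : Rc (R0 L) (ar0 L) (Rare L M)) t')
        rw [hq]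
      rw [h5, h4]
      show δ n r (patB L _ q _) (colB L q _) ↔ _
      have e1 : (patB L (fun s => (num s : ℕ)) q (fun i j => p (t' i) < p (t' j))) =
          fun i j => t i < t j := by
        funext i j
        apply propext
        rw [hlt]
        rcases hi : q i with _ | s
        · rcases hj : q j with _ | s'
          · rw [patB_nn L _ q _ i j hi hj, hin i hi, hin j hj, hordl, hordl]
            omega
          · rw [hin i hi, his j s' hj, hordl, hordr]
            have h6 := patB_ns L (fun s => (num s : ℕ)) q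
              (fun i j => p (t' i) < p (t' j)) i j hi s' hj
            have := (num s').2
            constructor
            · exact fun h => absurd h h6
            · intro h
              omega
        · rcases hj : q j with _ | s'
          · rw [his i s hi, hin j hj, hordl, hordr]
            have h6 := patB_sn L (fun s => (num s : ℕ)) q
              (fun i j => p (t' i) < p (t' j)) i j s hi hj
            have := (num s).2
            constructor
            · intro _
              omega
            · exact fun _ => h6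
          · rw [patB_ss L _ q _ i j s s' hi hj, his i s hi, his j s' hj, hordr, hordr]
      have e2 : (colB L q (fun i => ty A (t' i))) = fun i => colR L (t i) := by
        funext i
        rw [hcolz]
        rcases hi : q i with _ | s
        · rw [colB_n L q _ i hi, hin i hi]
          ext s
          show A ⟨s, fun _ => none⟩ (fun _ => t' ⟨i, hi⟩) ↔ C s (fun _ => Sum.inl (t' ⟨i, hi⟩))
          rw [← hC]
          show C s (ent (⟨s, fun _ => none⟩ : Rc (R0 L) (ar0 L) (Rare L M)) _) ↔ _
          have e3 : ent (⟨s, fun _ => none⟩ : Rc (R0 L) (ar0 L) (Rare L M))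
              (fun _ => t' ⟨i, hi⟩) = fun _ => Sum.inl (t' ⟨i, hi⟩) := by
            funext k
            exact ent_none (⟨s, fun _ => none⟩ : Rc (R0 L) (ar0 L) (Rare L M)) _ k rfl
          rw [e3]
        · rw [colB_s L q _ i s hi, his i s hi]
          ext r'
          exact (hr s r').symm
      rw [e1, e2]) (by
      intro a ha
      rcases a with x | s
      · exact hb x
      · rcases ha with ha | ha
        · exact absurd trivial ha
        · exact absurd trivial ha)
    (T2_emb L hL C X aX haX hX) (T2_emb L hL C Y aY haY hY)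
  rw [← hC]
  refine ag_of_emb L C e e.injective ?_ hb hr
  funext r t
  exact propext (e.map_rel r.2 t)

end Pool.Agent.Lib.H3U
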