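import Pool.Agent.Lib.H3F.T4
import Pool.Agent.Lib.H3C.A6
import Pool.Agent.Lib.H3C.K3
import Pool.Agent.Lib.H3U.T2
import Pool.Agent.Lib.H3U.T3b

/-! # T5: Thomas's conjecture for structures with uniform amalgamation -/

set_option autoImplicit false

namespace Pool.Agent.Lib.H3U

open Equiv (Perm)
open Function FirstOrder Language
open Pool.Agent.Lib.H3F
open Pool.Agent.Lib.H3C (Cl FR Olig Sup pai pia autP olig_mono fr_of_sup finite_reducts)
open Pool.Agent.Lib.H3R (colR BigC extS olig_extS sup_extS_finite rare_finite rare_fixed)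

/-- The automorphism group has finitely many closed supergroups. -/
theorem fr_autP (L : Language.{0, 0}) (hL : L.IsRelational) {M : Type} [L.Structure M]
    [Countable M] (hfin : Finite (Σ n, L.Relations n)) (hu : L.IsUltrahomogeneous M)
    (δ : DfL L) (hage : UAL L M δ) : Olig (autP L M) ∧ FR (autP L M) := by
  classical
  have hrare : {x : M | ¬ BigC L M (colR L x)}.Finite := rare_finite L hfin
  by_cases hn : Nonempty {x : M // BigC L M (colR L x)}
  · have hfR : Finite (Rare L M) := hrare.to_subtype
    have hf0 : Finite (R0 L) := hfin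
    have hf1 : Finite (Rc (R0 L) (ar0 L) (Rare L M)) := by
      have h1 : ∀ r : R0 L, Finite (ar0 L r → Option (Rare L M)) := fun r => Pi.finite
      exact inferInstanceAs (Finite (Σ r : R0 L, ar0 L r → Option (Rare L M)))
    have hf2 : ∀ q : Rc (R0 L) (ar0 L) (Rare L M), Finite (arc (R0 L) (ar0 L) (Rare L M) q) :=
      fun q => Subtype.finite
    obtain ⟨RN, ⟨num⟩⟩ := Finite.exists_equiv_fin (Rare L M)
    let _ : Dft (Rc (R0 L) (ar0 L) (Rare L M)) (arc (R0 L) (ar0 L) (Rare L M)) :=
      ⟨dfB L (fun s => (num s : ℕ)) δ⟩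
    have hgen : HU (strB L M) := ua_strB L hL hfin hu δ hage num
    have hle : extS (fun x : M => BigC L M (colR L x)) (Au (strB L M)) ≤ autP L M := extS_le L
    have hol' : Olig (extS (fun x : M => BigC L M (colR L x)) (Au (strB L M))) :=
      olig_extS _ _ hn (olig_Au hgen) hrare
    refine ⟨olig_mono hle hol', ?_⟩
    have hF : ∀ x, x ∈ hrare.toFinset ↔ ¬ BigC L M (colR L x) := fun x => by
      rw [Set.Finite.mem_toFinset, Set.mem_ofPred_eq]
    have hsup := sup_extS_finite (fun x : M => BigC L M (colR L x)) (Au (strB L M))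
      (fr_Au hgen) hrare.toFinset hF
    have hfr : FR (extS (fun x : M => BigC L M (colR L x)) (Au (strB L M))) := by
      refine fr_of_sup _ hol' hrare.toFinset ?_ hsup
      intro h hh x hx
      exact rare_fixed L (hle hh) x ((hF x).1 hx)
    exact Set.Finite.subset hfr (fun G hG => ⟨hle.trans hG.1, hG.2⟩)
  · have huniv : {x : M | ¬ BigC L M (colR L x)} = Set.univ :=
      Set.eq_univ_of_forall fun x h => hn ⟨⟨x, h⟩⟩
    rw [huniv] at hrare
    have hfM : Finite M := Set.finite_univ_iff.1 hrare
    let _ : Fintype M := Fintype.ofFinite M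
    refine ⟨fun k => ⟨Finset.univ, fun a => ⟨a, Finset.mem_univ _, 1, (autP L M).one_mem,
      fun _ => rfl⟩⟩, ?_⟩
    exact Set.toFinite _

/-- **Thomas's conjecture for structures with uniform amalgamation.** -/
theorem thomas_uniform (L : Language.{0, 0}) (M : Type) [L.Structure M]
    (hM : Countable M) (hL : L.IsRelational) (hfin : Finite (Σ n, L.Relations n))
    (hu : L.IsUltrahomogeneous M) (δ : DfL L) (hage : UAL L M δ) :
    Set.Finite {D : Set (Σ n : ℕ, Set (Fin n → M)) |
      ∃ (L' : FirstOrder.Language.{0, 0}) (inst' : L'.Structure M), L'.IsRelational ∧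
        (∀ (n : ℕ) (r : L'.Relations n),
          (∅ : Set M).Definable L (setOf (FirstOrder.Language.Structure.RelMap r))) ∧
        D = {p : Σ n : ℕ, Set (Fin n → M) | (∅ : Set M).Definable L' p.2}} := by
  obtain ⟨h1, h3⟩ := fr_autP L hL hfin hu δ hage
  exact finite_reducts L M hL h1 h3

end Pool.Agent.Lib.H3U
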