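import Pool.Agent.Lib.H3U.T5

/-! # X1: special cases of uniform amalgamation -/

set_option autoImplicit false

namespace Pool.Agent.Lib.H3U

open Function FirstOrder Language
open Pool.Agent.Lib.H3F
open Pool.Agent.Lib.H3R (colR BigC)

/-- Free amalgamation is uniform amalgamation with the default value `False`. -/
theorem ual_of_fal (L : Language.{0, 0}) (M : Type) [L.Structure M] (h : FAL L M) :
    UAL L M (fun _ _ _ _ => False) := by
  intro A _ _ X Y hfin hXY hd hb hX hY
  refine h A X Y hfin hXY (fun n r t hr => ?_) hb hX hY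
  by_cases h1 : ∀ i, t i ∈ X
  · exact Or.inl h1
  · by_cases h2 : ∀ i, t i ∈ Y
    · exact Or.inr h2
    · exact absurd ((hd n r t h1 h2).1 hr) id

/-- Random binary structures have uniform amalgamation. -/
theorem ual_of_binary (L : Language.{0, 0}) (hL : L.IsRelational)
    (h2 : ∀ (n : ℕ) (_ : L.Relations n), n ≤ 2) (M : Type) [L.Structure M]
    (hage : ∀ (A : Type) [L.Structure A], Finite A →
      (∀ S : L.Substructure A, Nat.card S ≤ 2 → Nonempty (S ↪[L] M)) → Nonempty (A ↪[L] M)) :
    ∃ δ : DfL L, UAL L M δ := by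
  classical
  -- a pair of points for every pair of 1-types
  have hw : ∀ c c' : Set (Σ n, L.Relations n), ∃ w : M → M → Prop,
      (∃ x y : M, x ≠ y ∧ colR L x = c ∧ colR L y = c') →
        ∃ x y : M, x ≠ y ∧ colR L x = c ∧ colR L y = c' ∧ ∀ x' y', w x' y' ↔ x' = x ∧ y' = y := by
    intro c c'
    by_cases h : ∃ x y : M, x ≠ y ∧ colR L x = c ∧ colR L y = c'
    · obtain ⟨x, y, h1, h3, h4⟩ := h
      exact ⟨fun x' y' => x' = x ∧ y' = y, fun _ => ⟨x, y, h1, h3, h4, fun _ _ => Iff.rfl⟩⟩
    · exact ⟨fun _ _ => False, fun h' => absurd h' h⟩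
  choose w hw using hw
  -- the default values: realise the chosen pair, in increasing order
  refine ⟨fun n r lt c => ∃ f : Fin n → M, Structure.RelMap r f ∧ ∃ i j : Fin n, lt i j ∧
    w (c i) (c j) (f i) (f j), ?_⟩
  intro A _ _ X Y hfin hXY hd hb hX hY
  refine hage A hfin fun S hS => ?_
  obtain ⟨eX⟩ := hX
  obtain ⟨eY⟩ := hY
  by_cases hSX : ∀ a, a ∈ S → a ∈ X
  · exact ⟨eX.comp (Language.Substructure.inclusion (S := S) (T := X) hSX)⟩
  by_cases hSY : ∀ a, a ∈ S → a ∈ Y
  · exact ⟨eY.comp (Language.Substructure.inclusion (S := S) (T := Y) hSY)⟩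
  push Not at hSX hSY
  obtain ⟨a, haS, haX⟩ := hSX
  obtain ⟨b, hbS, hbY⟩ := hSY
  have haY : a ∈ Y := (hXY a).resolve_left haX
  have hbX : b ∈ X := (hXY b).resolve_right hbY
  have hab : a ≠ b := fun h => haX (by rw [h]; exact hbX)
  -- `S = {a, b}`
  have hSab : ∀ z, z ∈ S → z = a ∨ z = b := by
    intro z hz
    by_contra h
    push Not at h
    have h3 : ({(⟨a, haS⟩ : S), ⟨b, hbS⟩, ⟨z, hz⟩} : Finset S).card = 3 := by
      rw [Finset.card_eq_three]
      refine ⟨⟨a, haS⟩, ⟨b, hbS⟩, ⟨z, hz⟩, ?_, ?_, ?_, rfl⟩
      · exact fun h' => hab (congrArg Subtype.val h')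
      · exact fun h' => h.1 (congrArg Subtype.val h').symm
      · exact fun h' => h.2 (congrArg Subtype.val h').symm
    have hfS : Finite S := Subtype.finite
    let _ : Fintype S := Fintype.ofFinite S
    have h4 := Finset.card_le_univ ({(⟨a, haS⟩ : S), ⟨b, hbS⟩, ⟨z, hz⟩} : Finset S)
    rw [h3, ← Nat.card_eq_fintype_card] at h4
    omega
  -- it suffices to embed the pair in increasing order
  have key : ∀ a b : A, a < b → (∀ z, z ∈ S → z = a ∨ z = b) → a ∈ S → b ∈ S →
      ((a ∉ X ∧ b ∉ Y) ∨ (a ∉ Y ∧ b ∉ X)) → Nonempty (S ↪[L] M) := by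
    intro a b hlt hSab haS hbS hcr
    have hab : a ≠ b := hlt.ne
    have hba : BigC L M (colR L a) := hb a (hcr.elim (fun h => Or.inl h.1) fun h => Or.inr h.1)
    have hbb : BigC L M (colR L b) := hb b (hcr.elim (fun h => Or.inr h.2) fun h => Or.inl h.2)
    have hex : ∃ x y : M, x ≠ y ∧ colR L x = colR L a ∧ colR L y = colR L b := by
      obtain ⟨x, x', hxx, hx, hx'⟩ := hba
      obtain ⟨y, y', hyy, hy, hy'⟩ := hbb
      by_cases h : x = y
      · refine ⟨x, y', ?_, hx, hy'⟩
        rw [h]
        exact hyy
      · exact ⟨x, y, h, hx, hy⟩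
    obtain ⟨x, y, hxy, hx, hy, hwxy⟩ := hw (colR L a) (colR L b) hex
    -- the embedding
    obtain ⟨g, hga, hgb⟩ : ∃ g : A → M, g a = x ∧ g b = y :=
      ⟨fun z => if z = a then x else y, if_pos rfl, if_neg hab.symm⟩
    have hcol : ∀ z, z = a ∨ z = b → ∀ s : Σ n, L.Relations n,
        Structure.RelMap s.2 (fun _ => g z) ↔ Structure.RelMap s.2 (fun _ => z) := by
      intro z hz s
      rcases hz with rfl | rfl
      · rw [hga]
        exact Iff.of_eq (congrArg (fun c : Set (Σ n, L.Relations n) => s ∈ c) hx)
      · rw [hgb]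
        exact Iff.of_eq (congrArg (fun c : Set (Σ n, L.Relations n) => s ∈ c) hy)
    have hrel : ∀ (n : ℕ) (r : L.Relations n) (t : Fin n → A), (∀ i, t i = a ∨ t i = b) →
        (Structure.RelMap r (fun i => g (t i)) ↔ Structure.RelMap r t) := by
      intro n r t ht
      by_cases hconst : ∃ z, (z = a ∨ z = b) ∧ ∀ i, t i = z
      · obtain ⟨z, hz, htz⟩ := hconst
        have e1 : t = fun _ => z := funext htz
        rw [e1]
        exact hcol z hz ⟨n, r⟩
      · -- `a` and `b` both occur
        have hA : ∃ i, t i = a := by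
          by_contra h
          push Not at h
          exact hconst ⟨b, Or.inr rfl, fun i => (ht i).resolve_left (h i)⟩
        have hB : ∃ i, t i = b := by
          by_contra h
          push Not at h
          exact hconst ⟨a, Or.inl rfl, fun i => (ht i).resolve_right (h i)⟩
        obtain ⟨i₀, hi₀⟩ := hA
        obtain ⟨j₀, hj₀⟩ := hB
        have hn1 : ¬ ∀ i, t i ∈ X := by
          intro h
          rcases hcr with h3 | h3
          · exact h3.1 (by rw [← hi₀]; exact h i₀)
          · exact h3.2 (by rw [← hj₀]; exact h j₀)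
        have hn2 : ¬ ∀ i, t i ∈ Y := by
          intro h
          rcases hcr with h3 | h3
          · exact h3.2 (by rw [← hj₀]; exact h j₀)
          · exact h3.1 (by rw [← hi₀]; exact h i₀)
        rw [hd n r t hn1 hn2]
        constructor
        · intro h
          refine ⟨fun i => g (t i), h, i₀, j₀, ?_, ?_⟩
          · show t i₀ < t j₀
            rw [hi₀, hj₀]
            exact hlt
          · show w (colR L (t i₀)) (colR L (t j₀)) (g (t i₀)) (g (t j₀))
            rw [hi₀, hj₀, hwxy, hga, hgb]
            exact ⟨rfl, rfl⟩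
        · rintro ⟨f, hf, i, j, hij, hwij⟩
          have hij' : t i < t j := hij
          have hti : t i = a := by
            rcases ht i with h | h
            · exact h
            · rcases ht j with h' | h'
              · rw [h, h'] at hij'
                exact absurd hij' (not_lt.2 hlt.le)
              · rw [h, h'] at hij'
                exact absurd hij' (lt_irrefl _)
          have htj : t j = b := by
            rcases ht j with h | h
            · rw [hti, h] at hij'
              exact absurd hij' (lt_irrefl _)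
            · exact h
          have hw2 : w (colR L (t i)) (colR L (t j)) (f i) (f j) := hwij
          rw [hti, htj, hwxy] at hw2
          have e2 : (fun k => g (t k)) = f := by
            funext k
            -- `n ≤ 2`, so `k` is `i` or `j`
            have hne : i ≠ j := by
              rintro rfl
              exact lt_irrefl _ hij'
            have hk : k = i ∨ k = j := by
              have h5 := h2 n r
              have h6 := i.2
              have h7 := j.2
              have h8 := k.2
              have h9 : (i : ℕ) ≠ j := fun h => hne (Fin.ext h)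
              by_cases h10 : (k : ℕ) = i
              · exact Or.inl (Fin.ext h10)
              · exact Or.inr (Fin.ext (by omega))
            rcases hk with rfl | rfl
            · rw [hti, hga, hw2.1]
            · rw [htj, hgb, hw2.2]
          rw [e2]
          exact hf
    refine ⟨⟨⟨fun z => g z.1, ?_⟩, ?_, ?_⟩⟩
    · intro z z' hzz
      have hzz' : g z.1 = g z'.1 := hzz
      apply Subtype.ext
      rcases hSab z.1 z.2 with h | h <;> rcases hSab z'.1 z'.2 with h' | h'
      · rw [h, h']
      · rw [h, h', hga, hgb] at hzz'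
        exact absurd hzz' hxy
      · rw [h, h', hga, hgb] at hzz'
        exact absurd hzz'.symm hxy
      · rw [h, h']
    · intro n f
      exact ((hL n).false f).elim
    · intro n r t
      exact hrel n r (fun i => (t i).1) (fun i => hSab _ (t i).2)
  rcases lt_or_gt_of_ne hab with h | h
  · exact key a b h hSab haS hbS (Or.inl ⟨haX, hbY⟩)
  · exact key b a h (fun z hz => (hSab z hz).symm) hbS haS (Or.inr ⟨hbY, haX⟩)

end Pool.Agent.Lib.H3U
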